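import Pool.Agent.W735.DxPing

/-!
Möbius transformations are continuous on the one point compactification of `ℝ`; homeomorphisms which
are locally Möbius off a finite set.
-/

set_option autoImplicit false
set_option linter.unusedVariables false
set_option linter.unusedSectionVars false

open scoped Topology MatrixGroups
open Filter OnePoint

namespace Pool.W735.Dx

noncomputable section

/-- the inversion matrix. -/
def Jm : SL(2, ℝ) := ⟨!![0, -1; 1, 0], by simp [Matrix.det_fin_two]⟩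

lemma Jm_coe (x : ℝ) (hx : x ≠ 0) : mobHom ℝ Jm (x : OnePoint ℝ) = ((-(x⁻¹) : ℝ) : OnePoint ℝ) := by
  have h1 : Jm 0 0 = 0 := rfl
  have h2 : Jm 0 1 = -1 := rfl
  have h3 : Jm 1 0 = 1 := rfl
  have h4 : Jm 1 1 = 0 := rfl
  rw [mobHom_coe, h1, h2, h3, h4, one_mul, add_zero, if_neg hx, OnePoint.coe_eq_coe]
  field_simp
  ring

lemma Jm_zero : mobHom ℝ Jm ((0 : ℝ) : OnePoint ℝ) = ∞ := by
  have h3 : Jm 1 0 = 1 := rfl
  have h4 : Jm 1 1 = 0 := rfl
  rw [mobHom_coe, h3, h4, one_mul, add_zero, if_pos rfl]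

lemma Jm_infty : mobHom ℝ Jm ∞ = ((0 : ℝ) : OnePoint ℝ) := by
  have h1 : Jm 0 0 = 0 := rfl
  have h3 : Jm 1 0 = 1 := rfl
  rw [mobHom_infty, h1, h3, if_neg one_ne_zero, zero_div]

lemma ccc : coclosedCompact ℝ = Bornology.cobounded ℝ := by
  rw [coclosedCompact_eq_cocompact, Metric.cobounded_eq_cocompact]

lemma Jm_cont : Continuous (fun p => mobHom ℝ Jm p) := by
  rw [OnePoint.continuous_iff]
  constructor
  · rw [Jm_infty, ccc]
    have h1 : Tendsto (fun x : ℝ => ((-(x⁻¹) : ℝ) : OnePoint ℝ)) (Bornology.cobounded ℝ)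
        (𝓝 ((0 : ℝ) : OnePoint ℝ)) := by
      have h2 : Tendsto (fun x : ℝ => -(x⁻¹)) (Bornology.cobounded ℝ) (𝓝 0) := by
        have := (tendsto_inv₀_cobounded (α := ℝ)).neg
        rwa [neg_zero] at this
      exact (OnePoint.continuous_coe.tendsto _).comp h2
    refine h1.congr' ?_
    have h3 : ∀ᶠ x : ℝ in Bornology.cobounded ℝ, x ≠ 0 := by
      have : Bornology.IsBounded ({0} : Set ℝ) := Bornology.isBounded_singleton
      filter_upwards [Bornology.isBounded_def.1 this] with x hx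
      exact hx
    filter_upwards [h3] with x hx
    exact (Jm_coe x hx).symm
  · rw [continuous_iff_continuousAt]
    intro x
    by_cases hx : x = 0
    · subst hx
      rw [ContinuousAt, Jm_zero, ← nhdsNE_sup_pure, tendsto_sup]
      constructor
      · have h1 : Tendsto (fun x : ℝ => ((-(x⁻¹) : ℝ) : OnePoint ℝ)) (𝓝[≠] 0) (𝓝 ∞) := by
          have h2 : Tendsto (fun x : ℝ => -(x⁻¹)) (𝓝[≠] 0) (Bornology.cobounded ℝ) := by
            have h3 := tendsto_inv₀_nhdsNE_zero (α := ℝ)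
            have h4 : Tendsto (fun x : ℝ => -x) (Bornology.cobounded ℝ) (Bornology.cobounded ℝ) := by
              rw [Metric.cobounded_eq_cocompact]
              exact (Homeomorph.neg ℝ).isClosedEmbedding.tendsto_cocompact
            exact h4.comp h3
          rw [← ccc] at h2
          exact OnePoint.tendsto_coe_infty.comp h2
        refine h1.congr' ?_
        filter_upwards [self_mem_nhdsWithin] with x hx
        exact (Jm_coe x hx).symm
      · rw [tendsto_pure_left]
        intro s hs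
        rw [Jm_zero]
        exact mem_of_mem_nhds hs
    · have h1 : ContinuousAt (fun x : ℝ => ((-(x⁻¹) : ℝ) : OnePoint ℝ)) x := by
        apply ContinuousAt.comp (g := fun y : ℝ => (y : OnePoint ℝ))
        · exact OnePoint.continuous_coe.continuousAt
        · exact (continuousAt_inv₀ hx).neg
      refine h1.congr ?_
      filter_upwards [isOpen_ne.mem_nhds hx] with z hz
      exact (Jm_coe z hz).symm

lemma upper_cont (M : SL(2, ℝ)) (hc : M 1 0 = 0) : Continuous (fun p => mobHom ℝ M p) := by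
  have hdet := det_eq M
  rw [hc, mul_zero, sub_zero] at hdet
  have hd : M 1 1 ≠ 0 := by
    intro h0
    rw [h0, mul_zero] at hdet
    exact zero_ne_one hdet
  have ha : M 0 0 ≠ 0 := by
    intro h0
    rw [h0, zero_mul] at hdet
    exact zero_ne_one hdet
  let h : ℝ ≃ₜ ℝ := (Homeomorph.mulLeft₀ (M 0 0 / M 1 1) (div_ne_zero ha hd)).trans
    (Homeomorph.addRight (M 0 1 / M 1 1))
  have h1 : (fun p => mobHom ℝ M p) = h.onePointCongr := by
    funext p
    cases p using OnePoint.rec with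
    | infty =>
      rw [mobHom_infty, if_pos hc]
      rfl
    | coe x =>
      rw [mobHom_coe, hc, zero_mul, zero_add, if_neg hd]
      show _ = ((M 0 0 / M 1 1 * x + M 0 1 / M 1 1 : ℝ) : OnePoint ℝ)
      rw [OnePoint.coe_eq_coe]
      field_simp
  rw [h1]
  exact h.onePointCongr.continuous

theorem mobHom_cont (M : SL(2, ℝ)) : Continuous (fun p => mobHom ℝ M p) := by
  by_cases hc : M 1 0 = 0
  · exact upper_cont M hc
  · have hdet := det_eq M
    let U : SL(2, ℝ) := ⟨!![1, M 0 0 / M 1 0; 0, 1], by simp [Matrix.det_fin_two]⟩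
    let D : SL(2, ℝ) := ⟨!![M 1 0, M 1 1; 0, 1 / M 1 0], by
      rw [Matrix.det_fin_two_of]
      field_simp
      ring⟩
    have h1 : M = U * Jm * D := by
      ext i j
      rw [Matrix.SpecialLinearGroup.coe_mul, Matrix.SpecialLinearGroup.coe_mul]
      have hU : (U : Matrix (Fin 2) (Fin 2) ℝ) = !![1, M 0 0 / M 1 0; 0, 1] := rfl
      have hJ : (Jm : Matrix (Fin 2) (Fin 2) ℝ) = !![0, -1; 1, 0] := rfl
      have hD : (D : Matrix (Fin 2) (Fin 2) ℝ) = !![M 1 0, M 1 1; 0, 1 / M 1 0] := rfl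
      rw [hU, hJ, hD]
      fin_cases i <;> fin_cases j
      · simp [Matrix.mul_apply, Fin.sum_univ_two]
        field_simp
      · simp [Matrix.mul_apply, Fin.sum_univ_two]
        field_simp
        linear_combination -hdet
      · simp [Matrix.mul_apply, Fin.sum_univ_two]
      · simp [Matrix.mul_apply, Fin.sum_univ_two]
    have h2 : (fun p => mobHom ℝ M p) = (fun p => mobHom ℝ U p) ∘ (fun p => mobHom ℝ Jm p) ∘
        (fun p => mobHom ℝ D p) := by
      funext p
      conv_lhs => rw [h1]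
      rw [map_mul, map_mul]
      rfl
    rw [h2]
    exact (upper_cont U rfl).comp (Jm_cont.comp (upper_cont D rfl))

/-- germs of maps of the projective line, seen on the real line. -/
def IsGermP (γ : Equiv.Perm (OnePoint ℝ)) (h : OnePoint ℝ → OnePoint ℝ) (x : ℝ) : Prop :=
  ∀ᶠ z : ℝ in 𝓝 x, h (z : OnePoint ℝ) = γ (z : OnePoint ℝ)

lemma IsGermP.unique {γ γ' : Equiv.Perm (OnePoint ℝ)} {h : OnePoint ℝ → OnePoint ℝ} {x : ℝ}
    (hγ : γ ∈ (mobHom ℝ).range) (hγ' : γ' ∈ (mobHom ℝ).range)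
    (h1 : IsGermP γ h x) (h2 : IsGermP γ' h x) : γ = γ' := by
  obtain ⟨M, rfl⟩ := hγ
  obtain ⟨M', rfl⟩ := hγ'
  have h3 : mobHom ℝ (M'⁻¹ * M) = 1 := by
    apply mobHom_eq_one
    apply infinite_of_mem_nhds x
    filter_upwards [h1, h2] with z hz1 hz2
    show mobHom ℝ (M'⁻¹ * M) (z : OnePoint ℝ) = z
    rw [map_mul, Equiv.Perm.mul_apply, ← hz1, hz2, map_inv]
    exact Equiv.symm_apply_apply _ _
  rw [map_mul, map_inv, inv_mul_eq_one] at h3
  exact h3.symm

/-- on a preconnected set of the line the germ is constant. -/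
lemma germ_const {V : Set ℝ} (hV : IsPreconnected V) (hne : V.Nonempty)
    {h : OnePoint ℝ → OnePoint ℝ} (Λ : Subgroup (Equiv.Perm (OnePoint ℝ)))
    (hΛ : Λ ≤ (mobHom ℝ).range) (hg : ∀ x ∈ V, ∃ γ ∈ Λ, IsGermP γ h x) :
    ∃ γ ∈ Λ, ∀ x ∈ V, h (x : OnePoint ℝ) = γ (x : OnePoint ℝ) := by
  classical
  let _ : TopologicalSpace (Equiv.Perm (OnePoint ℝ)) := ⊥
  have _ : DiscreteTopology (Equiv.Perm (OnePoint ℝ)) := ⟨rfl⟩
  let g : ℝ → Equiv.Perm (OnePoint ℝ) := fun x =>
    if H : ∃ γ ∈ Λ, IsGermP γ h x then H.choose else 1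
  have hgx : ∀ x, (∃ γ ∈ Λ, IsGermP γ h x) → g x ∈ Λ ∧ IsGermP (g x) h x := by
    intro x H
    have : g x = H.choose := dif_pos H
    rw [this]
    exact H.choose_spec
  have hcont : ContinuousOn g V := by
    intro x hx
    apply ContinuousAt.continuousWithinAt
    obtain ⟨h1, h2⟩ := hgx x (hg x hx)
    have h3 : (fun _ => g x) =ᶠ[𝓝 x] g := by
      have h4 : ∀ᶠ z in 𝓝 x, IsGermP (g x) h z := eventually_eventually_nhds.2 h2
      filter_upwards [h4] with z hz
      obtain ⟨h5, h6⟩ := hgx z ⟨g x, h1, hz⟩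
      exact IsGermP.unique (hΛ h1) (hΛ h5) hz h6
    exact continuousAt_const.congr h3
  obtain ⟨x0, hx0⟩ := hne
  refine ⟨g x0, (hgx x0 (hg x0 hx0)).1, ?_⟩
  intro x hx
  rw [hV.constant hcont hx0 hx]
  exact (hgx x (hg x hx)).2.self_of_nhds

/-- a homeomorphism which is locally in `Λ` off a finite set is pointwise in `Λ` everywhere. -/
theorem pointwise {S : Set (OnePoint ℝ)} (hS : S.Finite) {h : OnePoint ℝ → OnePoint ℝ}
    (hh : Continuous h) (Λ : Subgroup (Equiv.Perm (OnePoint ℝ))) (hΛ : Λ ≤ (mobHom ℝ).range)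
    (hg : ∀ p ∉ S, ∃ γ ∈ Λ, ∀ᶠ q in 𝓝 p, h q = γ q) (p : OnePoint ℝ) :
    ∃ γ ∈ Λ, h p = γ p := by
  have hfin : ((fun x : ℝ => (x : OnePoint ℝ)) ⁻¹' S).Finite :=
    hS.preimage OnePoint.coe_injective.injOn
  have hg' : ∀ x : ℝ, (x : OnePoint ℝ) ∉ S → ∃ γ ∈ Λ, IsGermP γ h x := by
    intro x hx
    obtain ⟨γ, h1, h2⟩ := hg x hx
    refine ⟨γ, h1, ?_⟩
    rw [OnePoint.nhds_coe_eq, eventually_map] at h2
    exact h2
  have key : ∀ V : Set ℝ, IsPreconnected V → V.Nonempty → (∀ x ∈ V, (x : OnePoint ℝ) ∉ S) →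
      p ∈ closure ((fun x : ℝ => (x : OnePoint ℝ)) '' V) → ∃ γ ∈ Λ, h p = γ p := by
    intro V h1 h2 h3 h4
    obtain ⟨γ, h5, h6⟩ := germ_const h1 h2 Λ hΛ (fun x hx => hg' x (h3 x hx))
    refine ⟨γ, h5, ?_⟩
    obtain ⟨M, hM⟩ := hΛ h5
    have hcl : IsClosed {q | h q = γ q} := by
      apply isClosed_eq hh
      rw [← hM]
      exact mobHom_cont M
    have hsub : (fun x : ℝ => (x : OnePoint ℝ)) '' V ⊆ {q | h q = γ q} := by
      rintro _ ⟨x, hx, rfl⟩
      exact h6 x hx
    exact closure_minimal hsub hcl h4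
  cases p using OnePoint.rec with
  | infty =>
    obtain ⟨R, hR⟩ := hfin.bddAbove
    apply key (Set.Ioi R) isPreconnected_Ioi Set.nonempty_Ioi
    · intro x hx hxS
      exact absurd (hR hxS) (not_le.2 hx)
    · have h1 : Tendsto (fun x : ℝ => (x : OnePoint ℝ)) atTop (𝓝 ∞) := by
        apply OnePoint.tendsto_coe_infty.comp
        rw [coclosedCompact_eq_cocompact]
        exact tendsto_id.mono_left atTop_le_cocompact
      apply mem_closure_of_tendsto h1
      filter_upwards [eventually_gt_atTop R] with x hx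
      exact ⟨x, hx, rfl⟩
  | coe x =>
    have h1 : (((fun x : ℝ => (x : OnePoint ℝ)) ⁻¹' S) \ {x})ᶜ ∈ 𝓝 x := by
      apply (hfin.subset Set.sdiff_subset).isClosed.isOpen_compl.mem_nhds
      intro h
      exact h.2 rfl
    obtain ⟨δ, hδ, hδ'⟩ := Metric.mem_nhds_iff.1 h1
    apply key (Set.Ioo x (x + δ)) isPreconnected_Ioo (Set.nonempty_Ioo.2 (by linarith))
    · intro y hy hyS
      have h2 : y ∈ Metric.ball x δ := by
        rw [Real.ball_eq_Ioo]
        exact ⟨by linarith [hy.1], hy.2⟩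
      exact hδ' h2 ⟨hyS, fun h => hy.1.ne' h⟩
    · have h2 : x ∈ closure (Set.Ioo x (x + δ)) := by
        rw [closure_Ioo (by linarith)]
        exact ⟨le_rfl, by linarith⟩
      exact image_closure_subset_closure_image OnePoint.continuous_coe ⟨x, h2, rfl⟩

end

end Pool.W735.Dx
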