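import Mathlib

/-!
Orders of the iterates of the monomial map `(x, y, z) ↦ (y ^ 2, z, x ^ 2 z)` of `C^3`.
-/

set_option autoImplicit false

namespace Pool.Agent.W735.OrdMono

abbrev V := Fin 3 → ℂ

/-- The monomial map `(x, y, z) ↦ (y ^ 2, z, x ^ 2 z)`. -/
noncomputable def f (z : V) : V := ![z 1 ^ 2, z 2, z 0 ^ 2 * z 2]

/-! ### Homogeneous functions -/

theorem iter_eq_zero {g : V → ℂ} (hg : ContDiff ℂ ⊤ g) {m : ℕ}
    (hh : ∀ z, g ((2 : ℂ) • z) = (2 : ℂ) ^ m * g z) {j : ℕ} (hj : j ≠ m) :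
    iteratedFDeriv ℂ j g 0 = 0 := by
  set L : V →L[ℂ] V := (2 : ℂ) • ContinuousLinearMap.id ℂ V with hL
  have h1 : iteratedFDeriv ℂ j (g ∘ L) 0 =
      (iteratedFDeriv ℂ j g (L 0)).compContinuousLinearMap fun _ => L :=
    L.iteratedFDeriv_comp_right (n := ⊤) hg 0 (by exact_mod_cast le_top)
  have h2 : (g ∘ L) = fun z => (2 : ℂ) ^ m • g z := by
    funext z
    simp [hL, hh]
  rw [h2, map_zero] at h1
  have h3 : iteratedFDeriv ℂ j (fun z => (2 : ℂ) ^ m • g z) 0 =
      (2 : ℂ) ^ m • iteratedFDeriv ℂ j g 0 := by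
    apply iteratedFDeriv_const_smul_apply'
    exact (hg.of_le (by exact_mod_cast le_top)).contDiffAt
  rw [h3] at h1
  ext v
  have h4 := congrArg (fun T : V [×j]→L[ℂ] ℂ => T v) h1
  simp only [smul_apply,
    ContinuousMultilinearMap.compContinuousLinearMap_apply] at h4
  have h5 : (fun i => L (v i)) = fun i => (2 : ℂ) • v i := by
    funext i; simp [hL]
  rw [h5, ContinuousMultilinearMap.map_smul_univ] at h4
  simp only [Finset.prod_const, Finset.card_univ, Fintype.card_fin, smul_eq_mul] at h4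
  have h6 : ((2 : ℂ) ^ m - 2 ^ j) * iteratedFDeriv ℂ j g 0 v = 0 := by
    rw [sub_mul, h4, sub_self]
  rcases mul_eq_zero.1 h6 with h7 | h7
  · exfalso
    have h8 : (2 : ℂ) ^ m = 2 ^ j := sub_eq_zero.1 h7
    have h9 : (2 : ℕ) ^ m = 2 ^ j := by exact_mod_cast h8
    exact hj (Nat.pow_right_injective le_rfl h9).symm
  · simpa using h7

theorem iter_ne_zero {g : V → ℂ} (hg : ContDiff ℂ ⊤ g) (ha : AnalyticAt ℂ g 0) {m : ℕ}
    (hh : ∀ z, g ((2 : ℂ) • z) = (2 : ℂ) ^ m * g z) (hne : ∀ t : ℂ, t ≠ 0 → g (fun _ => t) ≠ 0) :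
    iteratedFDeriv ℂ m g 0 ≠ 0 := by
  intro h0
  have hall : ∀ j, iteratedFDeriv ℂ j g 0 = 0 := by
    intro j
    by_cases hj : j = m
    · rw [hj]; exact h0
    · exact iter_eq_zero hg hh hj
  obtain ⟨p, r, hp⟩ := ha
  have hr := hp.r_pos
  -- choose a small diagonal vector
  obtain ⟨ε, hε, hεr⟩ := ENNReal.lt_iff_exists_nnreal_btwn.1 hr
  have hε0 : (0 : ℝ) < ε := by exact_mod_cast hε
  set t : ℂ := (((ε : ℝ) / 2 : ℝ) : ℂ) with ht
  have ht0 : t ≠ 0 := by
    rw [ht, ne_eq, Complex.ofReal_eq_zero]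
    positivity
  have hnorm : ‖(fun _ : Fin 3 => t)‖ < ε := by
    rw [pi_norm_const, ht, Complex.norm_real, Real.norm_eq_abs, abs_of_pos (by positivity)]
    linarith
  have hmem : (fun _ : Fin 3 => t) ∈ Metric.eball (0 : V) r := by
    rw [Metric.mem_eball, edist_zero_right]
    refine lt_trans ?_ hεr
    rw [enorm_eq_nnnorm]
    exact_mod_cast hnorm
  have hs := hp.hasSum hmem
  have hz : ∀ n, p n (fun _ => (fun _ : Fin 3 => t)) = 0 := by
    intro n
    have h1 := hp.factorial_smul (fun _ : Fin 3 => t) n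
    rw [hall n] at h1
    have h2 : (n.factorial : ℂ) • p n (fun _ => (fun _ : Fin 3 => t)) = 0 := by
      rw [Nat.cast_smul_eq_nsmul]
      simpa using h1
    rcases smul_eq_zero.1 h2 with h3 | h3
    · exact absurd h3 (by exact_mod_cast n.factorial_ne_zero)
    · exact h3
  simp only [hz] at hs
  have h5 := hs.unique hasSum_zero
  rw [zero_add] at h5
  exact hne t ht0 h5

/-! ### The exponents -/

/-- The degrees of the components of the iterates. -/
def S : ℕ → Fin 3 → ℕ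
  | 0 => fun _ => 1
  | k + 1 => ![2 * S k 1, S k 2, 2 * S k 0 + S k 2]

theorem f_analytic : ∀ z, AnalyticAt ℂ f z := by
  intro z
  rw [analyticAt_pi_iff]
  intro i
  have hp : ∀ j : Fin 3, AnalyticAt ℂ (fun z : V => z j) z := fun j =>
    (ContinuousLinearMap.proj (R := ℂ) (φ := fun _ : Fin 3 => ℂ) j).analyticAt z
  fin_cases i
  · exact (hp 1).pow 2
  · exact hp 2
  · exact ((hp 0).pow 2).mul (hp 2)

theorem iter_analytic (k : ℕ) : ∀ z, AnalyticAt ℂ (f^[k]) z := by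
  induction k with
  | zero => intro z; exact analyticAt_id
  | succ k ih =>
    intro z
    rw [Function.iterate_succ']
    exact (f_analytic _).comp (ih z)

theorem iter_hom (k : ℕ) (i : Fin 3) (z : V) :
    f^[k] ((2 : ℂ) • z) i = (2 : ℂ) ^ S k i * f^[k] z i := by
  induction k generalizing i with
  | zero => simp [S]
  | succ k ih =>
    rw [Function.iterate_succ_apply', Function.iterate_succ_apply']
    unfold f
    fin_cases i
    · show (f^[k] ((2 : ℂ) • z) 1) ^ 2 = 2 ^ (2 * S k 1) * (f^[k] z 1) ^ 2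
      rw [ih]; ring
    · show (f^[k] ((2 : ℂ) • z) 2) = 2 ^ (S k 2) * (f^[k] z 2)
      rw [ih]
    · show (f^[k] ((2 : ℂ) • z) 0) ^ 2 * (f^[k] ((2 : ℂ) • z) 2) =
        2 ^ (2 * S k 0 + S k 2) * ((f^[k] z 0) ^ 2 * f^[k] z 2)
      rw [ih, ih]; ring

theorem iter_ne (k : ℕ) (i : Fin 3) (t : ℂ) (ht : t ≠ 0) : f^[k] (fun _ => t) i ≠ 0 := by
  induction k generalizing i with
  | zero => simpa using ht
  | succ k ih =>
    rw [Function.iterate_succ_apply']
    unfold f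
    fin_cases i
    · exact pow_ne_zero 2 (ih 1)
    · exact ih 2
    · exact mul_ne_zero (pow_ne_zero 2 (ih 0)) (ih 2)

theorem iter_contDiff (k : ℕ) : ContDiff ℂ ⊤ (f^[k]) := by
  rw [contDiff_iff_contDiffAt]
  intro z
  exact (iter_analytic k z).contDiffAt

theorem comp_iter (k : ℕ) (i : Fin 3) (j : ℕ) (v : Fin j → V) :
    iteratedFDeriv ℂ j (f^[k]) 0 v i = iteratedFDeriv ℂ j (fun z => f^[k] z i) 0 v := by
  have h := (ContinuousLinearMap.proj (R := ℂ) (φ := fun _ : Fin 3 => ℂ) i).iteratedFDeriv_comp_left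
    (f := f^[k]) (x := (0 : V)) (n := ⊤) (iter_contDiff k).contDiffAt (i := j)
    (by exact_mod_cast le_top)
  have h2 : ((ContinuousLinearMap.proj (R := ℂ) (φ := fun _ : Fin 3 => ℂ) i) ∘ f^[k]) =
      fun z => f^[k] z i := rfl
  rw [h2] at h
  rw [h]
  rfl

theorem iter_set (k : ℕ) :
    {m : ℕ | iteratedFDeriv ℂ m (f^[k]) 0 ≠ 0} = {m | ∃ i, m = S k i} := by
  ext m
  simp only [Set.mem_ofPred_eq]
  have hc : ∀ i, ContDiff ℂ ⊤ (fun z => f^[k] z i) := fun i =>
    (contDiff_pi.1 (iter_contDiff k)) i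
  constructor
  · intro h
    by_contra hcon
    push Not at hcon
    apply h
    ext v i
    rw [comp_iter, iter_eq_zero (hc i) (iter_hom k i) (hcon i)]
    rfl
  · rintro ⟨i, rfl⟩ h
    have hane : AnalyticAt ℂ (fun z => f^[k] z i) 0 :=
      (analyticAt_pi_iff.1 (iter_analytic k 0)) i
    apply iter_ne_zero (hc i) hane (iter_hom k i) (fun t ht => iter_ne k i t ht)
    ext v
    rw [← comp_iter, h]
    rfl

theorem ord_eq (k : ℕ) : sInf {m : ℕ | iteratedFDeriv ℂ m (f^[k]) 0 ≠ 0} =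
    min (S k 0) (min (S k 1) (S k 2)) := by
  rw [iter_set]
  apply le_antisymm
  · refine le_min (Nat.sInf_le ⟨0, rfl⟩) (le_min (Nat.sInf_le ⟨1, rfl⟩) (Nat.sInf_le ⟨2, rfl⟩))
  · apply le_csInf (show Set.Nonempty {m | ∃ i, m = S k i} from ⟨_, 0, rfl⟩)
    rintro m ⟨i, rfl⟩
    fin_cases i
    · exact min_le_left _ _
    · exact (min_le_right _ _).trans (min_le_left _ _)
    · exact (min_le_right _ _).trans (min_le_right _ _)

/-! ### Arithmetic of the exponents -/

theorem S_zero_succ (k : ℕ) : S (k + 1) 0 = 2 * S k 1 := rfl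
theorem S_one_succ (k : ℕ) : S (k + 1) 1 = S k 2 := rfl
theorem S_two_succ (k : ℕ) : S (k + 1) 2 = 2 * S k 0 + S k 2 := rfl

theorem S_two_odd (k : ℕ) : S k 2 % 2 = 1 := by
  induction k with
  | zero => rfl
  | succ k ih => rw [S_two_succ]; omega

theorem S_one_odd (k : ℕ) : S k 1 % 2 = 1 := by
  cases k with
  | zero => rfl
  | succ k => rw [S_one_succ]; exact S_two_odd k

theorem S_zero_even (k : ℕ) : S (k + 1) 0 % 2 = 0 := by
  rw [S_zero_succ]; omega

theorem S_one_le_two (k : ℕ) : S k 1 ≤ S k 2 := by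
  cases k with
  | zero => exact le_rfl
  | succ k => rw [S_one_succ, S_two_succ]; omega

/-- The order of the `k`-th iterate. -/
theorem ord_eq' (k : ℕ) : sInf {m : ℕ | iteratedFDeriv ℂ m (f^[k]) 0 ≠ 0} =
    min (S k 0) (S k 1) := by
  rw [ord_eq, min_eq_left (S_one_le_two k)]

/-- The difference of the two competing exponents. -/
def W (k : ℕ) : ℤ := (S k 0 : ℤ) - S k 1

theorem W_zero : W 0 = 0 := rfl
theorem W_one : W 1 = 1 := rfl

theorem W_rec (k : ℕ) : W (k + 2) = -W (k + 1) - 2 * W k := by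
  unfold W
  rw [S_zero_succ (k + 1), S_one_succ (k + 1), S_one_succ k, S_two_succ k, S_zero_succ k]
  push_cast
  ring

theorem W_odd (k : ℕ) : W (k + 1) % 2 = 1 := by
  unfold W
  have h1 := S_zero_even k
  have h2 := S_one_odd (k + 1)
  omega

/-- The companion (Lucas) sequence. -/
def Lu : ℕ → ℤ
  | 0 => 2
  | 1 => -1
  | n + 2 => -Lu (n + 1) - 2 * Lu n

theorem Lu_rec (n : ℕ) : Lu (n + 2) = -Lu (n + 1) - 2 * Lu n := rfl

theorem W_step (n : ℕ) : (∀ k, W (k + 2 * n) = Lu n * W (k + n) - 2 ^ n * W k) ∧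
    (∀ k, W (k + 2 * (n + 1)) = Lu (n + 1) * W (k + (n + 1)) - 2 ^ (n + 1) * W k) := by
  induction n with
  | zero =>
    refine ⟨fun k => ?_, fun k => ?_⟩
    · simp [Lu]; ring
    · have := W_rec k
      simp only [Lu, zero_add, mul_one, pow_one]
      rw [this]; ring
  | succ n ih =>
    refine ⟨ih.2, fun k => ?_⟩
    have h1 := ih.2 (k + 1)
    have h2 := ih.1 (k + 2)
    have h3 := W_rec (k + 2 * (n + 1))
    have h4 := W_rec k
    rw [Lu_rec]
    have e1 : k + 2 * (n + 1 + 1) = k + 2 * (n + 1) + 2 := by ring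
    have e2 : k + 1 + 2 * (n + 1) = k + 2 * (n + 1) + 1 := by ring
    have e3 : k + 1 + (n + 1) = k + (n + 1 + 1) := by ring
    have e4 : k + 2 + 2 * n = k + 2 * (n + 1) := by ring
    have e5 : k + 2 + n = k + (n + 1 + 1) := by ring
    rw [e2, e3] at h1
    rw [e4, e5] at h2
    rw [e1, h3]
    rw [h4] at h2
    rw [h1]
    have h5 : W (k + 2 * (n + 1)) = Lu n * W (k + (n + 1 + 1)) -
      2 ^ n * (-W (k + 1) - 2 * W k) := h2
    rw [h5]
    ring

theorem disc (n : ℕ) : Lu n ^ 2 + 7 * W n ^ 2 = 4 * 2 ^ n ∧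
    Lu n * Lu (n + 1) + 7 * (W n * W (n + 1)) = -2 * 2 ^ n ∧
    Lu (n + 1) ^ 2 + 7 * W (n + 1) ^ 2 = 4 * 2 ^ (n + 1) := by
  induction n with
  | zero => simp [Lu, W_zero, W_one]
  | succ n ih =>
    obtain ⟨h1, h2, h3⟩ := ih
    refine ⟨h3, ?_, ?_⟩
    · rw [Lu_rec, W_rec]
      linear_combination -h3 - 2 * h2
    · rw [Lu_rec, W_rec]
      linear_combination h3 + 4 * h2 + 4 * h1

/-- No arithmetic progression on which `W` has a constant sign. -/
theorem no_const_sign (c : ℤ) (K P : ℕ) :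
    ¬ ∀ j : ℕ, 0 < c * W (K + (P + 1) * j) := by
  intro hpos
  set n := P + 1 with hn
  set w : ℕ → ℝ := fun j => ((c * W (K + n * j) : ℤ) : ℝ) with hw
  have hwpos : ∀ j, 0 < w j := fun j => by
    have := hpos j
    show (0 : ℝ) < ((c * W (K + n * j) : ℤ) : ℝ)
    exact_mod_cast this
  have hrec : ∀ j, w (j + 2) = (Lu n : ℝ) * w (j + 1) - 2 ^ n * w j := by
    intro j
    have h := (W_step n).1 (K + n * j)
    have e1 : K + n * (j + 2) = K + n * j + 2 * n := by ring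
    have e2 : K + n * (j + 1) = K + n * j + n := by ring
    show ((c * W (K + n * (j + 2)) : ℤ) : ℝ) = (Lu n : ℝ) * ((c * W (K + n * (j + 1)) : ℤ) : ℝ) -
      2 ^ n * ((c * W (K + n * j) : ℤ) : ℝ)
    rw [e1, e2, h]
    push_cast
    ring
  have hdisc : ((Lu n : ℝ)) ^ 2 + 7 ≤ 4 * 2 ^ n := by
    have h1 := (disc n).1
    have h2 : 1 ≤ W n ^ 2 := by
      have h3 : W n ≠ 0 := by
        intro h0
        have := W_odd P
        rw [← hn, h0] at this
        norm_num at this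
      have : 0 < W n ^ 2 := by positivity
      linarith
    have h4 : Lu n ^ 2 + 7 ≤ 4 * 2 ^ n := by linarith
    exact_mod_cast h4
  -- ratios
  set r : ℕ → ℝ := fun j => w (j + 1) / w j with hr
  have hrpos : ∀ j, 0 < r j := fun j => div_pos (hwpos _) (hwpos _)
  have hrr : ∀ j, r (j + 1) = (Lu n : ℝ) - 2 ^ n / r j := by
    intro j
    have h1 := hwpos j
    have h2 := hwpos (j + 1)
    show w (j + 2) / w (j + 1) = (Lu n : ℝ) - 2 ^ n / (w (j + 1) / w j)
    rw [hrec]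
    field_simp
  have hstep : ∀ j, r (j + 1) ≤ r j - 1 / r j := by
    intro j
    have h1 := hrpos j
    rw [hrr]
    have h2 : (Lu n : ℝ) * r j - 2 ^ n ≤ r j ^ 2 - 1 := by nlinarith [sq_nonneg (2 * r j - Lu n)]
    have h3 : (Lu n : ℝ) - 2 ^ n / r j = ((Lu n : ℝ) * r j - 2 ^ n) / r j := by field_simp
    have h4 : r j - 1 / r j = (r j ^ 2 - 1) / r j := by field_simp
    rw [h3, h4]
    exact div_le_div_of_nonneg_right h2 h1.le
  have hdecr : ∀ j, r j ≤ r 0 - j * (1 / r 0) ∧ r j ≤ r 0 := by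
    intro j
    induction j with
    | zero => simp
    | succ j ih =>
      have h1 := hstep j
      have h2 := hrpos j
      have h3 : 1 / r 0 ≤ 1 / r j := one_div_le_one_div_of_le h2 ih.2
      have h4 : 0 < 1 / r 0 := one_div_pos.2 (hrpos 0)
      refine ⟨?_, by linarith [ih.2]⟩
      push_cast
      linarith [ih.1]
  obtain ⟨j, hj⟩ := exists_nat_gt (r 0 ^ 2)
  have h1 := (hdecr j).1
  have h2 := hrpos j
  have h3 := hrpos 0
  have h4 : r 0 < j * (1 / r 0) := by
    rw [mul_one_div, lt_div_iff₀ h3]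
    nlinarith
  linarith

/-! ### Linear recursions are eventually periodic mod 2 -/

theorem eventually_periodic (c : ℕ → ℤ) {d : ℕ} (a : Fin d → ℤ) (K : ℕ)
    (h : ∀ k, K ≤ k → c (k + d) = ∑ i : Fin d, a i * c (k + (i : ℕ))) :
    ∃ K' P : ℕ, ∀ k, K' ≤ k → (c (k + (P + 1)) : ZMod 2) = (c k : ZMod 2) := by
  -- states
  let X : ℕ → (Fin d → ZMod 2) := fun k i => (c (K + k + (i : ℕ)) : ZMod 2)
  have hX : ∀ k l, X k = X l → X (k + 1) = X (l + 1) := by
    intro k l hkl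
    have key : ∀ k, (c (K + k + d) : ZMod 2) = ∑ i : Fin d, (a i : ZMod 2) * X k i := by
      intro k
      rw [h (K + k) (by omega)]
      push_cast
      rfl
    funext i
    by_cases hi : (i : ℕ) + 1 < d
    · have h1 := congrFun hkl ⟨(i : ℕ) + 1, hi⟩
      show (c (K + (k + 1) + (i : ℕ)) : ZMod 2) = (c (K + (l + 1) + (i : ℕ)) : ZMod 2)
      have e : ∀ k, K + (k + 1) + (i : ℕ) = K + k + ((i : ℕ) + 1) := fun k => by ring
      rw [e, e]
      exact h1
    · have hid : (i : ℕ) + 1 = d := by omega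
      show (c (K + (k + 1) + (i : ℕ)) : ZMod 2) = (c (K + (l + 1) + (i : ℕ)) : ZMod 2)
      have e : ∀ k, K + (k + 1) + (i : ℕ) = K + k + d := fun k => by omega
      rw [e, e, key, key, hkl]
  obtain ⟨k, l, hne, hkl⟩ := Finite.exists_ne_map_eq_of_infinite X
  wlog hlt : k < l generalizing k l
  · exact this l k hne.symm hkl.symm (by omega)
  have hXn : ∀ n, X (k + n) = X (l + n) := by
    intro n
    induction n with
    | zero => exact hkl
    | succ n ih => exact hX _ _ ih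
  refine ⟨K + k + d, l - k - 1, fun m hm => ?_⟩
  obtain ⟨n, rfl⟩ := Nat.exists_eq_add_of_le hm
  have key : ∀ k, (c (K + k + d) : ZMod 2) = ∑ i : Fin d, (a i : ZMod 2) * X k i := by
    intro k
    rw [h (K + k) (by omega)]
    push_cast
    rfl
  have e1 : K + k + d + n + (l - k - 1 + 1) = K + (l + n) + d := by omega
  have e2 : K + k + d + n = K + (k + n) + d := by omega
  rw [e1, e2, key, key, hXn]

/-- The orders of the iterates of `f` satisfy no linear recursion with integer coefficients. -/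
theorem no_rec : ¬ ∃ (d : ℕ) (a : Fin d → ℤ) (K : ℕ), ∀ k : ℕ, K ≤ k →
    ((sInf {m : ℕ | iteratedFDeriv ℂ m (f^[k + d]) 0 ≠ 0} : ℕ) : ℤ) =
      ∑ i : Fin d, a i *
        ((sInf {m : ℕ | iteratedFDeriv ℂ m (f^[k + (i : ℕ)]) 0 ≠ 0} : ℕ) : ℤ) := by
  rintro ⟨d, a, K, h⟩
  set c : ℕ → ℤ := fun k => ((min (S k 0) (S k 1) : ℕ) : ℤ) with hc
  have h' : ∀ k, K ≤ k → c (k + d) = ∑ i : Fin d, a i * c (k + (i : ℕ)) := by
    intro k hk
    have := h k hk
    simp only [ord_eq'] at this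
    exact this
  obtain ⟨K', P, hper⟩ := eventually_periodic c a K h'
  -- parity determines the sign
  have hsign : ∀ k, (((c (k + 1) : ℤ) : ZMod 2) = 0 ↔ W (k + 1) < 0) := by
    intro k
    have h1 := S_zero_even k
    have h2 := S_one_odd (k + 1)
    rw [hc]
    simp only
    rw [Int.cast_natCast, ZMod.natCast_eq_zero_iff]
    unfold W
    rw [Nat.dvd_iff_mod_eq_zero]
    omega
  have hconst : ∀ j : ℕ, (W (K' + 1 + (P + 1) * j) < 0 ↔ W (K' + 1) < 0) := by
    intro j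
    induction j with
    | zero => simp
    | succ j ih =>
      rw [← ih]
      have e1 : K' + 1 + (P + 1) * (j + 1) = (K' + (P + 1) * j + (P + 1)) + 1 := by ring
      have e2 : K' + 1 + (P + 1) * j = (K' + (P + 1) * j) + 1 := by ring
      rw [e1, e2, ← hsign, ← hsign]
      have h1 := hper (K' + (P + 1) * j + 1) (by omega)
      have e3 : K' + (P + 1) * j + 1 + (P + 1) = K' + (P + 1) * j + (P + 1) + 1 := by ring
      rw [e3] at h1
      rw [h1]
  have hne : ∀ k, W (k + 1) ≠ 0 := by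
    intro k h0
    have := W_odd k
    rw [h0] at this
    norm_num at this
  by_cases hs : W (K' + 1) < 0
  · apply no_const_sign (-1) (K' + 1) P
    intro j
    have := (hconst j).2 hs
    linarith
  · apply no_const_sign 1 (K' + 1) P
    intro j
    have h1 : ¬ W (K' + 1 + (P + 1) * j) < 0 := fun h2 => hs ((hconst j).1 h2)
    have h2 : W (K' + 1 + (P + 1) * j) ≠ 0 := by
      have e2 : K' + 1 + (P + 1) * j = (K' + (P + 1) * j) + 1 := by ring
      rw [e2]; exact hne _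
    rw [one_mul]
    omega

/-! ### The germ is non-invertible and dominant -/

theorem f_hasFDerivAt (z : V) : ∃ D : V →L[ℂ] V, HasFDerivAt f D z ∧
    ∀ v, D v = ![2 * z 1 * v 1, v 2, 2 * z 0 * z 2 * v 0 + z 0 ^ 2 * v 2] := by
  have hp : ∀ i : Fin 3, HasFDerivAt (fun z : V => z i)
      (ContinuousLinearMap.proj (R := ℂ) (φ := fun _ : Fin 3 => ℂ) i) z :=
    fun i => (ContinuousLinearMap.proj (R := ℂ) (φ := fun _ : Fin 3 => ℂ) i).hasFDerivAt
  obtain ⟨D0, h0, e0⟩ : ∃ D : V →L[ℂ] ℂ, HasFDerivAt (fun z : V => f z 0) D z ∧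
      ∀ v, D v = 2 * z 1 * v 1 := ⟨_, (hp 1).pow 2, fun v => by simp⟩
  obtain ⟨D1, h1, e1⟩ : ∃ D : V →L[ℂ] ℂ, HasFDerivAt (fun z : V => f z 1) D z ∧
      ∀ v, D v = v 2 := ⟨_, hp 2, fun v => by simp⟩
  obtain ⟨D2, h2, e2⟩ : ∃ D : V →L[ℂ] ℂ, HasFDerivAt (fun z : V => f z 2) D z ∧
      ∀ v, D v = 2 * z 0 * z 2 * v 0 + z 0 ^ 2 * v 2 :=
    ⟨_, ((hp 0).pow 2).mul (hp 2), fun v => by simp; ring⟩
  refine ⟨ContinuousLinearMap.pi ![D0, D1, D2], hasFDerivAt_pi.2 (fun i => ?_), fun v => ?_⟩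
  · fin_cases i
    · exact h0
    · exact h1
    · exact h2
  · funext i
    fin_cases i
    · exact e0 v
    · exact e1 v
    · exact e2 v

theorem det_f (z : V) : (fderiv ℂ f z).det = 4 * z 0 * z 1 * z 2 := by
  obtain ⟨D, hD, hv⟩ := f_hasFDerivAt z
  rw [hD.fderiv]
  have h : (D : V →ₗ[ℂ] V) = Matrix.toLin' !![0, 2 * z 1, 0; 0, 0, 1; 2 * z 0 * z 2, 0, z 0 ^ 2] := by
    apply LinearMap.ext
    intro v
    show D v = _
    rw [hv, Matrix.toLin'_apply]
    funext i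
    fin_cases i <;> simp [Matrix.mulVec, dotProduct, Fin.sum_univ_three]
  show LinearMap.det (D : V →ₗ[ℂ] V) = _
  rw [h, LinearMap.det_toLin', Matrix.det_fin_three]
  simp
  ring

theorem dominant (ε : ℝ) (hε : 0 < ε) : ∃ z : V, ‖z‖ < ε ∧ (fderiv ℂ f z).det ≠ 0 := by
  refine ⟨fun _ => ((ε / 2 : ℝ) : ℂ), ?_, ?_⟩
  · rw [pi_norm_const, Complex.norm_real, Real.norm_eq_abs, abs_of_pos (by positivity)]
    linarith
  · rw [det_f]
    have : ((ε / 2 : ℝ) : ℂ) ≠ 0 := by
      rw [ne_eq, Complex.ofReal_eq_zero]; positivity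
    exact mul_ne_zero (mul_ne_zero (mul_ne_zero (by norm_num) this) this) this

theorem f_zero : f 0 = 0 := by
  funext i
  fin_cases i <;> simp [f]

end Pool.Agent.W735.OrdMono
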