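import Pool.Agent.Results.MP_eb1abe_an.NotHyperbolic

/-!
The homogeneous (cone) form of the counterexample of the starting file `NotHyperbolic`.
-/

set_option autoImplicit false

namespace Pool.Agent.W735.HypCone

open Pool.Agent.H703R2.SmallDiv Pool.Agent.H703R2.SiegelDom Pool.Agent.H703R2.FarPart
open Pool.Agent.Results.MP_eb1abe_an.NotHyperbolic

/-- The affine coordinates of `[z]`. -/
noncomputable def r (v : Fin 3 → ℂ) : E := (v 0 / v 2, v 1 / v 2)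

/-- The cone over a set in the affine chart. -/
def cone (K : Set E) : Set (Fin 3 → ℂ) := {v | v 2 ≠ 0 ∧ r v ∈ K}

theorem zero_notMem (K : Set E) : (0 : Fin 3 → ℂ) ∉ cone K := fun h => h.1 rfl

theorem r_smul (v : Fin 3 → ℂ) (t : ℂ) (ht : t ≠ 0) : r (t • v) = r v := by
  unfold r
  simp only [Pi.smul_apply, smul_eq_mul]
  rw [mul_div_mul_left _ _ ht, mul_div_mul_left _ _ ht]

theorem smul_mem (K : Set E) (v : Fin 3 → ℂ) (hv : v ∈ cone K) (t : ℂ) (ht : t ≠ 0) :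
    t • v ∈ cone K := by
  refine ⟨mul_ne_zero ht hv.1, ?_⟩
  rw [r_smul v t ht]; exact hv.2

theorem continuousAt_r {v : Fin 3 → ℂ} (hv : v 2 ≠ 0) : ContinuousAt r v := by
  unfold r
  refine ContinuousAt.prodMk ?_ ?_
  · exact (continuous_apply 0).continuousAt.div (continuous_apply 2).continuousAt hv
  · exact (continuous_apply 1).continuousAt.div (continuous_apply 2).continuousAt hv

theorem isOpen_cone {U : Set E} (hU : IsOpen U) : IsOpen (cone U) := by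
  rw [isOpen_iff_mem_nhds]
  intro v hv
  have h1 : {w : Fin 3 → ℂ | w 2 ≠ 0} ∈ nhds v :=
    (isOpen_ne_fun (continuous_apply 2) continuous_const).mem_nhds hv.1
  have h2 : r ⁻¹' U ∈ nhds v := (continuousAt_r hv.1).preimage_mem_nhds (hU.mem_nhds hv.2)
  filter_upwards [h1, h2] with w hw1 hw2
  exact ⟨hw1, hw2⟩

theorem isClosed_insert {K : Set E} (hK : IsCompact K) : IsClosed (insert 0 (cone K)) := by
  obtain ⟨B, hB⟩ := hK.isBounded.exists_norm_le
  apply isClosed_of_closure_subset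
  intro v hv
  obtain ⟨x, hx, hxv⟩ := mem_closure_iff_seq_limit.1 hv
  have hbd : ∀ n i, ‖x n i‖ ≤ (|B| + 1) * ‖x n 2‖ := by
    intro n i
    rcases hx n with h | h
    · rw [h]; simp
    · have h2 := hB _ h.2
      have hpos : 0 < ‖x n 2‖ := norm_pos_iff.2 h.1
      have h0 : ‖x n 0 / x n 2‖ ≤ |B| := (norm_fst_le _).trans (h2.trans (le_abs_self B))
      have h1 : ‖x n 1 / x n 2‖ ≤ |B| := (norm_snd_le _).trans (h2.trans (le_abs_self B))
      rw [_root_.norm_div, div_le_iff₀ hpos] at h0 h1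
      fin_cases i
      · show ‖x n 0‖ ≤ _; nlinarith
      · show ‖x n 1‖ ≤ _; nlinarith
      · show ‖x n 2‖ ≤ _; nlinarith [abs_nonneg B]
  have hlim : ∀ i, Filter.Tendsto (fun n => x n i) Filter.atTop (nhds (v i)) :=
    fun i => ((continuous_apply i).tendsto v).comp hxv
  have hbd' : ∀ i, ‖v i‖ ≤ (|B| + 1) * ‖v 2‖ := fun i =>
    le_of_tendsto_of_tendsto' (hlim i).norm (((hlim 2).norm).const_mul _) (fun n => hbd n i)
  by_cases h2 : v 2 = 0
  · left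
    funext i
    have := hbd' i
    rw [h2, norm_zero, mul_zero] at this
    exact norm_le_zero_iff.1 this
  · right
    refine ⟨h2, ?_⟩
    have h1 : ∀ᶠ n in Filter.atTop, x n 2 ≠ 0 := (hlim 2).eventually_ne h2
    refine hK.isClosed.mem_of_tendsto ((continuousAt_r h2).tendsto.comp hxv) ?_
    filter_upwards [h1] with n hn
    rcases hx n with h | h
    · exact absurd (by rw [h]; rfl) hn
    · exact h.2

theorem lift_two (v : Fin 3 → ℂ) : ex.lift v 2 = v 2 ^ 2 := by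
  rw [ex_lift]; rfl

theorem r_lift (v : Fin 3 → ℂ) (hv : v 2 ≠ 0) : r (ex.lift v) = f (r v) := by
  rw [ex_lift]
  unfold r f
  refine Prod.ext ?_ ?_
  · simp; field_simp
  · simp; field_simp

theorem lift_mem_iff {K : Set E} (hKf : f ⁻¹' K = K) (v : Fin 3 → ℂ) :
    ex.lift v ∈ cone K ↔ v ∈ cone K := by
  unfold cone
  simp only [Set.mem_ofPred_eq, lift_two]
  constructor
  · rintro ⟨h1, h2⟩
    have hv : v 2 ≠ 0 := fun h => h1 (by rw [h]; simp)
    rw [r_lift v hv] at h2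
    refine ⟨hv, ?_⟩
    rw [← hKf]; exact h2
  · rintro ⟨h1, h2⟩
    refine ⟨pow_ne_zero 2 h1, ?_⟩
    rw [r_lift v h1]
    rw [← hKf] at h2; exact h2

theorem det_eq (c : Fin 3 → ℂ) :
    Matrix.det (Matrix.of fun i j => MvPolynomial.eval c (MvPolynomial.pderiv j (exF i))) =
      2 * c 2 * ((1 / 500 : ℂ) * c 0 * c 1 - kap * c 2 ^ 2) := by
  rw [Matrix.det_fin_three]
  simp only [Matrix.of_apply, exF]
  simp [MvPolynomial.pderiv_X, Derivation.leibniz, Derivation.leibniz_pow]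
  ring

theorem back {V : Set E} (hV : ∀ v, f v ∈ V → v ∈ V) (n : ℕ) (c : Fin 3 → ℂ)
    (hc : (ex.lift^[n]) c ∈ cone V) : c ∈ cone V := by
  induction n generalizing c with
  | zero => exact hc
  | succ n ih =>
    rw [Function.iterate_succ_apply] at hc
    have h := ih _ hc
    have h2 : c 2 ≠ 0 := fun h0 => h.1 (by rw [lift_two, h0]; simp)
    refine ⟨h2, hV _ ?_⟩
    rw [← r_lift c h2]; exact h.2

theorem disj {V U K : Set E} (hU : IsOpen U) (hUV : U ⊆ V) (hKU : K ⊆ U)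
    (hV : ∀ v, f v ∈ V → v ∈ V) (hVc : ∀ v ∈ V, (1 / 500 : ℂ) * v.1 * v.2 ≠ kap) :
    Disjoint (cone K) (closure {w : Fin 3 → ℂ | ∃ n : ℕ, 1 ≤ n ∧ ∃ c : Fin 3 → ℂ, c ≠ 0 ∧
      Matrix.det (Matrix.of fun i j => MvPolynomial.eval c (MvPolynomial.pderiv j (exF i))) = 0 ∧
      w = (ex.lift^[n]) c}) := by
  rw [Set.disjoint_left]
  intro v hv hcl
  have hvU : v ∈ cone U := ⟨hv.1, hKU hv.2⟩
  obtain ⟨w, hw1, n, -, c, -, hdet, rfl⟩ := mem_closure_iff.1 hcl _ (isOpen_cone hU) hvU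
  have hcV : c ∈ cone V := back hV n c ⟨hw1.1, hUV hw1.2⟩
  rw [det_eq] at hdet
  have h2 := hcV.1
  have h3 : (1 / 500 : ℂ) * c 0 * c 1 - kap * c 2 ^ 2 = 0 := by
    rcases mul_eq_zero.1 hdet with h | h
    · exact absurd h (mul_ne_zero two_ne_zero h2)
    · exact h
  apply hVc _ hcV.2
  unfold r
  show (1 / 500 : ℂ) * (c 0 / c 2) * (c 1 / c 2) = kap
  field_simp
  linear_combination 500 * h3

theorem infDist_x0 (w : Fin 3 → ℂ) :
    Metric.infDist w (Set.range fun t : ℂ => t • x0) = max ‖w 0‖ ‖w 1‖ := by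
  apply le_antisymm
  · have hm : (w 2) • x0 ∈ Set.range fun t : ℂ => t • x0 := ⟨w 2, rfl⟩
    refine (Metric.infDist_le_dist_of_mem hm).trans ?_
    rw [dist_eq_norm]
    rw [pi_norm_le_iff_of_nonneg (le_max_of_le_left (norm_nonneg _))]
    intro i
    fin_cases i
    · simp [x0]
    · simp [x0]
    · simp [x0]
  · rw [Metric.le_infDist (Set.range_nonempty _)]
    rintro _ ⟨t, rfl⟩
    rw [dist_eq_norm]
    refine max_le ?_ ?_
    · have := norm_le_pi_norm (w - t • x0) 0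
      simpa [x0] using this
    · have := norm_le_pi_norm (w - t • x0) 1
      simpa [x0] using this

theorem norm_x0 : ‖x0‖ = 1 := by
  apply le_antisymm
  · rw [pi_norm_le_iff_of_nonneg zero_le_one]
    intro i
    fin_cases i <;> simp [x0]
  · have := norm_le_pi_norm x0 2
    simpa [x0] using this

theorem infDist_iter (m : ℕ) (w : Fin 3 → ℂ) :
    Metric.infDist (fderiv ℂ (ex.lift^[2 * m]) x0 w)
      (Set.range fun t : ℂ => t • (ex.lift^[2 * m]) x0) = max ‖w 0‖ ‖w 1‖ := by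
  rw [iter_lift_x0, infDist_x0, fderiv_iter]
  obtain ⟨s, hs⟩ := L_sq m w
  rw [hs]
  simp [x0, norm_pow, norm_kap]

theorem main : ∃ K : Set (Fin 3 → ℂ), (0 : Fin 3 → ℂ) ∉ K ∧
    (∀ v ∈ K, ∀ t : ℂ, t ≠ 0 → t • v ∈ K) ∧ IsClosed (insert (0 : Fin 3 → ℂ) K) ∧
    (∀ v : Fin 3 → ℂ, v ≠ 0 → (ex.lift v ∈ K ↔ v ∈ K)) ∧
    Disjoint K (closure {w : Fin 3 → ℂ | ∃ n : ℕ, 1 ≤ n ∧ ∃ c : Fin 3 → ℂ, c ≠ 0 ∧
      Matrix.det (Matrix.of fun i j => MvPolynomial.eval c (MvPolynomial.pderiv j (exF i))) = 0 ∧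
      w = (ex.lift^[n]) c}) ∧ x0 ∈ K := by
  obtain ⟨V, U, K, hU, hUV, hKU, hK, h0K, hKf, hV, hVc⟩ := affine_data
  refine ⟨cone K, zero_notMem K, smul_mem K, isClosed_insert hK,
    fun v _ => lift_mem_iff hKf v, disj hU hUV hKU hV hVc, ?_, ?_⟩
  · simp [x0]
  · have : r x0 = 0 := by simp [r, x0]
    rw [this]; exact h0K

theorem sub_of_exp {W : Submodule ℂ (Fin 3 → ℂ)} {c lam : ℝ} (hc : 0 < c) (hlam : 1 < lam)
    (h : ∀ n : ℕ, 1 ≤ n → ∀ w ∈ W,
      c * lam ^ n * (Metric.infDist w (Set.range fun t : ℂ => t • x0) / ‖x0‖) ≤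
        Metric.infDist (fderiv ℂ (ex.lift^[n]) x0 w) (Set.range fun t : ℂ => t • (ex.lift^[n]) x0) /
          ‖(ex.lift^[n]) x0‖) : ∀ w ∈ W, max ‖w 0‖ ‖w 1‖ ≤ 0 := by
  intro w hw
  by_contra hcon
  push Not at hcon
  have hbound : ∀ m : ℕ, c * (lam ^ 2) ^ (m + 1) ≤ 1 := by
    intro m
    have h1 := h (2 * (m + 1)) (by omega) w hw
    rw [infDist_iter, infDist_x0, iter_lift_x0, norm_x0, div_one, pow_mul] at h1
    have h2 : c * (lam ^ 2) ^ (m + 1) * max ‖w 0‖ ‖w 1‖ ≤ 1 * max ‖w 0‖ ‖w 1‖ := by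
      linarith
    exact le_of_mul_le_mul_right h2 hcon
  have hlam2 : 1 < lam ^ 2 := by nlinarith
  obtain ⟨m, hm⟩ := pow_unbounded_of_one_lt (1 / c) hlam2
  have h3 : (lam ^ 2) ^ m ≤ (lam ^ 2) ^ (m + 1) := pow_le_pow_right₀ hlam2.le (by omega)
  have h4 := hbound m
  rw [div_lt_iff₀ hc] at hm
  nlinarith

theorem sub_of_contr {W : Submodule ℂ (Fin 3 → ℂ)} {C mu : ℝ} (hC : 0 < C) (hmu1 : mu < 1)
    (h : ∀ n : ℕ, 1 ≤ n → ∀ w ∈ W,
        Metric.infDist (fderiv ℂ (ex.lift^[n]) x0 w) (Set.range fun t : ℂ => t • (ex.lift^[n]) x0) /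
          ‖(ex.lift^[n]) x0‖ ≤
      C * mu ^ n * (Metric.infDist w (Set.range fun t : ℂ => t • x0) / ‖x0‖)) :
    ∀ w ∈ W, max ‖w 0‖ ‖w 1‖ ≤ 0 := by
  intro w hw
  by_contra hcon
  push Not at hcon
  have hbound : ∀ m : ℕ, 1 ≤ C * (mu ^ 2) ^ (m + 1) := by
    intro m
    have h1 := h (2 * (m + 1)) (by omega) w hw
    rw [infDist_iter, infDist_x0, iter_lift_x0, norm_x0, div_one, pow_mul] at h1
    have h2 : 1 * max ‖w 0‖ ‖w 1‖ ≤ C * (mu ^ 2) ^ (m + 1) * max ‖w 0‖ ‖w 1‖ := by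
      linarith
    exact le_of_mul_le_mul_right h2 hcon
  have hmu0 : 0 ≤ mu := by
    have h1 := h 1 le_rfl w hw
    rw [infDist_x0, norm_x0, div_one, pow_one] at h1
    have h2 : 0 ≤ C * mu * max ‖w 0‖ ‖w 1‖ :=
      le_trans (div_nonneg Metric.infDist_nonneg (norm_nonneg _)) h1
    by_contra hneg
    push Not at hneg
    have h3 : C * mu < 0 := by nlinarith
    nlinarith
  have hmu2 : mu ^ 2 < 1 := by nlinarith
  obtain ⟨m, hm⟩ := exists_pow_lt_of_lt_one (show (0:ℝ) < 1 / C by positivity) hmu2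
  have h3 : (mu ^ 2) ^ (m + 1) ≤ (mu ^ 2) ^ m :=
    pow_le_pow_of_le_one (by positivity) hmu2.le (by omega)
  have h4 := hbound m
  rw [lt_div_iff₀ hC] at hm
  nlinarith

end Pool.Agent.W735.HypCone
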