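import Mathlib

/-!
An elliptic Möbius transformation of infinite order acts ergodically on the line.
-/

set_option autoImplicit false
set_option linter.unusedVariables false

open scoped Topology
open MeasureTheory Filter Real

namespace Pool.W735.Dx

noncomputable section

/-- the parametrisation of the projective line by the circle. -/
def X0 (α θ : ℝ) : ℝ := cos (θ - α) / cos θ

lemma X0_per (α : ℝ) : Function.Periodic (X0 α) π := by
  intro θ
  unfold X0
  have : θ + π - α = (θ - α) + π := by ring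
  rw [this, cos_add_pi, cos_add_pi, neg_div_neg_eq]

lemma X0_tan (α θ : ℝ) (h : cos θ ≠ 0) : X0 α θ = cos α + sin α * tan θ := by
  unfold X0
  rw [tan_eq_sin_div_cos, cos_sub]
  field_simp

lemma X0_add (α θ : ℝ) (h : cos θ ≠ 0) : 1 / (2 * cos α - X0 α θ) = X0 α (θ + α) := by
  unfold X0
  have h1 : 2 * cos α - cos (θ - α) / cos θ = cos (θ + α) / cos θ := by
    rw [cos_sub, cos_add]
    field_simp
    ring
  rw [h1, add_sub_cancel_right, one_div_div]

instance factPi : Fact (0 < π) := ⟨pi_pos⟩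

/-- the parametrisation, on the circle. -/
def XX (α : ℝ) : AddCircle π → ℝ := (X0_per α).lift

lemma XX_coe (α θ : ℝ) : XX α (θ : AddCircle π) = X0 α θ := Function.Periodic.lift_coe _ _

lemma X0_meas (α : ℝ) : Measurable (X0 α) := by
  unfold X0
  fun_prop

lemma XX_meas (α : ℝ) : Measurable (XX α) := by
  have h1 : XX α = ((X0 α) ∘ Subtype.val) ∘ (AddCircle.measurableEquivIoc π (-(π / 2))) := by
    funext θ
    obtain ⟨y, rfl⟩ := (AddCircle.measurableEquivIoc π (-(π / 2))).symm.surjective θ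
    rw [Function.comp_apply, MeasurableEquiv.apply_symm_apply]
    exact XX_coe α y
  rw [h1]
  exact ((X0_meas α).comp measurable_subtype_coe).comp (MeasurableEquiv.measurable _)

/-- the covering map. -/
lemma mp_mk : MeasurePreserving (β := AddCircle π) ((↑) : ℝ → AddCircle π)
      (volume.restrict (Set.Ioc (-(π / 2)) (π / 2))) volume := by
  have := AddCircle.measurePreserving_mk π (-(π / 2))
  have h : -(π / 2) + π = π / 2 := by ring
  rwa [h] at this

lemma cos_ne {θ : ℝ} (h : θ ∈ Set.Ioo (-(π / 2)) (π / 2)) : cos θ ≠ 0 := (cos_pos_of_mem_Ioo h).ne'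

lemma XX_qmp (α : ℝ) (hα : sin α ≠ 0) :
    Measure.QuasiMeasurePreserving (XX α) volume volume := by
  refine ⟨XX_meas α, Measure.AbsolutelyContinuous.mk ?_⟩
  intro N hN hN0
  rw [Measure.map_apply (XX_meas α) hN, ← mp_mk.map_eq,
    Measure.map_apply mp_mk.measurable ((XX_meas α) hN)]
  rw [Measure.restrict_apply (mp_mk.measurable ((XX_meas α) hN))]
  have h1 : volume ((fun x : ℝ => arctan ((x - cos α) / sin α)) '' N) = 0 := by
    apply addHaar_image_eq_zero_of_differentiableOn_of_addHaar_eq_zero _ _ hN0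
    apply Differentiable.differentiableOn
    exact Real.differentiable_arctan.comp (by fun_prop)
  apply measure_mono_null _ (measure_union_null h1 (measure_singleton (μ := volume) (π / 2)))
  rintro θ ⟨hθ1, hθ2⟩
  by_cases h : θ = π / 2
  · right
    exact h
  · left
    have h2 : θ ∈ Set.Ioo (-(π / 2)) (π / 2) := ⟨hθ2.1, lt_of_le_of_ne hθ2.2 h⟩
    have h3 : X0 α θ ∈ N := by
      have : XX α (θ : AddCircle π) ∈ N := hθ1
      rwa [XX_coe] at this
    refine ⟨X0 α θ, h3, ?_⟩
    show arctan ((X0 α θ - cos α) / sin α) = θ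
    rw [X0_tan α θ (cos_ne h2), add_sub_cancel_left, mul_div_cancel_left₀ _ hα,
      arctan_tan h2.1 h2.2]

/-- ergodicity of an elliptic transformation of infinite order. -/
theorem ell_ergodic (α : ℝ) (hα : sin α ≠ 0)
    (hirr : ∀ n : ℕ, 0 < n → ∀ m : ℤ, n * α ≠ m * π) (F : ℝ → ℂ)
    (hF : AEStronglyMeasurable F volume)
    (hinv : ∀ᵐ x : ℝ, F (1 / (2 * cos α - x)) = F x) : ∃ q : ℂ, ∀ᵐ x : ℝ, F x = q := by
  have hord : addOrderOf ((α : ℝ) : AddCircle π) = 0 := by
    rw [addOrderOf_eq_zero_iff']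
    intro n hn h0
    have h1 : (((n * α : ℝ)) : AddCircle π) = 0 := by
      rw [← h0]
      rw [← nsmul_eq_mul]
      rfl
    rw [AddCircle.coe_eq_zero_iff] at h1
    obtain ⟨m, hm⟩ := h1
    apply hirr n hn m
    rw [← hm]
    simp
  have herg := (AddCircle.ergodic_add_right (p := π) (a := ((α : ℝ) : AddCircle π))).2 hord
  have hG : AEStronglyMeasurable (F ∘ XX α) volume :=
    hF.comp_quasiMeasurePreserving (XX_qmp α hα)
  have h1 : ∀ᵐ θ : AddCircle π, 1 / (2 * cos α - XX α θ) = XX α (θ + ((α : ℝ) : AddCircle π)) := by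
    have hms : MeasurableSet {θ : AddCircle π | 1 / (2 * cos α - XX α θ) =
        XX α (θ + ((α : ℝ) : AddCircle π))} := by
      apply measurableSet_eq_fun
      · exact ((measurable_const.sub (XX_meas α)).const_div 1)
      · exact (XX_meas α).comp (measurable_add_const _)
    rw [← mp_mk.map_eq]
    rw [ae_map_iff mp_mk.measurable.aemeasurable hms]
    rw [ae_restrict_iff' measurableSet_Ioc]
    have h2 : ∀ᵐ θ : ℝ, θ ≠ π / 2 := by
      rw [ae_iff]
      simp
    filter_upwards [h2] with θ hθ hθ2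
    have h3 : θ ∈ Set.Ioo (-(π / 2)) (π / 2) := ⟨hθ2.1, lt_of_le_of_ne hθ2.2 hθ⟩
    have h4 : ((θ : AddCircle π) + ((α : ℝ) : AddCircle π)) = ((θ + α : ℝ) : AddCircle π) := rfl
    rw [h4, XX_coe, XX_coe]
    exact X0_add α θ (cos_ne h3)
  have h2 : (F ∘ XX α) ∘ (fun θ : AddCircle π => θ + ((α : ℝ) : AddCircle π)) =ᵐ[volume]
      F ∘ XX α := by
    filter_upwards [h1, (XX_qmp α hα).ae hinv] with θ h3 h4
    rw [Function.comp_apply, Function.comp_apply, Function.comp_apply, ← h3, h4]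
  obtain ⟨q, hq⟩ := herg.ae_eq_const_of_ae_eq_comp_ae hG h2
  refine ⟨q, ?_⟩
  have h5 : ∀ᵐ θ : ℝ ∂(volume.restrict (Set.Ioc (-(π / 2)) (π / 2))), F (X0 α θ) = q := by
    have := mp_mk.quasiMeasurePreserving.ae hq
    filter_upwards [this] with θ hθ
    rw [Function.comp_apply, XX_coe] at hθ
    exact hθ
  have h6 : volume ({θ : ℝ | F (X0 α θ) ≠ q} ∩ Set.Ioo (-(π / 2)) (π / 2)) = 0 := by
    rw [ae_restrict_iff' measurableSet_Ioc, ae_iff] at h5
    apply measure_mono_null _ h5
    rintro θ ⟨hθ1, hθ2⟩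
    intro hh
    exact hθ1 (hh ⟨hθ2.1, hθ2.2.le⟩)
  have h7 : volume ((fun θ => X0 α θ) '' ({θ : ℝ | F (X0 α θ) ≠ q} ∩
      Set.Ioo (-(π / 2)) (π / 2))) = 0 := by
    apply addHaar_image_eq_zero_of_differentiableOn_of_addHaar_eq_zero _ _ h6
    intro θ hθ
    apply DifferentiableAt.differentiableWithinAt
    unfold X0
    exact DifferentiableAt.div (by fun_prop) (by fun_prop) (cos_ne hθ.2)
  rw [ae_iff]
  apply measure_mono_null _ h7
  intro x hx
  refine ⟨arctan ((x - cos α) / sin α), ?_, ?_⟩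
  · refine ⟨?_, arctan_mem_Ioo _⟩
    show F (X0 α _) ≠ q
    rw [X0_tan _ _ (cos_ne (arctan_mem_Ioo _)), tan_arctan, mul_div_cancel₀ _ hα]
    rw [add_sub_cancel]
    exact hx
  · show X0 α _ = x
    rw [X0_tan _ _ (cos_ne (arctan_mem_Ioo _)), tan_arctan, mul_div_cancel₀ _ hα]
    rw [add_sub_cancel]

end

end Pool.W735.Dx
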