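import Pool.Agent.W735.DxLoc
import Pool.Agent.W735.DxErg

/-!
The transport of the commutant along germs.
-/

set_option autoImplicit false
set_option linter.unusedVariables false
set_option linter.unusedSectionVars false

open scoped Topology InnerProductSpace
open MeasureTheory Filter

namespace Pool.W735.Dx

noncomputable section

section bset

variable {Λ : Subgroup (Equiv.Perm (OnePoint ℝ))}

/-- sets generated by the supports of bumps. -/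
inductive BSet (G : Subgroup (PM Λ)) : Set ℝ → Prop
  | bump (h : PM Λ) (hh : h ∈ G) (a b : ℝ) (hab : a < b)
      (hfix : ∀ x, x ∉ Set.Ioo a b → (h : ℝ ≃o ℝ) x = x)
      (hup : ∀ x ∈ Set.Ioo a b, x < (h : ℝ ≃o ℝ) x) : BSet G (Set.Ioo a b)
  | compl (B : Set ℝ) : BSet G B → BSet G Bᶜ
  | inter (B B' : Set ℝ) : BSet G B → BSet G B' → BSet G (B ∩ B')
  | null (B : Set ℝ) (hB : MeasurableSet B) (h0 : volume B = 0) : BSet G B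

end bset

section w0

variable {Λ : Subgroup (Equiv.Perm (OnePoint ℝ))} (hΛ : Λ ≤ (mobHom ℝ).range)

/-- the scalar version. -/
def W0 (k : PM Λ) : LL2 ℂ →L[ℂ] LL2 ℂ :=
  W hΛ (1 : Λ →* (ℂ →L[ℂ] ℂ)) 1 zero_le_one (fun γ v => by simp) k

lemma W0_coe (k : PM Λ) (f : LL2 ℂ) : (W0 hΛ k f : ℝ → ℂ) =ᵐ[volume] fun x =>
    ((Real.sqrt (deriv (k : ℝ ≃o ℝ) x) : ℝ) : ℂ) * f ((k : ℝ ≃o ℝ) x) := by
  refine (W_coe hΛ (1 : Λ →* (ℂ →L[ℂ] ℂ)) 1 zero_le_one (fun γ v => by simp) k f).trans ?_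
  refine Eventually.of_forall fun x => ?_
  simp [wf]

lemma W0_inv (k : PM Λ) (f : LL2 ℂ) : W0 hΛ k (W0 hΛ k⁻¹ f) = f := by
  have h := W_mul hΛ (1 : Λ →* (ℂ →L[ℂ] ℂ)) 1 zero_le_one (fun γ v => by simp) k⁻¹ k
  rw [inv_mul_cancel, W_one] at h
  have h2 := congrArg (fun L => L f) h
  exact h2.symm

lemma W0_norm (k : PM Λ) (f : LL2 ℂ) : ‖W0 hΛ k f‖ = ‖f‖ := by
  have h1 : ∀ (k : PM Λ) (f : LL2 ℂ), ‖W0 hΛ k f‖ ≤ ‖f‖ := by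
    intro k f
    have := W_norm hΛ (1 : Λ →* (ℂ →L[ℂ] ℂ)) 1 zero_le_one (fun γ v => by simp) k f
    rwa [one_mul] at this
  apply le_antisymm (h1 k f)
  have h2 := W0_inv hΛ k⁻¹ f
  rw [inv_inv] at h2
  calc ‖f‖ = ‖W0 hΛ k⁻¹ (W0 hΛ k f)‖ := by rw [h2]
    _ ≤ ‖W0 hΛ k f‖ := h1 _ _

lemma W0_inner (k : PM Λ) (f g : LL2 ℂ) : ⟪W0 hΛ k f, W0 hΛ k g⟫_ℂ = ⟪f, g⟫_ℂ := by
  let L : LL2 ℂ →ₗᵢ[ℂ] LL2 ℂ := ⟨(W0 hΛ k : LL2 ℂ →ₗ[ℂ] LL2 ℂ), W0_norm hΛ k⟩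
  exact L.inner_map_map f g

end w0

section core

variable {Λ : Subgroup (Equiv.Perm (OnePoint ℝ))} (hΛ : Λ ≤ (mobHom ℝ).range)
  {K : Type*} [NormedAddCommGroup K] [InnerProductSpace ℂ K] [CompleteSpace K]
  (ρ : Λ →* (K →L[ℂ] K))
  (C : ℝ) (hC : 0 ≤ C) (hρ : ∀ γ v, ‖ρ γ v‖ ≤ C * ‖v‖)
  {T : LL2 K →L[ℂ] LL2 K} (hsa : ∀ f g, ⟪f, T g⟫_ℂ = ⟪T f, g⟫_ℂ)
  (G : Subgroup (PM Λ))
  (hT : ∀ k ∈ G, ∀ f g, ⟪W hΛ ρ C hC hρ k f, T (W hΛ ρ C hC hρ k g)⟫_ℂ = ⟪f, T g⟫_ℂ)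
include hΛ hC hρ

lemma germSet_open (γ : Λ) (k : PM Λ) :
    IsOpen {x : ℝ | IsGerm (γ : Equiv.Perm (OnePoint ℝ)) (k : ℝ ≃o ℝ) x} := by
  rw [isOpen_iff_mem_nhds]
  intro x hx
  exact IsGerm.eventually hx

/-- transport of elementary tensors supported where the germ is `γ⁻¹`. -/
lemma W_tens (k : PM Λ) (γ : Λ) (B : Set ℝ) (hB : MeasurableSet B)
    (hgerm : ∀ x ∈ B, IsGerm ((γ⁻¹ : Λ) : Equiv.Perm (OnePoint ℝ)) (k : ℝ ≃o ℝ) x)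
    (v : K) (f : LL2 ℂ) (hf : Ei B hB (W0 hΛ k f) = W0 hΛ k f) :
    W hΛ ρ C hC hρ k (tens v f) = tens (ρ γ v) (W0 hΛ k f) := by
  apply Lp.ext
  refine (W_coe hΛ ρ C hC hρ k _).trans ?_
  refine (wf_congr hΛ ρ k (tens_coe v f)).trans ?_
  refine EventuallyEq.symm ((tens_coe _ _).trans ?_)
  have h0 : (Ei B hB (W0 hΛ k f) : ℝ → ℂ) =ᵐ[volume] W0 hΛ k f := by rw [hf]
  filter_upwards [W0_coe hΛ k f, Ei_coe B hB (W0 hΛ k f), h0] with x h1 h2 h3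
  unfold wf
  rw [map_smul, smul_smul, ← h1]
  by_cases hx : x ∈ B
  · rw [germ_eq hΛ (hgerm x hx), inv_inv]
  · have h4 : (W0 hΛ k f : ℝ → ℂ) x = 0 := by
      rw [← h3, h2, Set.indicator_of_notMem hx]
    rw [h4, zero_smul, zero_smul]

include hsa hT

lemma BSet.good {B : Set ℝ} (h : BSet G B) : MeasurableSet B ∧ Good T B := by
  induction h with
  | bump h hh a b hab hfix hup =>
    exact ⟨measurableSet_Ioo, bump_good hΛ ρ C hC hρ hsa G hT h hh hab hfix hup⟩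
  | compl B _ ih => exact ⟨ih.1.compl, ih.2.compl hsa ih.1⟩
  | inter B B' _ _ ih ih' => exact ⟨ih.1.inter ih'.1, ih.2.inter hsa ih.1 ih'.1 ih'.2⟩
  | null B hB h0 => exact ⟨hB, good_null h0⟩

theorem all_good (hden : ∀ x : ℝ, ∀ ε > 0, ∃ U : Set ℝ, IsOpen U ∧ BSet G U ∧ x ∈ U ∧
    U ⊆ Set.Ioo (x - ε) (x + ε)) (B : Set ℝ) (hB : MeasurableSet B) : Good T B := by
  apply good_all hsa _ B hB
  intro x ε hε
  obtain ⟨U, h1, h2, h3, h4⟩ := hden x ε hε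
  exact ⟨U, h1, (BSet.good hΛ ρ C hC hρ hsa G hT h2).2, h3, h4⟩

variable (hall : ∀ (B : Set ℝ) (hB : MeasurableSet B), Good T B)
include hall

/-- the coefficient `f ↦ (tens w)^* T (tens v) f`. -/
def coef (T : LL2 K →L[ℂ] LL2 K) (w v : K) : LL2 ℂ →L[ℂ] LL2 ℂ :=
  ContinuousLinearMap.adjoint (tens w) ∘L T ∘L tens v

omit hΛ hC hρ hsa hT hall in
lemma coef_inner (w v : K) (g f : LL2 ℂ) :
    ⟪g, coef T w v f⟫_ℂ = ⟪tens w g, T (tens v f)⟫_ℂ := by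
  unfold coef
  rw [ContinuousLinearMap.comp_apply, ContinuousLinearMap.adjoint_inner_right]
  rfl

omit hΛ hC hρ hT in
lemma coef_Ei (w v : K) (B : Set ℝ) (hB : MeasurableSet B) (f : LL2 ℂ) :
    coef T w v (Ei B hB f) = Ei B hB (coef T w v f) := by
  apply ext_inner_left ℂ
  intro g
  rw [coef_inner, ← inner_Ei_comm, coef_inner, ← Ei_tens, (hall B hB).comm hsa hB, ← Ei_tens,
    inner_Ei_comm]

/-- invariance of the coefficient under the transport by `k` over the set where the germ of `k` is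
`c⁻¹`, where `c` fixes the vectors. -/
lemma coef_transport (k : PM Λ) (hk : k ∈ G) (c : Λ) (v w : K) (hv : ρ c v = v) (hw : ρ c w = w)
    (B : Set ℝ) (hB : MeasurableSet B)
    (hgerm : ∀ x ∈ B, IsGerm ((c⁻¹ : Λ) : Equiv.Perm (OnePoint ℝ)) (k : ℝ ≃o ℝ) x)
    (φ : LL2 ℂ) (hφ : Ei B hB (W0 hΛ k φ) = Ei B hB φ) :
    Ei B hB (coef T w v φ) = Ei B hB (W0 hΛ k (coef T w v φ)) := by
  apply ext_inner_left ℂ
  intro g
  rw [← inner_Ei_comm, coef_inner]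
  set g' := W0 hΛ k⁻¹ (Ei B hB g) with hg'
  have h1 : W0 hΛ k g' = Ei B hB g := W0_inv hΛ k _
  have h2 : W hΛ ρ C hC hρ k (tens w g') = tens w (Ei B hB g) := by
    rw [W_tens hΛ ρ C hC hρ k c B hB hgerm w g' (by rw [h1, Ei_idem]), hw, h1]
  have h3 : Ei B hB (tens v φ) = Ei B hB (W hΛ ρ C hC hρ k (tens v φ)) := by
    apply Lp.ext
    have h0 : (Ei B hB (W0 hΛ k φ) : ℝ → ℂ) =ᵐ[volume] Ei B hB φ := by rw [hφ]
    filter_upwards [Ei_coe B hB (tens v φ), Ei_coe B hB (W hΛ ρ C hC hρ k (tens v φ)),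
      W_coe hΛ ρ C hC hρ k (tens v φ), wf_congr hΛ ρ k (tens_coe v φ), tens_coe v φ,
      Ei_coe B hB (W0 hΛ k φ), Ei_coe B hB φ, W0_coe hΛ k φ, h0] with x a1 a2 a3 a4 a5 a6 a7 a8 a9
    rw [a1, a2]
    by_cases hx : x ∈ B
    · rw [Set.indicator_of_mem hx, Set.indicator_of_mem hx, a5, a3, a4]
      rw [a6, a7, Set.indicator_of_mem hx, Set.indicator_of_mem hx, a8] at a9
      unfold wf
      rw [map_smul, smul_smul, a9, germ_eq hΛ (hgerm x hx), inv_inv, hv]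
    · rw [Set.indicator_of_notMem hx, Set.indicator_of_notMem hx]
  have h4 : ∀ F : LL2 K, ⟪tens w (Ei B hB g), T F⟫_ℂ = ⟪tens w (Ei B hB g), T (Ei B hB F)⟫_ℂ := by
    intro F
    have h5 : Ei B hB (tens w (Ei B hB g)) = tens w (Ei B hB g) := by rw [Ei_tens, Ei_idem]
    rw [(hall B hB).comm hsa hB, ← inner_Ei_comm, h5]
  rw [h4, h3, ← h4, ← h2, hT k hk, ← coef_inner, ← W0_inner hΛ k, h1, inner_Ei_comm]


/-- the invariance under a general germ realised somewhere. -/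
lemma coef_move (k : PM Λ) (hk : k ∈ G) (γ : Λ) (v w : K) (B : Set ℝ) (hB : MeasurableSet B)
    (hgerm : ∀ x ∈ B, IsGerm ((γ⁻¹ : Λ) : Equiv.Perm (OnePoint ℝ)) (k : ℝ ≃o ℝ) x)
    (u : LL2 ℂ) (hu : Ei B hB u ≠ 0) (Q : K → K → ℂ)
    (hQ1 : ∀ f g, ⟪tens w g, T (tens v f)⟫_ℂ = Q w v * ⟪g, f⟫_ℂ)
    (hQ2 : ∀ f g, ⟪tens (ρ γ w) g, T (tens (ρ γ v) f)⟫_ℂ = Q (ρ γ w) (ρ γ v) * ⟪g, f⟫_ℂ) :
    Q (ρ γ w) (ρ γ v) = Q w v := by
  set g' := W0 hΛ k⁻¹ (Ei B hB u) with hg'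
  have h1 : W0 hΛ k g' = Ei B hB u := W0_inv hΛ k _
  have h2 : ∀ w : K, W hΛ ρ C hC hρ k (tens w g') = tens (ρ γ w) (Ei B hB u) := by
    intro w
    rw [W_tens hΛ ρ C hC hρ k γ B hB hgerm w g' (by rw [h1, Ei_idem]), h1]
  have h3 := hQ1 g' g'
  rw [← hT k hk, h2, h2, hQ2, ← W0_inner hΛ k g' g', h1] at h3
  have h4 : ⟪Ei B hB u, Ei B hB u⟫_ℂ ≠ 0 := by
    rw [inner_self_ne_zero]
    exact hu
  exact mul_right_cancel₀ h4 h3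

end core

end

end Pool.W735.Dx
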