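import Pool.Agent.W735.DxLp

/-!
A uniformly bounded representation of the free group on countably many generators built from the
parent map of its Cayley tree.
-/

set_option autoImplicit false
set_option linter.unusedVariables false

open scoped ENNReal

namespace Pool.W735.Dx

noncomputable section

open Classical in
/-- partial injections act on `ℓ²`. -/
theorem pinj_exists {ι : Type*} [DecidableEq ι] {E : Type*} [NormedAddCommGroup E]
    [NormedSpace ℂ E] (p : ι → Option ι) (hp : ∀ a b c, p a = some c → p b = some c → a = b) :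
    ∃ V : lp (fun _ : ι => E) 2 →L[ℂ] lp (fun _ : ι => E) 2, (∀ φ, ‖V φ‖ ≤ ‖φ‖) ∧
      ∀ i (x : E), V (lp.single 2 i x) = (p i).elim 0 (fun j => lp.single 2 j x) := by
  let e : ι → Option ι := fun z => if h : ∃ y, p y = some z then some h.choose else none
  have he1 : ∀ z y, e z = some y → p y = some z := by
    intro z y hzy
    by_cases h : ∃ y, p y = some z
    · have : e z = some h.choose := dif_pos h
      rw [this] at hzy
      rw [← Option.some.inj hzy]
      exact h.choose_spec
    · have : e z = none := dif_neg h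
      rw [this] at hzy
      exact absurd hzy (by simp)
  have he2 : ∀ z y, p y = some z → e z = some y := by
    intro z y hzy
    have h : ∃ y, p y = some z := ⟨y, hzy⟩
    have : e z = some h.choose := dif_pos h
    rw [this, hp _ _ _ h.choose_spec hzy]
  obtain ⟨V, hV1, hV2⟩ := pop_exists (E := E) e (by
    intro a b c ha hb
    have h1 := he1 _ _ ha
    have h2 := he1 _ _ hb
    rw [h1] at h2
    exact Option.some.inj h2) (fun _ => ContinuousLinearMap.id ℂ E) 1 zero_le_one (by simp)
  refine ⟨V, by simpa using hV1, ?_⟩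
  intro i x
  apply lp.ext
  funext b
  rw [hV2]
  rcases hpi : p i with _ | j
  · simp only [Option.elim_none, lp.coeFn_zero, Pi.zero_apply]
    rcases heb : e b with _ | a
    · simp
    · simp only [Option.elim_some, ContinuousLinearMap.id_apply]
      have h1 := he1 _ _ heb
      have h2 : a ≠ i := by
        rintro rfl
        rw [hpi] at h1
        exact absurd h1 (by simp)
      exact lp.single_apply_ne (E := fun _ : ι => E) 2 i x h2
  · simp only [Option.elim_some]
    by_cases hbj : b = j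
    · subst hbj
      rw [he2 _ _ hpi]
      simp
    · rw [lp.single_apply_ne (E := fun _ : ι => E) 2 j x hbj]
      rcases heb : e b with _ | a
      · simp
      · simp only [Option.elim_some, ContinuousLinearMap.id_apply]
        have h1 := he1 _ _ heb
        have h2 : a ≠ i := by
          rintro rfl
          rw [hpi] at h1
          exact hbj (Option.some.inj h1).symm
        exact lp.single_apply_ne (E := fun _ : ι => E) 2 i x h2

/-- the free group. -/
abbrev FG : Type := FreeGroup ℕ

/-- a letter as an element. -/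
def le (x : ℕ × Bool) : FG := FreeGroup.mk [x]

/-- first letter of the reduced word. -/
def hd (u : FG) : Option (ℕ × Bool) := u.toWord.head?

lemma hd_mul (x : ℕ × Bool) (u : FG) (h : hd (le x * u) ≠ some x) : hd u = some (x.1, !x.2) := by
  unfold hd at *
  have h1 : (le x * u).toWord = FreeGroup.reduce (x :: u.toWord) := by
    rw [FreeGroup.toWord_mul]
    unfold le
    rw [FreeGroup.toWord_mk]
    rfl
  rw [h1, FreeGroup.reduce.cons, FreeGroup.reduce_toWord] at h
  rcases hu : u.toWord with _ | ⟨y, l⟩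
  · rw [hu] at h
    simp at h
  · rw [hu] at h
    simp only [List.head?_cons] at h ⊢
    by_cases hxy : x.1 = y.1 ∧ x.2 = !y.2
    · obtain ⟨h3, h4⟩ := hxy
      congr 1
      rw [h3, h4]
      simp
    · simp only [if_neg hxy] at h
      simp at h

lemma hd_one : hd 1 = none := by
  simp [hd]

/-- index set. -/
abbrev IX : Type := FG × Bool

open Classical in
/-- the partial injection. -/
def pp (r r' : FG) : IX → Option IX := fun y =>
  if y.2 = true ∧ hd (y.1⁻¹ * r) ≠ hd (y.1⁻¹ * r') then
    (hd (y.1⁻¹ * r)).map (fun x => (y.1 * le x, false)) else none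

lemma pp_inj (r r' : FG) (a b c : IX) (ha : pp r r' a = some c) (hb : pp r r' b = some c) :
    a = b := by
  unfold pp at ha hb
  split_ifs at ha with ha1
  split_ifs at hb with hb1
  rw [Option.map_eq_some_iff] at ha hb
  obtain ⟨x, hx1, hx2⟩ := ha
  obtain ⟨y, hy1, hy2⟩ := hb
  have key : ∀ (a : IX) (x : ℕ × Bool), hd (a.1⁻¹ * r) ≠ hd (a.1⁻¹ * r') →
      hd (a.1⁻¹ * r) = some x → (a.1 * le x, false) = c →
      hd (c.1⁻¹ * r') = some (x.1, !x.2) := by
    intro a x h1 h2 h3
    apply hd_mul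
    have h4 : le x * (c.1⁻¹ * r') = a.1⁻¹ * r' := by
      rw [← h3]
      simp [mul_assoc]
    rw [h4, ← h2]
    exact fun h => h1 h.symm
  have k1 := key a x ha1.2 hx1 hx2
  have k2 := key b y hb1.2 hy1 hy2
  rw [k1] at k2
  have k3 : x = y := by
    have := Option.some.inj k2
    rw [Prod.mk.injEq] at this
    exact Prod.ext this.1 (by simpa using this.2)
  subst k3
  have h5 : a.1 = b.1 := by
    have := hx2.trans hy2.symm
    rw [Prod.mk.injEq] at this
    exact mul_right_cancel this.1
  exact Prod.ext h5 (ha1.1.trans hb1.1.symm)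

/-- the Hilbert space. -/
abbrev K0 : Type := lp (fun _ : IX => ℂ) 2

/-- basis vectors. -/
def δ (y : IX) : K0 := lp.single 2 y (1 : ℂ)

lemma VV_ex (r r' : FG) : ∃ V : K0 →L[ℂ] K0, (∀ φ, ‖V φ‖ ≤ ‖φ‖) ∧
      ∀ i (x : ℂ), V (lp.single 2 i x) = (pp r r' i).elim 0 (fun j => lp.single 2 j x) :=
  pinj_exists (pp r r') (pp_inj r r')

/-- the operators. -/
def VV (r r' : FG) : K0 →L[ℂ] K0 := (VV_ex r r').choose

lemma VV_norm (r r' : FG) (φ : K0) : ‖VV r r' φ‖ ≤ ‖φ‖ :=
  (VV_ex r r').choose_spec.1 φ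

lemma VV_single (r r' : FG) (y : IX) (x : ℂ) : VV r r' (lp.single 2 y x) =
    (pp r r' y).elim 0 (fun j => lp.single 2 j x) :=
  (VV_ex r r').choose_spec.2 y x

/-- the (partial) parent vector towards the root `r`. -/
def par (r : FG) (y : FG) : K0 := (hd (y⁻¹ * r)).elim 0 (fun x => δ (y * le x, false))

/-- the difference of two parent maps. -/
def BB (r r' : FG) : K0 →L[ℂ] K0 := VV r r' - VV r' r

lemma BB_norm (r r' : FG) (φ : K0) : ‖BB r r' φ‖ ≤ 2 * ‖φ‖ := by
  unfold BB
  have h1 := VV_norm r r' φ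
  have h2 := VV_norm r' r φ
  calc ‖(VV r r' - VV r' r) φ‖ ≤ ‖VV r r' φ‖ + ‖VV r' r φ‖ := norm_sub_le _ _
    _ ≤ 2 * ‖φ‖ := by linarith

lemma BB_false (r r' y : FG) : BB r r' (δ (y, false)) = 0 := by
  unfold BB δ
  rw [sub_apply, VV_single, VV_single]
  simp [pp]

lemma BB_true (r r' y : FG) : BB r r' (δ (y, true)) = par r y - par r' y := by
  unfold BB δ par
  rw [sub_apply, VV_single, VV_single]
  unfold pp δ
  by_cases h : hd (y⁻¹ * r) = hd (y⁻¹ * r')
  · simp [h]
  · have h' : hd (y⁻¹ * r') ≠ hd (y⁻¹ * r) := fun k => h k.symm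
    simp only [ne_eq, h, h', not_false_eq_true, and_self, if_true]
    rcases hd (y⁻¹ * r) with _ | x <;> rcases hd (y⁻¹ * r') with _ | x' <;> simp

lemma clm_ext {V W : K0 →L[ℂ] K0} (h0 : ∀ y, V (δ (y, false)) = W (δ (y, false)))
    (h1 : ∀ y, V (δ (y, true)) = W (δ (y, true))) : V = W := by
  apply ext_single
  rintro ⟨y, b⟩ x
  have h2 : (lp.single 2 (y, b) x : K0) = x • δ (y, b) := by
    unfold δ
    rw [← lp.single_smul]
    simp
  rw [h2, map_smul, map_smul]
  cases b
  · rw [h0]
  · rw [h1]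

lemma LL_ex (g : FG) : ∃ V : K0 →L[ℂ] K0, (∀ φ, ‖V φ‖ ≤ ‖φ‖) ∧
      ∀ (i : IX) (x : ℂ), V (lp.single 2 i x) = lp.single 2 (g * i.1, i.2) x := by
  obtain ⟨V, h1, h2⟩ := pinj_exists (E := ℂ) (ι := IX) (fun y => some (g * y.1, y.2)) (by
    intro a b c ha hb
    have h := (Option.some.inj ha).trans (Option.some.inj hb).symm
    rw [Prod.mk.injEq] at h
    exact Prod.ext (mul_left_cancel h.1) h.2)
  exact ⟨V, h1, fun i x => by rw [h2]; rfl⟩

/-- the regular representation, as operators. -/
def LL (g : FG) : K0 →L[ℂ] K0 := (LL_ex g).choose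

lemma LL_norm (g : FG) (φ : K0) : ‖LL g φ‖ ≤ ‖φ‖ := (LL_ex g).choose_spec.1 φ

lemma LL_δ (g : FG) (y : IX) : LL g (δ y) = δ (g * y.1, y.2) := (LL_ex g).choose_spec.2 y 1

lemma LL_par (g r y : FG) : LL g (par r y) = par (g * r) (g * y) := by
  unfold par
  have h : (g * y)⁻¹ * (g * r) = y⁻¹ * r := by group
  rw [h]
  rcases hd (y⁻¹ * r) with _ | x
  · simp
  · simp [LL_δ, mul_assoc]

lemma LL_mul (g h : FG) : LL g ∘L LL h = LL (g * h) := by
  apply clm_ext <;> intro y <;> simp [LL_δ, mul_assoc]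

lemma LL_one : LL 1 = ContinuousLinearMap.id ℂ K0 := by
  apply clm_ext <;> intro y <;> simp [LL_δ]

lemma BB_add (r r' r'' : FG) : BB r r' + BB r' r'' = BB r r'' := by
  apply clm_ext <;> intro y <;> simp [BB_true, BB_false]

lemma BB_par (r r' s y : FG) : BB r r' (par s y) = 0 := by
  unfold par
  rcases hd (y⁻¹ * s) with _ | x
  · simp
  · simp [BB_false]

lemma BB_BB (r r' s s' : FG) : BB r r' ∘L BB s s' = 0 := by
  apply clm_ext <;> intro y <;> simp [BB_true, BB_false, BB_par]

lemma LL_BB (g r r' : FG) : LL g ∘L BB r r' = BB (g * r) (g * r') ∘L LL g := by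
  apply clm_ext <;> intro y <;> simp [BB_true, BB_false, LL_par, LL_δ]

lemma BB_self (r : FG) : BB r r = 0 := by
  apply clm_ext <;> intro y <;> simp [BB_true, BB_false]

/-- the uniformly bounded representation as a monoid homomorphism. -/
def tau0 : FG →* (K0 →L[ℂ] K0) where
  toFun g := (1 + BB 1 g) * LL g
  map_one' := by
    rw [BB_self, LL_one]
    simp
    rfl
  map_mul' g h := by
    have h1 : LL g * BB 1 h = BB g (g * h) * LL g := by
      have := LL_BB g 1 h
      rw [mul_one] at this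
      exact this
    have h2 : LL g * LL h = LL (g * h) := LL_mul g h
    have h3 : BB 1 g * BB g (g * h) = 0 := BB_BB _ _ _ _
    have h4 : BB 1 (g * h) = BB 1 g + BB g (g * h) := (BB_add _ _ _).symm
    symm
    calc (1 + BB 1 g) * LL g * ((1 + BB 1 h) * LL h)
        = (1 + BB 1 g) * (LL g * LL h + (LL g * BB 1 h) * LL h) := by noncomm_ring
      _ = (1 + BB 1 g) * (LL g * LL h + BB g (g * h) * (LL g * LL h)) := by
          rw [h1]; noncomm_ring
      _ = (1 + BB 1 g + BB g (g * h) + BB 1 g * BB g (g * h)) * (LL g * LL h) := by noncomm_ring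
      _ = (1 + BB 1 (g * h)) * LL (g * h) := by
          rw [h3, h2, h4, add_zero, add_assoc]

lemma tau0_norm (g : FG) (φ : K0) : ‖tau0 g φ‖ ≤ 3 * ‖φ‖ := by
  show ‖(1 + BB 1 g) (LL g φ)‖ ≤ 3 * ‖φ‖
  have h1 := LL_norm g φ
  have h2 := BB_norm 1 g (LL g φ)
  calc ‖(1 + BB 1 g) (LL g φ)‖ = ‖LL g φ + BB 1 g (LL g φ)‖ := by simp
    _ ≤ ‖LL g φ‖ + ‖BB 1 g (LL g φ)‖ := norm_add_le _ _
    _ ≤ 3 * ‖φ‖ := by linarith

lemma tau0_false (g y : FG) : tau0 g (δ (y, false)) = δ (g * y, false) := by
  show (1 + BB 1 g) (LL g (δ (y, false))) = _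
  rw [LL_δ]
  simp [BB_false]

/-- the action of a generator on `δ (1, true)`. -/
lemma tau0_gen (n : ℕ) : tau0 (FreeGroup.of n) (δ (1, true)) =
    δ (FreeGroup.of n, true) + δ (1, false) := by
  show (1 + BB 1 (FreeGroup.of n)) (LL (FreeGroup.of n) (δ (1, true))) = _
  rw [LL_δ]
  simp only [mul_one, add_apply, BB_true]
  have h1 : par 1 (FreeGroup.of n) = δ (1, false) := by
    unfold par
    have h2 : hd ((FreeGroup.of n : FG)⁻¹ * 1) = some (n, false) := by
      rw [mul_one]
      unfold hd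
      rw [FreeGroup.toWord_inv]
      simp [FreeGroup.invRev]
    rw [h2]
    simp only [Option.elim_some]
    have h3 : (FreeGroup.of n : FG) * le (n, false) = 1 := by
      unfold le
      have : (FreeGroup.mk [(n, false)] : FG) = (FreeGroup.of n)⁻¹ := by
        rw [FreeGroup.of, FreeGroup.inv_mk]
        rfl
      rw [this, mul_inv_cancel]
    rw [h3]
  have h4 : par (FreeGroup.of n) (FreeGroup.of n) = 0 := by
    unfold par
    rw [inv_mul_cancel, hd_one]
    rfl
  rw [h1, h4, sub_zero]
  simp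

end

end Pool.W735.Dx
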