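import Pool.Agent.W735.DxPM

/-!
Free subgroups of `SL₂(A)` containing an elliptic element, for every subring `A ≠ ℤ` of `ℝ`.
-/

set_option autoImplicit false
set_option linter.unusedVariables false
set_option linter.unusedSectionVars false

open scoped Topology MatrixGroups Pointwise
open OnePoint

namespace Pool.W735.Dx

noncomputable section

/-- there is another place where `ε` is large. -/
theorem exists_place (ε : ℝ) (h0 : 0 < ε) (h1 : ε < 1) :
    ∃ (L : Type) (_ : Field L) (v : AbsoluteValue L ℝ) (x : L), 1 < v x ∧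
      ∀ p : Polynomial ℤ, Polynomial.aeval ε p = 0 → Polynomial.aeval x p = 0 := by
  classical
  by_cases halg : IsAlgebraic ℤ ε
  · have halg' : IsAlgebraic ℚ ε := halg.extendScalars (algebraMap ℤ ℚ).injective_int
    have hint : IsIntegral ℚ ε := halg'.isIntegral
    let K := IntermediateField.adjoin ℚ {ε}
    have : FiniteDimensional ℚ K := IntermediateField.adjoin.finiteDimensional hint
    have : NumberField K := { to_charZero := inferInstance, to_finiteDimensional := inferInstance }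
    let x : K := ⟨ε, IntermediateField.mem_adjoin_simple_self ℚ ε⟩
    have hx0 : x ≠ 0 := by
      intro h
      have := congrArg Subtype.val h
      exact h0.ne' this
    have hp : ∀ p : Polynomial ℤ, Polynomial.aeval ε p = 0 → Polynomial.aeval x p = 0 := by
      intro p hp
      apply Subtype.val_injective
      have h2 : ((Polynomial.aeval x p : K) : ℝ) = Polynomial.aeval ε p := by
        have := Polynomial.aeval_algebraMap_apply ℝ x p
        exact this.symm
      rw [h2, hp]
      rfl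
    by_contra hcon
    have hle : ∀ v : AbsoluteValue K ℝ, v x ≤ 1 := by
      intro v
      by_contra hv
      exact hcon ⟨K, inferInstance, v, x, not_le.1 hv, hp⟩
    have hprod := NumberField.prod_abs_eq_one hx0
    have hfin : 0 ≤ (∏ᶠ w : NumberField.FinitePlace K, w x) ∧
        (∏ᶠ w : NumberField.FinitePlace K, w x) ≤ 1 := by
      apply finprod_induction (p := fun y : ℝ => 0 ≤ y ∧ y ≤ 1)
      · exact ⟨zero_le_one, le_rfl⟩
      · rintro a b ⟨ha0, ha1⟩ ⟨hb0, hb1⟩
        exact ⟨mul_nonneg ha0 hb0, mul_le_one₀ ha1 hb0 hb1⟩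
      · intro w
        exact ⟨apply_nonneg w x, hle w.val⟩
    let φ : K →+* ℂ := (algebraMap ℝ ℂ).comp (algebraMap K ℝ)
    let w0 := NumberField.InfinitePlace.mk φ
    have hw0 : w0 x < 1 := by
      have h2 : w0 x = ‖φ x‖ := rfl
      rw [h2]
      have h3 : φ x = (ε : ℂ) := rfl
      rw [h3, Complex.norm_real, Real.norm_eq_abs, abs_of_pos h0]
      exact h1
    have hinf : (∏ w : NumberField.InfinitePlace K, w x ^ w.mult) < 1 := by
      rw [← Finset.mul_prod_erase Finset.univ _ (Finset.mem_univ w0)]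
      have h2 : w0 x ^ w0.mult < 1 := pow_lt_one₀ (apply_nonneg w0 x) hw0 w0.mult_pos.ne'
      have h3 : (∏ w ∈ Finset.univ.erase w0, w x ^ w.mult) ≤ 1 := by
        apply Finset.prod_le_one
        · intro w _
          exact pow_nonneg (apply_nonneg w x) _
        · intro w _
          exact pow_le_one₀ (apply_nonneg w x) (hle w.1)
      have h4 : 0 ≤ (∏ w ∈ Finset.univ.erase w0, w x ^ w.mult) := by
        apply Finset.prod_nonneg
        intro w _
        exact pow_nonneg (apply_nonneg w x) _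
      have h5 : 0 ≤ w0 x ^ w0.mult := pow_nonneg (apply_nonneg w0 x) _
      nlinarith
    have hinf0 : 0 ≤ (∏ w : NumberField.InfinitePlace K, w x ^ w.mult) := by
      apply Finset.prod_nonneg
      intro w _
      exact pow_nonneg (apply_nonneg w x) _
    nlinarith [hfin.1, hfin.2]
  · refine ⟨ℝ, inferInstance, AbsoluteValue.abs, 2, ?_, ?_⟩
    · show 1 < |(2 : ℝ)|
      norm_num
    · intro p hp
      have : p = 0 := by
        by_contra hne
        exact halg ⟨p, hne, hp⟩
      rw [this, map_zero]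

section mats

variable {R : Type*} [CommRing R]

/-- the conjugates of the elliptic matrix by translations. -/
def cm (t r : R) : Matrix.SpecialLinearGroup (Fin 2) R :=
  ⟨!![t + r, -r * (t + r) - 1; 1, -r], by
    rw [Matrix.det_fin_two_of]
    ring⟩

/-- the translations. -/
def rr (t : R) (k : ℕ) : R := if k = 0 then 0 else t ^ (2 * k)

/-- the homomorphism from the free group. -/
def JJ (t : R) : FreeGroup ℕ →* Matrix.SpecialLinearGroup (Fin 2) R :=
  FreeGroup.lift (fun k => cm t (rr t k))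

lemma JJ_of (t : R) (k : ℕ) : JJ t (FreeGroup.of k) = cm t (rr t k) := FreeGroup.lift_apply_of

lemma map_rr {S : Type*} [CommRing S] (f : R →+* S) (t : R) (k : ℕ) :
    f (rr t k) = rr (f t) k := by
  unfold rr
  split_ifs <;> simp

lemma map_cm {S : Type*} [CommRing S] (f : R →+* S) (t r : R) :
    Matrix.SpecialLinearGroup.map f (cm t r) = cm (f t) (f r) := by
  ext i j
  have h : (Matrix.SpecialLinearGroup.map f (cm t r)) i j = f ((cm t r) i j) := rfl
  rw [h]
  fin_cases i <;> fin_cases j <;> simp [cm]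

lemma map_JJ {S : Type*} [CommRing S] (f : R →+* S) (t : R) (w : FreeGroup ℕ) :
    Matrix.SpecialLinearGroup.map f (JJ t w) = JJ (f t) w := by
  have : (Matrix.SpecialLinearGroup.map f).comp (JJ t) = JJ (f t) := by
    apply FreeGroup.ext_hom
    intro k
    rw [MonoidHom.comp_apply, JJ_of, JJ_of, map_cm, map_rr]
  rw [← this]
  rfl

end mats

section field

variable {L : Type} [Field L] [DecidableEq L]

lemma mobHom_one_of (M : Matrix.SpecialLinearGroup (Fin 2) L) (hc : M 1 0 = 0) (hb : M 0 1 = 0)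
    (ha : M 1 1 = M 0 0) : mobHom L M = 1 := by
  have hdet := det_eq M
  rw [hc, hb, ha] at hdet
  have h0 : M 0 0 ≠ 0 := by
    intro h0
    rw [h0] at hdet
    simp at hdet
  ext z
  cases z using OnePoint.rec with
  | infty => rw [mobHom_infty, if_pos hc]; rfl
  | coe z =>
    rw [mobHom_coe, hc, hb, ha, zero_mul, zero_add, if_neg h0, add_zero, mul_div_cancel_left₀ _ h0]
    rfl

lemma entries_of_one (M : Matrix.SpecialLinearGroup (Fin 2) L) (h : mobHom L M = 1) :
    M 1 0 = 0 ∧ M 0 1 = 0 ∧ M 1 1 = M 0 0 := by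
  have h1 : mobHom L M ∞ = ∞ := by rw [h]; rfl
  have hc : M 1 0 = 0 := by
    by_contra hc
    rw [mobHom_infty, if_neg hc] at h1
    exact OnePoint.coe_ne_infty _ h1
  have h2 : mobHom L M ((0 : L) : OnePoint L) = ((0 : L) : OnePoint L) := by rw [h]; rfl
  have h3 : mobHom L M ((1 : L) : OnePoint L) = ((1 : L) : OnePoint L) := by rw [h]; rfl
  have hdet := det_eq M
  rw [hc, mul_zero, sub_zero] at hdet
  have hd : M 1 1 ≠ 0 := by
    intro h0
    rw [h0, mul_zero] at hdet
    exact zero_ne_one hdet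
  rw [mobHom_coe, hc, zero_mul, zero_add, if_neg hd, mul_zero, zero_add, OnePoint.coe_eq_coe,
    div_eq_zero_iff, or_iff_left hd] at h2
  rw [mobHom_coe, hc, zero_mul, zero_add, if_neg hd, h2, add_zero, mul_one, OnePoint.coe_eq_coe,
    div_eq_one_iff_eq hd] at h3
  exact ⟨hc, h2, h3.symm⟩

lemma cm_coe (t r x : L) (h : x - r ≠ 0) :
    mobHom L (cm t r) (x : OnePoint L) = ((t + r - 1 / (x - r) : L) : OnePoint L) := by
  have h1 : (cm t r) 0 0 = t + r := rfl
  have h2 : (cm t r) 0 1 = -r * (t + r) - 1 := rfl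
  have h3 : (cm t r) 1 0 = 1 := rfl
  have h4 : (cm t r) 1 1 = -r := rfl
  rw [mobHom_coe, h1, h2, h3, h4, one_mul, ← sub_eq_add_neg, if_neg h, OnePoint.coe_eq_coe]
  field_simp
  ring

lemma cm_infty (t r : L) : mobHom L (cm t r) ∞ = ((t + r : L) : OnePoint L) := by
  have h1 : (cm t r) 0 0 = t + r := rfl
  have h3 : (cm t r) 1 0 = 1 := rfl
  rw [mobHom_infty, h1, h3, if_neg one_ne_zero, div_one]

variable (v : AbsoluteValue L ℝ) (τ : L) (hτ : 4 ≤ v τ)
include hτ

lemma rr_far {k l : ℕ} (h : l < k) : (v τ) ^ 2 ≤ v (rr τ k - rr τ l) := by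
  unfold rr
  have hk : k ≠ 0 := by omega
  rw [if_neg hk]
  by_cases hl : l = 0
  · rw [if_pos hl, sub_zero, map_pow]
    exact pow_le_pow_right₀ (by linarith) (by omega)
  · rw [if_neg hl]
    have h1 := v.le_sub (τ ^ (2 * k)) (τ ^ (2 * l))
    rw [map_pow, map_pow] at h1
    refine le_trans ?_ h1
    have h2 : (v τ) ^ (2 * l + 2) ≤ (v τ) ^ (2 * k) :=
      pow_le_pow_right₀ (by linarith) (by omega)
    have h3 : (v τ) ^ 2 ≤ (v τ) ^ (2 * l) := pow_le_pow_right₀ (by linarith) (by omega)
    have h4 : (v τ) ^ (2 * l + 2) = (v τ) ^ (2 * l) * (v τ) ^ 2 := pow_add _ _ _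
    have h5 : 16 ≤ (v τ) ^ 2 := by nlinarith
    nlinarith

lemma rr_far' {k l : ℕ} (h : k ≠ l) : (v τ) ^ 2 ≤ v (rr τ k - rr τ l) := by
  rcases lt_or_gt_of_ne h with h | h
  · rw [v.map_sub]
    exact rr_far v τ hτ h
  · exact rr_far v τ hτ h

lemma rr_sep (k l : ℕ) : 2 < v (τ + rr τ k - rr τ l) := by
  by_cases h : k = l
  · rw [h, add_sub_cancel_right]
    linarith
  · have h1 := rr_far' v τ hτ h
    have h2 := v.le_add (rr τ k - rr τ l) τ
    have h3 : rr τ k - rr τ l + τ = τ + rr τ k - rr τ l := by ring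
    rw [h3] at h2
    nlinarith

/-- ping-pong. -/
theorem ping : Function.Injective ((mobHom L).comp (JJ τ)) := by
  have h0 : (mobHom L).comp (JJ τ) = FreeGroup.lift (fun k => mobHom L (cm τ (rr τ k))) := by
    apply FreeGroup.ext_hom
    intro k
    rw [MonoidHom.comp_apply, JJ_of, FreeGroup.lift_apply_of]
  rw [h0]
  have hX : ∀ k : ℕ, (mobHom L (cm τ (rr τ k))) • (((fun x : L => (x : OnePoint L)) ''
      {x | v (x - rr τ k) ≤ 1})ᶜ : Set (OnePoint L)) ⊆
      (fun x : L => (x : OnePoint L)) '' {x | v (x - (rr τ k + τ)) ≤ 1} := by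
    rintro k _ ⟨p, hp, rfl⟩
    simp only
    cases p using OnePoint.rec with
    | infty =>
      refine ⟨τ + rr τ k, ?_, (cm_infty _ _).symm⟩
      rw [Set.mem_ofPred_eq, add_comm, sub_self, map_zero]
      exact zero_le_one
    | coe x =>
      have hx : 1 < v (x - rr τ k) := by
        by_contra hx
        exact hp ⟨x, not_lt.1 hx, rfl⟩
      have hx0 : x - rr τ k ≠ 0 := by
        intro h
        rw [h, map_zero] at hx
        linarith
      refine ⟨τ + rr τ k - 1 / (x - rr τ k), ?_, (cm_coe _ _ _ hx0).symm⟩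
      rw [Set.mem_ofPred_eq]
      have : τ + rr τ k - 1 / (x - rr τ k) - (rr τ k + τ) = -(1 / (x - rr τ k)) := by ring
      rw [this, v.map_neg, map_div₀, map_one]
      rw [div_le_one (by linarith)]
      exact hx.le
  have htri : ∀ x y z : L, v (x - y) ≤ 1 → v (x - z) ≤ 1 → v (y - z) ≤ 2 := by
    intro x y z h1 h2
    have h3 := v.add_le (y - x) (x - z)
    have h4 : y - x + (x - z) = y - z := by ring
    rw [h4, v.map_sub y x] at h3
    linarith
  have h16 : 16 ≤ (v τ) ^ 2 := by nlinarith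
  refine FreeGroup.injective_lift_of_ping_pong _
    (fun k => (fun x : L => (x : OnePoint L)) '' {x | v (x - (rr τ k + τ)) ≤ 1})
    (fun k => (fun x : L => (x : OnePoint L)) '' {x | v (x - rr τ k) ≤ 1}) ?_ ?_ ?_ ?_ hX ?_
  · intro k
    refine ⟨_, ⟨rr τ k + τ, ?_, rfl⟩⟩
    rw [Set.mem_ofPred_eq, sub_self, map_zero]
    exact zero_le_one
  · intro k l hkl
    rw [Function.onFun, Set.disjoint_left]
    rintro _ ⟨x, hx, rfl⟩ ⟨y, hy, hxy⟩
    have hxy' : y = x := OnePoint.coe_injective hxy
    subst hxy'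
    have h1 := htri _ _ _ hx hy
    have h2 := rr_far' v τ hτ hkl
    have h3 : rr τ k + τ - (rr τ l + τ) = rr τ k - rr τ l := by ring
    rw [h3] at h1
    linarith
  · intro k l hkl
    rw [Function.onFun, Set.disjoint_left]
    rintro _ ⟨x, hx, rfl⟩ ⟨y, hy, hxy⟩
    have hxy' : y = x := OnePoint.coe_injective hxy
    subst hxy'
    have h1 := htri _ _ _ hx hy
    have h2 := rr_far' v τ hτ hkl
    linarith
  · intro k l
    rw [Set.disjoint_left]
    rintro _ ⟨x, hx, rfl⟩ ⟨y, hy, hxy⟩
    have hxy' : y = x := OnePoint.coe_injective hxy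
    subst hxy'
    have h1 := htri _ _ _ hx hy
    have h2 := rr_sep v τ hτ k l
    have h3 : rr τ k + τ - rr τ l = τ + rr τ k - rr τ l := by ring
    rw [h3] at h1
    linarith
  · rintro k _ ⟨p, hp, rfl⟩
    by_contra hq
    apply hp
    have := hX k (Set.smul_mem_smul_set hq)
    convert this using 1
    show p = mobHom L (cm τ (rr τ k)) ((mobHom L (cm τ (rr τ k)))⁻¹ p)
    exact (Equiv.apply_symm_apply _ _).symm

end field

/-- the free group over the reals. -/
theorem exists_free (ε : ℝ) (h0 : 0 < ε) (h1 : ε < 1) :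
    ∃ m : ℕ, 0 < m ∧ Function.Injective ((mobHom ℝ).comp (JJ (ε ^ m))) := by
  classical
  obtain ⟨L, _, v, x, hx, hp⟩ := exists_place ε h0 h1
  obtain ⟨m, hm⟩ := pow_unbounded_of_one_lt 4 hx
  have hm0 : 0 < m := by
    rcases Nat.eq_zero_or_pos m with h | h
    · rw [h, pow_zero] at hm
      norm_num at hm
    · exact h
  refine ⟨m, hm0, ?_⟩
  have hping := ping v (x ^ m) (by rw [map_pow]; exact hm.le)
  rw [injective_iff_map_eq_one]
  intro w hw
  apply hping
  rw [map_one]
  rw [MonoidHom.comp_apply] at hw ⊢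
  have e1 : JJ (ε ^ m) w = Matrix.SpecialLinearGroup.map
      ((Polynomial.aeval ε : Polynomial ℤ →ₐ[ℤ] ℝ) : Polynomial ℤ →+* ℝ)
      (JJ ((Polynomial.X : Polynomial ℤ) ^ m) w) := by
    rw [map_JJ]
    simp
  have e2 : JJ (x ^ m) w = Matrix.SpecialLinearGroup.map
      ((Polynomial.aeval x : Polynomial ℤ →ₐ[ℤ] L) : Polynomial ℤ →+* L)
      (JJ ((Polynomial.X : Polynomial ℤ) ^ m) w) := by
    rw [map_JJ]
    simp
  rw [e1] at hw
  rw [e2]
  obtain ⟨g1, g2, g3⟩ := entries_of_one _ hw
  have k1 := hp _ g1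
  have k2 := hp _ g2
  have k3 := hp (JJ ((Polynomial.X : Polynomial ℤ) ^ m) w 1 1 -
    JJ ((Polynomial.X : Polynomial ℤ) ^ m) w 0 0) (by
      rw [map_sub, sub_eq_zero]
      exact g3)
  rw [map_sub, sub_eq_zero] at k3
  exact mobHom_one_of _ k1 k2 k3

end

end Pool.W735.Dx
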