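import Pool.Agent.W735.DxSub
import Pool.Agent.W735.DxPing

/-!
Translations and hyperbolic bumps; the group they generate is not unitarizable.
-/

set_option autoImplicit false
set_option linter.unusedVariables false
set_option linter.unusedSectionVars false

open scoped Topology MatrixGroups
open MeasureTheory Filter

namespace Pool.W735.Dx

noncomputable section

/-- translations. -/
def trans (a : ℝ) : ℝ ≃o ℝ := OrderIso.addRight a

lemma trans_apply (a x : ℝ) : trans a x = x + a := rfl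

lemma trans_inv_apply (a x : ℝ) : (trans a)⁻¹ x = x - a := by
  have h : (trans a)⁻¹ (trans a (x - a)) = x - a := OrderIso.symm_apply_apply _ _
  rw [trans_apply, sub_add_cancel] at h
  exact h

/-- the underlying function of the bump. -/
def bf (s : ℝ) (x : ℝ) : ℝ := if x ^ 2 - s * x + 1 < 0 then s - 1 / x else x

section bf

variable {s : ℝ} (hs : 0 < s)
include hs

lemma in_pos {x : ℝ} (h : x ^ 2 - s * x + 1 < 0) : 0 < x := by
  by_contra hx
  have : s * x ≤ 0 := mul_nonpos_of_nonneg_of_nonpos hs.le (not_lt.1 hx)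
  nlinarith [sq_nonneg x]

lemma in_up {x : ℝ} (h : x ^ 2 - s * x + 1 < 0) : x < s - 1 / x := by
  have hx := in_pos hs h
  rw [lt_sub_iff_add_lt]
  have h1 : x * (x + 1 / x) < x * s := by
    have h2 : x * (x + 1 / x) = x ^ 2 + 1 := by field_simp
    rw [h2]
    linarith
  exact lt_of_mul_lt_mul_left h1 hx.le

lemma in_im {x : ℝ} (h : x ^ 2 - s * x + 1 < 0) :
    (s - 1 / x) ^ 2 - s * (s - 1 / x) + 1 < 0 := by
  have hx := in_pos hs h
  have h1 : (s - 1 / x) ^ 2 - s * (s - 1 / x) + 1 = (x ^ 2 - s * x + 1) / x ^ 2 := by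
    field_simp
    ring
  rw [h1]
  exact div_neg_of_neg_of_pos h (by positivity)

lemma in_conv {x y z : ℝ} (hx : x ^ 2 - s * x + 1 < 0) (hz : z ^ 2 - s * z + 1 < 0)
    (h1 : x ≤ y) (h2 : y ≤ z) : y ^ 2 - s * y + 1 < 0 := by
  by_cases hy : 2 * y ≤ s
  · nlinarith
  · nlinarith

lemma bf_mono : StrictMono (bf s) := by
  intro x y hxy
  unfold bf
  by_cases hx : x ^ 2 - s * x + 1 < 0
  · rw [if_pos hx]
    by_cases hy : y ^ 2 - s * y + 1 < 0
    · rw [if_pos hy]
      have h1 : 1 / y < 1 / x := one_div_lt_one_div_of_lt (in_pos hs hx) hxy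
      linarith
    · rw [if_neg hy]
      by_contra hcon
      exact hy (in_conv hs hx (in_im hs hx) hxy.le (not_lt.1 hcon))
  · rw [if_neg hx]
    by_cases hy : y ^ 2 - s * y + 1 < 0
    · rw [if_pos hy]
      have := in_up hs hy
      linarith
    · rw [if_neg hy]
      exact hxy

lemma bf_surj : Function.Surjective (bf s) := by
  intro y
  by_cases hy : y ^ 2 - s * y + 1 < 0
  · have h0 : 0 < s - y := by
      have h1 := in_pos hs hy
      by_contra h
      have : 0 ≤ (y - s) * y := mul_nonneg (by linarith) h1.le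
      nlinarith
    refine ⟨1 / (s - y), ?_⟩
    have h1 : (1 / (s - y)) ^ 2 - s * (1 / (s - y)) + 1 < 0 := by
      have h2 : (1 / (s - y)) ^ 2 - s * (1 / (s - y)) + 1 = (y ^ 2 - s * y + 1) / (s - y) ^ 2 := by
        field_simp
        ring
      rw [h2]
      exact div_neg_of_neg_of_pos hy (by positivity)
    unfold bf
    rw [if_pos h1, one_div_one_div]
    ring
  · exact ⟨y, if_neg hy⟩

end bf

/-- the bump homeomorphism `x ↦ s - 1 / x` between its fixed points. -/
def bump (n : ℕ) : ℝ ≃o ℝ :=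
  StrictMono.orderIsoOfSurjective (bf ((n : ℝ) + 3)) (bf_mono (by positivity))
    (bf_surj (by positivity))

lemma bump_apply (n : ℕ) (x : ℝ) : bump n x = bf ((n : ℝ) + 3) x := rfl

/-- the matrix group of the subring `A`, acting on the projective line. -/
def LA (A : Subring ℝ) : Subgroup (Equiv.Perm (OnePoint ℝ)) :=
  ((mobHom ℝ).comp (Matrix.SpecialLinearGroup.map A.subtype)).range

lemma LA_le (A : Subring ℝ) : LA A ≤ (mobHom ℝ).range := by
  rintro _ ⟨M, rfl⟩
  exact ⟨_, rfl⟩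

/-- the elliptic-type matrices over a ring -/
def ut {R : Type*} [CommRing R] (a : R) : Matrix.SpecialLinearGroup (Fin 2) R :=
  ⟨!![1, a; 0, 1], by simp [Matrix.det_fin_two]⟩

lemma map_ut {R S : Type*} [CommRing R] [CommRing S] (f : R →+* S) (a : R) :
    Matrix.SpecialLinearGroup.map f (ut a) = ut (f a) := by
  ext i j
  have h : (Matrix.SpecialLinearGroup.map f (ut a)) i j = f ((ut a) i j) := rfl
  rw [h]
  fin_cases i <;> fin_cases j <;> simp [ut]

lemma ut_coe (a x : ℝ) : mobHom ℝ (ut a) (x : OnePoint ℝ) = ((x + a : ℝ) : OnePoint ℝ) := by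
  have h1 : (ut a) 0 0 = 1 := rfl
  have h2 : (ut a) 0 1 = a := rfl
  have h3 : (ut a) 1 0 = 0 := rfl
  have h4 : (ut a) 1 1 = 1 := rfl
  rw [mobHom_coe, h1, h2, h3, h4, zero_mul, zero_add, if_neg one_ne_zero, one_mul, div_one]

lemma ut_mem {A : Subring ℝ} {a : ℝ} (ha : a ∈ A) : mobHom ℝ (ut a) ∈ LA A :=
  ⟨ut ⟨a, ha⟩, by rw [MonoidHom.comp_apply, map_ut]; rfl⟩

lemma cm_mem {A : Subring ℝ} {t r : ℝ} (ht : t ∈ A) (hr : r ∈ A) : mobHom ℝ (cm t r) ∈ LA A :=
  ⟨cm ⟨t, ht⟩ ⟨r, hr⟩, by rw [MonoidHom.comp_apply, map_cm]; rfl⟩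

lemma trans_germ (a x : ℝ) : IsGerm (mobHom ℝ (ut a)) (trans a) x :=
  Eventually.of_forall fun z => ut_coe a z

lemma trans_mem {A : Subring ℝ} {a : ℝ} (ha : a ∈ A) : trans a ∈ PM (LA A) :=
  ⟨∅, Set.finite_empty, fun x _ => ⟨_, ut_mem ha, trans_germ a x⟩⟩

lemma quad_cont (s : ℝ) : Continuous fun x : ℝ => x ^ 2 - s * x + 1 := by fun_prop

lemma bump_germ_in (n : ℕ) {x : ℝ} (hx : x ^ 2 - ((n : ℝ) + 3) * x + 1 < 0) :
    IsGerm (mobHom ℝ (cm ((n : ℝ) + 3) 0)) (bump n) x := by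
  have h1 : ∀ᶠ z in 𝓝 x, z ^ 2 - ((n : ℝ) + 3) * z + 1 < 0 :=
    (quad_cont _).continuousAt.eventually_lt continuousAt_const hx
  filter_upwards [h1] with z hz
  have hz0 := in_pos (by positivity) hz
  rw [cm_coe _ _ _ (by rw [sub_zero]; exact hz0.ne'), bump_apply, bf, if_pos hz, add_zero, sub_zero]

lemma bump_germ_out (n : ℕ) {x : ℝ} (hx : 0 < x ^ 2 - ((n : ℝ) + 3) * x + 1) :
    ∀ᶠ z in 𝓝 x, bump n z = z := by
  have h1 : ∀ᶠ z in 𝓝 x, 0 < z ^ 2 - ((n : ℝ) + 3) * z + 1 :=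
    continuousAt_const.eventually_lt (quad_cont _).continuousAt hx
  filter_upwards [h1] with z hz
  rw [bump_apply, bf, if_neg (not_lt.2 hz.le)]

lemma roots_finite (s : ℝ) : {x : ℝ | x ^ 2 - s * x + 1 = 0}.Finite := by
  have h : (Polynomial.X ^ 2 - Polynomial.C s * Polynomial.X + 1 : Polynomial ℝ) ≠ 0 := by
    intro h0
    have := congrArg (fun p => Polynomial.coeff p 0) h0
    simp at this
  apply (Polynomial.finite_setOf_isRoot h).subset
  intro x hx
  show Polynomial.IsRoot _ x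
  simp only [Polynomial.IsRoot, Polynomial.eval_add, Polynomial.eval_sub, Polynomial.eval_pow,
    Polynomial.eval_X, Polynomial.eval_mul, Polynomial.eval_C, Polynomial.eval_one]
  exact hx

lemma nat3_mem (A : Subring ℝ) (n : ℕ) : ((n : ℝ) + 3) ∈ A := by
  have := natCast_mem A (n + 3)
  push_cast at this
  exact this

lemma bump_mem (A : Subring ℝ) (n : ℕ) : bump n ∈ PM (LA A) := by
  refine ⟨{x : ℝ | x ^ 2 - ((n : ℝ) + 3) * x + 1 = 0}, roots_finite _, ?_⟩
  intro x hx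
  rcases lt_trichotomy (x ^ 2 - ((n : ℝ) + 3) * x + 1) 0 with h | h | h
  · exact ⟨_, cm_mem (nat3_mem A n) A.zero_mem, bump_germ_in n h⟩
  · exact absurd h hx
  · refine ⟨1, (LA A).one_mem, ?_⟩
    filter_upwards [bump_germ_out n h] with z hz
    rw [hz]
    rfl

/-- the generators. -/
def gens (A : Subring ℝ) : Set (ℝ ≃o ℝ) :=
  {h | ∃ a ∈ A, h = trans a} ∪ Set.range bump

/-- the group generated by translations and bumps. -/
def GA (A : Subring ℝ) : Subgroup (ℝ ≃o ℝ) := Subgroup.closure (gens A)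

lemma GA_le (A : Subring ℝ) : GA A ≤ PM (LA A) := by
  unfold GA
  rw [Subgroup.closure_le]
  rintro h (⟨a, ha, rfl⟩ | ⟨n, rfl⟩)
  · exact trans_mem ha
  · exact bump_mem A n

lemma trans_GA {A : Subring ℝ} {a : ℝ} (ha : a ∈ A) : trans a ∈ GA A :=
  Subgroup.subset_closure (Or.inl ⟨a, ha, rfl⟩)

lemma bump_GA (A : Subring ℝ) (n : ℕ) : bump n ∈ GA A :=
  Subgroup.subset_closure (Or.inr ⟨n, rfl⟩)

/-- as a subgroup of `PM`. -/
def GP (A : Subring ℝ) : Subgroup (PM (LA A)) := (GA A).subgroupOf (PM (LA A))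

end

end Pool.W735.Dx
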