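import Pool.Agent.W735.DxGen

/-!
The group generated by translations and bumps is not unitarizable.
-/

set_option autoImplicit false
set_option linter.unusedVariables false
set_option linter.unusedSectionVars false

open scoped Topology MatrixGroups
open MeasureTheory Filter

namespace Pool.W735.Dx

noncomputable section

lemma exists_small {A : Subring ℝ} (hA : A ≠ ⊥) : ∃ ε ∈ A, 0 < ε ∧ ε < 1 := by
  have h1 : ∃ a ∈ A, a ∉ (⊥ : Subring ℝ) := by
    by_contra h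
    push Not at h
    exact hA (le_antisymm h bot_le)
  obtain ⟨a, ha, hab⟩ := h1
  refine ⟨Int.fract a, ?_, ?_, Int.fract_lt_one a⟩
  · rw [← Int.self_sub_floor]
    exact A.sub_mem ha (intCast_mem A _)
  · rcases (Int.fract_nonneg a).lt_or_eq with h | h
    · exact h
    · exfalso
      apply hab
      rw [Subring.mem_bot]
      refine ⟨⌊a⌋, ?_⟩
      have := Int.self_sub_floor a
      linarith

lemma dense_A {A : Subring ℝ} (hA : A ≠ ⊥) {u v : ℝ} (huv : u < v) : ∃ a ∈ A, u < a ∧ a < v := by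
  obtain ⟨ε, hε, h0, h1⟩ := exists_small hA
  obtain ⟨m, hm⟩ := exists_pow_lt_of_lt_one (sub_pos.2 huv) h1
  have hδ : 0 < ε ^ m := by positivity
  refine ⟨(⌊u / ε ^ m⌋ + 1 : ℤ) * ε ^ m, ?_, ?_, ?_⟩
  · exact A.mul_mem (intCast_mem A _) (A.pow_mem hε m)
  · have h2 := Int.lt_floor_add_one (u / ε ^ m)
    rw [div_lt_iff₀ hδ] at h2
    push_cast
    exact h2
  · have h2 := Int.floor_le (u / ε ^ m)
    rw [le_div_iff₀ hδ] at h2
    push_cast
    linarith

lemma mul_apply' (f g : ℝ ≃o ℝ) (x : ℝ) : (f * g) x = f (g x) := rfl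

/-- left fixed point of the first bump. -/
def q1 : ℝ := (3 - Real.sqrt 5) / 2
/-- right fixed point of the first bump. -/
def q2 : ℝ := (3 + Real.sqrt 5) / 2

lemma q12 : q2 - q1 = Real.sqrt 5 := by unfold q1 q2; ring

lemma sqrt5 : 2 < Real.sqrt 5 := by
  rw [Real.lt_sqrt (by norm_num)]
  norm_num

lemma quad_iff (y : ℝ) : y ^ 2 - (((0 : ℕ) : ℝ) + 3) * y + 1 < 0 ↔ y ∈ Set.Ioo q1 q2 := by
  have h5 := Real.sq_sqrt (show (0 : ℝ) ≤ 5 by norm_num)
  have hf : y ^ 2 - (((0 : ℕ) : ℝ) + 3) * y + 1 = (y - q1) * (y - q2) := by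
    unfold q1 q2
    push_cast
    linear_combination (1 / 4 : ℝ) * h5
  have hlt : q1 < q2 := by
    have := q12
    have := sqrt5
    linarith
  rw [hf, mul_neg_iff]
  constructor
  · rintro (⟨h1, h2⟩ | ⟨h1, h2⟩)
    · exact ⟨by linarith, by linarith⟩
    · linarith
  · rintro ⟨h1, h2⟩
    left
    exact ⟨by linarith, by linarith⟩

section main

variable {A : Subring ℝ}

/-- the conjugated bump. -/
def cb (A : Subring ℝ) (a : ℝ) (ha : a ∈ A) : PM (LA A) :=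
  ⟨trans a * bump 0 * (trans a)⁻¹, (PM (LA A)).mul_mem ((PM (LA A)).mul_mem (trans_mem ha)
    (bump_mem A 0)) ((PM (LA A)).inv_mem (trans_mem ha))⟩

lemma cb_mem (a : ℝ) (ha : a ∈ A) : cb A a ha ∈ GP A := by
  show trans a * bump 0 * (trans a)⁻¹ ∈ GA A
  exact (GA A).mul_mem ((GA A).mul_mem (trans_GA ha) (bump_GA A 0)) ((GA A).inv_mem (trans_GA ha))

lemma cb_apply (a : ℝ) (ha : a ∈ A) (x : ℝ) :
    (cb A a ha : ℝ ≃o ℝ) x = bf (((0 : ℕ) : ℝ) + 3) (x - a) + a := by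
  show trans a (bump 0 ((trans a)⁻¹ x)) = _
  rw [trans_apply, trans_inv_apply, bump_apply]

lemma bset_a (a : ℝ) (ha : a ∈ A) : BSet (GP A) (Set.Ioo (q1 + a) (q2 + a)) := by
  have hlt : q1 < q2 := by
    have := q12
    have := sqrt5
    linarith
  apply BSet.bump (cb A a ha) (cb_mem a ha) _ _ (by linarith)
  · intro x hx
    rw [cb_apply, bf, if_neg]
    · ring
    · rw [quad_iff]
      intro h
      exact hx ⟨by linarith [h.1], by linarith [h.2]⟩
  · intro x hx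
    have h : (x - a) ∈ Set.Ioo q1 q2 := ⟨by linarith [hx.1], by linarith [hx.2]⟩
    rw [← quad_iff] at h
    rw [cb_apply, bf, if_pos h]
    have := in_up (by positivity) h
    linarith

lemma hden_A (hA : A ≠ ⊥) : ∀ x : ℝ, ∀ ε > 0, ∃ U : Set ℝ, IsOpen U ∧ BSet (GP A) U ∧ x ∈ U ∧
      U ⊆ Set.Ioo (x - ε) (x + ε) := by
  intro x ε hε
  set η := min ε 1 with hη
  have hη0 : 0 < η := lt_min hε one_pos
  have hη1 : η ≤ ε := min_le_left _ _
  have hη2 : η ≤ 1 := min_le_right _ _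
  obtain ⟨a, ha, ha1, ha2⟩ := dense_A hA (show x - η - q1 < x - q1 by linarith)
  obtain ⟨b, hb, hb1, hb2⟩ := dense_A hA (show x - q2 < x + η - q2 by linarith)
  have h12 := q12
  have h5 := sqrt5
  refine ⟨Set.Ioo (q1 + a) (q2 + a) ∩ Set.Ioo (q1 + b) (q2 + b), isOpen_Ioo.inter isOpen_Ioo,
    BSet.inter _ _ (bset_a a ha) (bset_a b hb), ?_, ?_⟩
  · refine ⟨⟨by linarith, by linarith⟩, ⟨by linarith, by linarith⟩⟩
  · rintro y ⟨⟨h1, h2⟩, ⟨h3, h4⟩⟩
    exact ⟨by linarith, by linarith⟩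

/-- first realisation of the elliptic element, for positive points. -/
def r1 (A : Subring ℝ) (t : ℝ) (ht : t ∈ A) (n : ℕ) : PM (LA A) :=
  ⟨trans (t - ((n : ℝ) + 3)) * bump n, (PM (LA A)).mul_mem
    (trans_mem (A.sub_mem ht (nat3_mem A n))) (bump_mem A n)⟩

/-- second realisation of the elliptic element, for negative points. -/
def r2 (A : Subring ℝ) (t : ℝ) (ht : t ∈ A) (n : ℕ) : PM (LA A) :=
  ⟨trans t * (bump n)⁻¹ * trans ((n : ℝ) + 3), (PM (LA A)).mul_mem ((PM (LA A)).mul_mem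
    (trans_mem ht) ((PM (LA A)).inv_mem (bump_mem A n))) (trans_mem (nat3_mem A n))⟩

lemma r1_mem (t : ℝ) (ht : t ∈ A) (n : ℕ) : r1 A t ht n ∈ GP A := by
  show trans (t - ((n : ℝ) + 3)) * bump n ∈ GA A
  exact (GA A).mul_mem (trans_GA (A.sub_mem ht (nat3_mem A n))) (bump_GA A n)

lemma r2_mem (t : ℝ) (ht : t ∈ A) (n : ℕ) : r2 A t ht n ∈ GP A := by
  show trans t * (bump n)⁻¹ * trans ((n : ℝ) + 3) ∈ GA A
  exact (GA A).mul_mem ((GA A).mul_mem (trans_GA ht) ((GA A).inv_mem (bump_GA A n)))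
    (trans_GA (nat3_mem A n))

lemma r1_germ (t : ℝ) (ht : t ∈ A) (n : ℕ) {y : ℝ} (hy : y ^ 2 - ((n : ℝ) + 3) * y + 1 < 0) :
    IsGerm (mobHom ℝ (cm t 0)) (r1 A t ht n : ℝ ≃o ℝ) y := by
  have h1 : ∀ᶠ z in 𝓝 y, z ^ 2 - ((n : ℝ) + 3) * z + 1 < 0 :=
    (quad_cont _).continuousAt.eventually_lt continuousAt_const hy
  filter_upwards [h1] with z hz
  have hz0 := in_pos (by positivity) hz
  have h2 : (r1 A t ht n : ℝ ≃o ℝ) z = bf ((n : ℝ) + 3) z + (t - ((n : ℝ) + 3)) := rfl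
  rw [cm_coe _ _ _ (by rw [sub_zero]; exact hz0.ne'), h2, bf, if_pos hz, OnePoint.coe_eq_coe]
  ring

lemma r2_germ (t : ℝ) (ht : t ∈ A) (n : ℕ) {y : ℝ} (hy : y ^ 2 + ((n : ℝ) + 3) * y + 1 < 0) :
    IsGerm (mobHom ℝ (cm t 0)) (r2 A t ht n : ℝ ≃o ℝ) y := by
  have hc : Continuous fun x : ℝ => x ^ 2 + ((n : ℝ) + 3) * x + 1 := by fun_prop
  have h1 : ∀ᶠ z in 𝓝 y, z ^ 2 + ((n : ℝ) + 3) * z + 1 < 0 :=
    hc.continuousAt.eventually_lt continuousAt_const hy
  filter_upwards [h1] with z hz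
  have hz0 : z ≠ 0 := by
    intro h
    rw [h] at hz
    norm_num at hz
  have h2 : (r2 A t ht n : ℝ ≃o ℝ) z = (bump n)⁻¹ (z + ((n : ℝ) + 3)) + t := rfl
  have h3 : (bump n)⁻¹ (z + ((n : ℝ) + 3)) = -(1 / z) := by
    have h4 : bump n (-(1 / z)) = z + ((n : ℝ) + 3) := by
      have h5 : (-(1 / z)) ^ 2 - ((n : ℝ) + 3) * (-(1 / z)) + 1 < 0 := by
        have h6 : (-(1 / z)) ^ 2 - ((n : ℝ) + 3) * (-(1 / z)) + 1 =
            (z ^ 2 + ((n : ℝ) + 3) * z + 1) / z ^ 2 := by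
          field_simp
          ring
        rw [h6]
        exact div_neg_of_neg_of_pos hz (by positivity)
      rw [bump_apply, bf, if_pos h5]
      field_simp
      ring
    rw [← h4]
    exact OrderIso.symm_apply_apply _ _
  rw [cm_coe _ _ _ (by rw [sub_zero]; exact hz0), h2, h3, OnePoint.coe_eq_coe]
  ring

/-- the covering sequence. -/
def kseq (A : Subring ℝ) (t : ℝ) (ht : t ∈ A) (n : ℕ) : PM (LA A) :=
  if n.bodd then (r1 A t ht n.div2)⁻¹ else (r2 A t ht n.div2)⁻¹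

lemma kseq_mem (t : ℝ) (ht : t ∈ A) (n : ℕ) : kseq A t ht n ∈ GP A := by
  unfold kseq
  split_ifs
  · exact (GP A).inv_mem (r1_mem t ht _)
  · exact (GP A).inv_mem (r2_mem t ht _)

lemma kseq_cov (t : ℝ) (ht : t ∈ A) {x : ℝ} (hx : x ≠ t) :
    ∃ n, IsGerm (mobHom ℝ (cm t 0))⁻¹ (kseq A t ht n : ℝ ≃o ℝ) x := by
  set y := 1 / (t - x) with hy
  have h0 : t - x ≠ 0 := sub_ne_zero.2 hx.symm
  have hxy : t - 1 / y = x := by
    rw [hy, one_div_one_div]
    ring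
  have hy0 : y ≠ 0 := one_div_ne_zero h0
  rcases lt_or_gt_of_ne hy0 with hneg | hpos
  · obtain ⟨n, hn⟩ := exists_nat_gt (-(y + 1 / y))
    have hin : y ^ 2 + ((n : ℝ) + 3) * y + 1 < 0 := by
      have h1 : y * ((n : ℝ) + 3) < y * (-(y + 1 / y)) :=
        mul_lt_mul_of_neg_left (by linarith) hneg
      have h2 : y * (-(y + 1 / y)) = -(y ^ 2 + 1) := by field_simp
      rw [h2] at h1
      linarith
    refine ⟨Nat.bit false n, ?_⟩
    have h3 : kseq A t ht (Nat.bit false n) = (r2 A t ht n)⁻¹ := by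
      unfold kseq
      rw [Nat.bodd_bit, Nat.div2_bit]
      simp
    rw [h3]
    have h4 := (r2_germ t ht n hin).inv
    have h5 : (r2 A t ht n : ℝ ≃o ℝ) y = x := by
      have h6 := (r2_germ t ht n hin).self_of_nhds
      rw [cm_coe _ _ _ (by rw [sub_zero]; exact hy0), OnePoint.coe_eq_coe, sub_zero, add_zero,
        hxy] at h6
      exact h6.symm
    rw [h5] at h4
    exact h4
  · obtain ⟨n, hn⟩ := exists_nat_gt (y + 1 / y)
    have hin : y ^ 2 - ((n : ℝ) + 3) * y + 1 < 0 := by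
      have h1 : y * (y + 1 / y) < y * ((n : ℝ) + 3) :=
        mul_lt_mul_of_pos_left (by linarith) hpos
      have h2 : y * (y + 1 / y) = y ^ 2 + 1 := by field_simp
      rw [h2] at h1
      linarith
    refine ⟨Nat.bit true n, ?_⟩
    have h3 : kseq A t ht (Nat.bit true n) = (r1 A t ht n)⁻¹ := by
      unfold kseq
      rw [Nat.bodd_bit, Nat.div2_bit]
      simp
    rw [h3]
    have h4 := (r1_germ t ht n hin).inv
    have h5 : (r1 A t ht n : ℝ ≃o ℝ) y = x := by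
      have h6 := (r1_germ t ht n hin).self_of_nhds
      rw [cm_coe _ _ _ (by rw [sub_zero]; exact hy0), OnePoint.coe_eq_coe, sub_zero, add_zero,
        hxy] at h6
      exact h6.symm
    rw [h5] at h4
    exact h4

/-- realisation of the conjugates. -/
def r3 (A : Subring ℝ) (t : ℝ) (ht : t ∈ A) (r : ℝ) (hr : r ∈ A) : PM (LA A) :=
  ⟨trans (r + (t - 3)) * bump 0 * (trans r)⁻¹, (PM (LA A)).mul_mem ((PM (LA A)).mul_mem
    (trans_mem (A.add_mem hr (A.sub_mem ht (by simpa using nat3_mem A 0)))) (bump_mem A 0))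
    ((PM (LA A)).inv_mem (trans_mem hr))⟩

lemma r3_mem (t : ℝ) (ht : t ∈ A) (r : ℝ) (hr : r ∈ A) : r3 A t ht r hr ∈ GP A := by
  show trans (r + (t - 3)) * bump 0 * (trans r)⁻¹ ∈ GA A
  exact (GA A).mul_mem ((GA A).mul_mem
    (trans_GA (A.add_mem hr (A.sub_mem ht (by simpa using nat3_mem A 0)))) (bump_GA A 0))
    ((GA A).inv_mem (trans_GA hr))

lemma r3_germ (t : ℝ) (ht : t ∈ A) (r : ℝ) (hr : r ∈ A) :
    IsGerm (mobHom ℝ (cm t r)) (r3 A t ht r hr : ℝ ≃o ℝ) (1 + r) := by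
  have hc : Continuous fun x : ℝ => (x - r) ^ 2 - (((0 : ℕ) : ℝ) + 3) * (x - r) + 1 := by fun_prop
  have h1 : ∀ᶠ z in 𝓝 (1 + r), (z - r) ^ 2 - (((0 : ℕ) : ℝ) + 3) * (z - r) + 1 < 0 := by
    apply hc.continuousAt.eventually_lt continuousAt_const
    norm_num
  filter_upwards [h1] with z hz
  have hz0 := in_pos (by positivity) hz
  have h2 : (r3 A t ht r hr : ℝ ≃o ℝ) z = bf (((0 : ℕ) : ℝ) + 3) ((trans r)⁻¹ z) + (r + (t - 3)) :=
    rfl
  rw [cm_coe _ _ _ hz0.ne', h2, trans_inv_apply, bf, if_pos hz, OnePoint.coe_eq_coe]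
  push_cast
  ring

end main

/-- For `A ≠ ℤ` the group generated by the translations by `A` and the bumps is not unitarizable. -/
theorem GA_not_UG {A : Subring ℝ} (hA : A ≠ ⊥) : ¬ UG (GA A) := by
  obtain ⟨ε, hε, h0, h1⟩ := exists_small hA
  obtain ⟨m, hm, hinj⟩ := exists_free ε h0 h1
  set t := ε ^ m with ht
  have htA : t ∈ A := A.pow_mem hε m
  have ht2 : |t| < 2 := by
    have h2 : 0 < t := by positivity
    have h3 : t ≤ 1 := pow_le_one₀ h0.le h1.le
    rw [abs_of_pos h2]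
    linarith
  have hmem : ∀ w, ((mobHom ℝ).comp (JJ t)) w ∈ LA A := by
    intro w
    refine ⟨JJ ⟨t, htA⟩ w, ?_⟩
    rw [MonoidHom.comp_apply, map_JJ]
    rfl
  set j : FreeGroup ℕ →* LA A := ((mobHom ℝ).comp (JJ t)).codRestrict (LA A) hmem with hj
  have hjinj : Function.Injective j := by
    intro a b hab
    apply hinj
    exact congrArg Subtype.val hab
  have hjof : ∀ k, (j (FreeGroup.of k) : Equiv.Perm (OnePoint ℝ)) = mobHom ℝ (cm t (rr t k)) := by
    intro k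
    show mobHom ℝ (JJ t (FreeGroup.of k)) = _
    rw [JJ_of]
  have hrr : ∀ k, rr t k ∈ A := by
    intro k
    unfold rr
    split_ifs
    · exact A.zero_mem
    · exact A.pow_mem htA _
  have hcm : cm t 0 = mat t := by
    ext i j
    fin_cases i <;> fin_cases j <;> simp [cm, mat]
  have hc : (j (FreeGroup.of 0) : Equiv.Perm (OnePoint ℝ)) = mobHom ℝ (cm t 0) := hjof 0
  have hmain : ¬ UG (GP A) := by
    refine not_UG (LA_le A) (GP A) j hjinj t ht2 (by rw [hc, hcm]) (hden_A hA) (kseq A t htA)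
      (kseq_mem t htA) ?_ ?_
    · have h2 : ∀ᵐ x : ℝ, x ≠ t := by
        rw [ae_iff]
        simp
      filter_upwards [h2] with x hx
      obtain ⟨n, hn⟩ := kseq_cov t htA hx
      refine ⟨n, ?_⟩
      have h3 : (((j (FreeGroup.of 0))⁻¹ : LA A) : Equiv.Perm (OnePoint ℝ)) =
          (mobHom ℝ (cm t 0))⁻¹ := by
        rw [← hc]
        rfl
      rw [h3]
      exact hn
    · intro n
      refine ⟨(r3 A t htA (rr t (n + 1)) (hrr _))⁻¹, (GP A).inv_mem (r3_mem _ _ _ _),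
        (r3 A t htA (rr t (n + 1)) (hrr _) : ℝ ≃o ℝ) (1 + rr t (n + 1)), ?_⟩
      have h3 : (((j (FreeGroup.of (n + 1)))⁻¹ : LA A) : Equiv.Perm (OnePoint ℝ)) =
          (mobHom ℝ (cm t (rr t (n + 1))))⁻¹ := by
        rw [← hjof]
        rfl
      rw [h3]
      exact (r3_germ t htA (rr t (n + 1)) (hrr _)).inv
  intro hU
  apply hmain
  exact hU.of_injective (Subgroup.subgroupOfEquivOfLe (GA_le A)).toMonoidHom
    (Subgroup.subgroupOfEquivOfLe (GA_le A)).injective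

end

end Pool.W735.Dx
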