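import Pool.Agent.W735.DxFree

/-!
Induced representations.
-/

set_option autoImplicit false
set_option linter.unusedVariables false

open scoped ENNReal

namespace Pool.W735.Dx

noncomputable section

variable {G H : Type} [Group G] [Group H] (j : H →* G)

open Classical in
/-- a section of the quotient map, sending the base point to `1`. -/
def sec (a : G ⧸ j.range) : G := if a = ((1 : G) : G ⧸ j.range) then 1 else a.out

lemma sec_mk (a : G ⧸ j.range) : ((sec j a : G) : G ⧸ j.range) = a := by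
  unfold sec
  split_ifs with h
  · exact h.symm
  · exact QuotientGroup.out_eq' a

lemma sec_one : sec j ((1 : G) : G ⧸ j.range) = 1 := by
  unfold sec
  rw [if_pos rfl]

lemma kap_ex (g : G) (a : G ⧸ j.range) : ∃ h : H, j h = (sec j (g • a))⁻¹ * g * sec j a := by
  have h1 : ((sec j (g • a) : G) : G ⧸ j.range) = ((g * sec j a : G) : G ⧸ j.range) := by
    rw [sec_mk]
    conv_lhs => rw [← sec_mk j a]
    rfl
  have h2 := (QuotientGroup.eq.1 h1)
  rw [← mul_assoc] at h2
  exact h2

/-- the cocycle. -/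
def kap (g : G) (a : G ⧸ j.range) : H := (kap_ex j g a).choose

lemma j_kap (g : G) (a : G ⧸ j.range) : j (kap j g a) = (sec j (g • a))⁻¹ * g * sec j a :=
  (kap_ex j g a).choose_spec

variable (hj : Function.Injective j)
include hj

lemma kap_mul (g g' : G) (a : G ⧸ j.range) :
    kap j (g * g') a = kap j g (g' • a) * kap j g' a := by
  apply hj
  rw [map_mul, j_kap, j_kap, j_kap, mul_smul]
  group

lemma kap_one (a : G ⧸ j.range) : kap j 1 a = 1 := by
  apply hj
  rw [j_kap, one_smul, map_one]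
  group

lemma smul_base (h : H) : j h • ((1 : G) : G ⧸ j.range) = ((1 : G) : G ⧸ j.range) := by
  have : j h • ((1 : G) : G ⧸ j.range) = ((j h * 1 : G) : G ⧸ j.range) := rfl
  rw [this, mul_one]
  symm
  rw [QuotientGroup.eq]
  simp

lemma kap_base (h : H) : kap j (j h) ((1 : G) : G ⧸ j.range) = h := by
  apply hj
  rw [j_kap, smul_base j hj, sec_one]
  simp

omit hj

variable {E : Type} [NormedAddCommGroup E] [NormedSpace ℂ E] (τ : H →* (E →L[ℂ] E))
  (C : ℝ) (hC : 0 ≤ C) (hτ : ∀ h v, ‖τ h v‖ ≤ C * ‖v‖)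
include hC hτ

lemma ind_ex (g : G) :
    ∃ V : lp (fun _ : G ⧸ j.range => E) 2 →L[ℂ] lp (fun _ : G ⧸ j.range => E) 2,
      (∀ φ, ‖V φ‖ ≤ C * ‖φ‖) ∧ ∀ φ b, V φ b = τ (kap j g (g⁻¹ • b)) (φ (g⁻¹ • b)) := by
  obtain ⟨V, h1, h2⟩ := pop_exists (E := E) (ι := G ⧸ j.range) (fun b => some (g⁻¹ • b))
    (by
      intro a b c ha hb
      have h := (Option.some.inj ha).trans (Option.some.inj hb).symm
      exact MulAction.injective g⁻¹ h) (fun b => τ (kap j g (g⁻¹ • b))) C hC
      (fun b v => hτ _ v)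
  exact ⟨V, h1, fun φ b => by rw [h2]; rfl⟩

/-- the induced representation, single operators. -/
def indOp (g : G) : lp (fun _ : G ⧸ j.range => E) 2 →L[ℂ] lp (fun _ : G ⧸ j.range => E) 2 :=
  (ind_ex j τ C hC hτ g).choose

lemma indOp_norm (g : G) (φ : lp (fun _ : G ⧸ j.range => E) 2) :
    ‖indOp j τ C hC hτ g φ‖ ≤ C * ‖φ‖ := (ind_ex j τ C hC hτ g).choose_spec.1 φ

lemma indOp_apply (g : G) (φ : lp (fun _ : G ⧸ j.range => E) 2) (b : G ⧸ j.range) :
    indOp j τ C hC hτ g φ b = τ (kap j g (g⁻¹ • b)) (φ (g⁻¹ • b)) :=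
  (ind_ex j τ C hC hτ g).choose_spec.2 φ b

/-- the induced representation. -/
def ind (hj : Function.Injective j) :
    G →* (lp (fun _ : G ⧸ j.range => E) 2 →L[ℂ] lp (fun _ : G ⧸ j.range => E) 2) where
  toFun g := indOp j τ C hC hτ g
  map_one' := by
    ext φ b
    rw [indOp_apply, inv_one, one_smul, kap_one j hj, map_one]
    rfl
  map_mul' g g' := by
    ext φ b
    show _ = (indOp j τ C hC hτ g (indOp j τ C hC hτ g' φ)) b
    rw [indOp_apply, indOp_apply, indOp_apply, kap_mul j hj, map_mul, mul_inv_rev, mul_smul,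
      smul_inv_smul]
    rfl

lemma ind_norm (hj : Function.Injective j) (g : G) (φ : lp (fun _ : G ⧸ j.range => E) 2) :
    ‖ind j τ C hC hτ hj g φ‖ ≤ C * ‖φ‖ := indOp_norm j τ C hC hτ g φ

omit hC hτ in
open Classical in
/-- the embedding of the inducing space. -/
def emb : E →L[ℂ] lp (fun _ : G ⧸ j.range => E) 2 :=
  lp.singleContinuousLinearMap ℂ (fun _ : G ⧸ j.range => E) 2 ((1 : G) : G ⧸ j.range)

omit hC hτ in
lemma emb_norm (v : E) : ‖emb j v‖ = ‖v‖ := by
  classical
  unfold emb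
  rw [lp.singleContinuousLinearMap_apply]
  convert lp.norm_single (E := fun _ : G ⧸ j.range => E) (p := 2) (by simp) _ v

lemma ind_emb (hj : Function.Injective j) (h : H) (v : E) :
    ind j τ C hC hτ hj (j h) (emb j v) = emb j (τ h v) := by
  classical
  apply lp.ext
  funext b
  show (indOp j τ C hC hτ (j h) (emb j v)) b = _
  rw [indOp_apply]
  unfold emb
  rw [lp.singleContinuousLinearMap_apply, lp.singleContinuousLinearMap_apply]
  by_cases hb : b = ((1 : G) : G ⧸ j.range)
  · subst hb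
    have h1 : (j h)⁻¹ • ((1 : G) : G ⧸ j.range) = ((1 : G) : G ⧸ j.range) := by
      rw [← map_inv]
      exact smul_base j hj _
    rw [h1, kap_base j hj]
    simp
  · have h1 : (j h)⁻¹ • b ≠ ((1 : G) : G ⧸ j.range) := by
      intro h2
      apply hb
      rw [inv_smul_eq_iff, smul_base j hj] at h2
      exact h2
    rw [lp.single_apply_ne (E := fun _ : G ⧸ j.range => E) 2 _ v h1,
      lp.single_apply_ne (E := fun _ : G ⧸ j.range => E) 2 _ _ hb, map_zero]

end

end Pool.W735.Dx
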