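import Pool.Agent.W735.DxOps

/-!
Locality: an operator `T` on `L²(ℝ; K)` which is invariant under enough elements supported in intervals
commutes with multiplication by indicator functions.
-/

set_option autoImplicit false
set_option linter.unusedVariables false
set_option linter.unusedSectionVars false

open scoped Topology InnerProductSpace
open MeasureTheory Filter

namespace Pool.W735.Dx

noncomputable section

section good

variable {K : Type*} [NormedAddCommGroup K] [InnerProductSpace ℂ K]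

/-- `T` commutes with the indicator of `B`, weak form. -/
def Good (T : LL2 K →L[ℂ] LL2 K) (B : Set ℝ) : Prop :=
  ∀ f g : LL2 K, ∫ x in B, ⟪f x, (T g) x⟫_ℂ = ∫ x in B, ⟪(T f) x, g x⟫_ℂ

variable {T : LL2 K →L[ℂ] LL2 K} (hsa : ∀ f g, ⟪f, T g⟫_ℂ = ⟪T f, g⟫_ℂ)
include hsa

lemma Good.comm {B : Set ℝ} (hB : MeasurableSet B) (h : Good T B) (g : LL2 K) :
    T (Ei B hB g) = Ei B hB (T g) := by
  apply ext_inner_left ℂ
  intro f
  rw [hsa, inner_Ei_right B hB, inner_Ei_right B hB]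
  exact (h f g).symm

lemma Good.of_comm {B : Set ℝ} (hB : MeasurableSet B) (h : ∀ g, T (Ei B hB g) = Ei B hB (T g)) :
    Good T B := by
  intro f g
  rw [← inner_Ei_right B hB, ← inner_Ei_right B hB, ← h, hsa]

lemma Good.compl {B : Set ℝ} (hB : MeasurableSet B) (h : Good T B) : Good T Bᶜ := by
  apply Good.of_comm hsa hB.compl
  intro g
  rw [Ei_compl B hB, Ei_compl B hB, map_sub, h.comm hsa hB]

lemma Good.inter {B B' : Set ℝ} (hB : MeasurableSet B) (hB' : MeasurableSet B') (h : Good T B)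
    (h' : Good T B') : Good T (B ∩ B') := by
  apply Good.of_comm hsa (hB.inter hB')
  intro g
  rw [← Ei_Ei B B' hB hB', h.comm hsa hB, h'.comm hsa hB', Ei_Ei]

omit hsa in
lemma good_empty : Good T ∅ := by
  intro f g
  simp

omit hsa in
lemma good_null {B : Set ℝ} (hB : volume B = 0) : Good T B := by
  intro f g
  rw [Measure.restrict_eq_zero.2 hB]
  simp

omit hsa in
lemma good_iUnion {B : ℕ → Set ℝ} (hB : ∀ n, MeasurableSet (B n))
    (hd : Pairwise (Function.onFun Disjoint B)) (h : ∀ n, Good T (B n)) : Good T (⋃ n, B n) := by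
  intro f g
  rw [integral_iUnion hB hd (L2.integrable_inner (𝕜 := ℂ) f (T g)).integrableOn,
    integral_iUnion hB hd (L2.integrable_inner (𝕜 := ℂ) (T f) g).integrableOn]
  congr 1
  funext n
  exact h n f g

/-- the Dynkin system of good measurable sets. -/
def goodD : MeasurableSpace.DynkinSystem ℝ where
  Has B := MeasurableSet B ∧ Good T B
  has_empty := ⟨MeasurableSet.empty, good_empty⟩
  has_compl := fun h => ⟨h.1.compl, h.2.compl hsa h.1⟩
  has_iUnion_nat := fun hd h => ⟨MeasurableSet.iUnion fun i => (h i).1,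
    good_iUnion (fun i => (h i).1) hd fun i => (h i).2⟩

theorem good_all (hbase : ∀ x : ℝ, ∀ ε > 0, ∃ U : Set ℝ, IsOpen U ∧ Good T U ∧ x ∈ U ∧
    U ⊆ Set.Ioo (x - ε) (x + ε)) (B : Set ℝ) (hB : MeasurableSet B) : Good T B := by
  have hi : ∀ s₁ s₂, (goodD hsa).Has s₁ → (goodD hsa).Has s₂ → (goodD hsa).Has (s₁ ∩ s₂) :=
    fun s₁ s₂ h1 h2 => ⟨h1.1.inter h2.1, h1.2.inter hsa h1.1 h2.1 h2.2⟩
  have hbas : TopologicalSpace.IsTopologicalBasis {U : Set ℝ | IsOpen U ∧ Good T U} := by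
    apply TopologicalSpace.isTopologicalBasis_of_isOpen_of_nhds
    · intro u hu
      exact hu.1
    · intro a u ha hu
      obtain ⟨ε, hε, hεu⟩ := Metric.isOpen_iff.1 hu a ha
      obtain ⟨U, h1, h2, h3, h4⟩ := hbase a ε hε
      refine ⟨U, ⟨h1, h2⟩, h3, h4.trans ?_⟩
      rw [← Real.ball_eq_Ioo]
      exact hεu
  have h1 : borel ℝ ≤ (goodD hsa).toMeasurableSpace hi := by
    rw [hbas.borel_eq_generateFrom]
    apply MeasurableSpace.generateFrom_le
    intro U hU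
    exact ⟨hU.1.measurableSet, hU.2⟩
  have h2 : MeasurableSet[borel ℝ] B := by
    rw [← BorelSpace.measurable_eq]
    exact hB
  exact (h1 B h2).2

end good

section iter

/-- iterates of a map moving points to the right. -/
lemma tendsto_iter {h : ℝ ≃o ℝ} {a b : ℝ} (ha : h a = a) (hb : h b = b)
    (hup : ∀ x ∈ Set.Ioo a b, x < h x) {u : ℝ} (hu : u ∈ Set.Ioo a b) :
    Tendsto (fun n => h^[n] u) atTop (𝓝 b) := by
  have hmem : ∀ n, h^[n] u ∈ Set.Ioo a b := by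
    intro n
    induction n with
    | zero => exact hu
    | succ n ih =>
      rw [Function.iterate_succ_apply']
      constructor
      · rw [← ha]
        exact h.strictMono ih.1
      · rw [← hb]
        exact h.strictMono ih.2
  have hmono : Monotone (fun n => h^[n] u) := by
    apply monotone_nat_of_le_succ
    intro n
    rw [Function.iterate_succ_apply']
    exact (hup _ (hmem n)).le
  have hbdd : BddAbove (Set.range (fun n => h^[n] u)) := by
    refine ⟨b, ?_⟩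
    rintro _ ⟨n, rfl⟩
    exact (hmem n).2.le
  have hlim := tendsto_atTop_ciSup hmono hbdd
  set L := ⨆ n, h^[n] u with hL
  have hfix : h L = L := isFixedPt_of_tendsto_iterate hlim (OrderIso.continuous h).continuousAt
  have h1 : L ≤ b := ciSup_le fun n => (hmem n).2.le
  have h2 : a < L := lt_of_lt_of_le hu.1 (le_ciSup hbdd 0)
  have h3 : L = b := by
    by_contra hne
    have h4 := hup L ⟨h2, lt_of_le_of_ne h1 hne⟩
    rw [hfix] at h4
    exact lt_irrefl _ h4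
  rw [h3] at hlim
  exact hlim

end iter

section bump

variable {Λ : Subgroup (Equiv.Perm (OnePoint ℝ))} (hΛ : Λ ≤ (mobHom ℝ).range)
  {K : Type*} [NormedAddCommGroup K] [InnerProductSpace ℂ K] (ρ : Λ →* (K →L[ℂ] K))
  (C : ℝ) (hC : 0 ≤ C) (hρ : ∀ γ v, ‖ρ γ v‖ ≤ C * ‖v‖)
include hΛ hC hρ

lemma W_Ei (k : PM Λ) (J : Set ℝ) (hJ : MeasurableSet J) (f : LL2 K)
    (hJ' : MeasurableSet (((k : ℝ ≃o ℝ) : ℝ → ℝ) ⁻¹' J)) :
    W hΛ ρ C hC hρ k (Ei J hJ f) = Ei (((k : ℝ ≃o ℝ) : ℝ → ℝ) ⁻¹' J) hJ' (W hΛ ρ C hC hρ k f) := by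
  apply Lp.ext
  refine (W_coe hΛ ρ C hC hρ k _).trans ?_
  refine (wf_congr hΛ ρ k (Ei_coe J hJ f)).trans ?_
  refine EventuallyEq.symm ((Ei_coe _ _ _).trans ?_)
  filter_upwards [W_coe hΛ ρ C hC hρ k f] with x hx
  by_cases h : (k : ℝ ≃o ℝ) x ∈ J
  · rw [Set.indicator_of_mem (by exact h), hx, wf, wf, Set.indicator_of_mem h]
  · rw [Set.indicator_of_notMem (by exact h), wf, Set.indicator_of_notMem h, map_zero, smul_zero]

/-- if `k` is the identity on `B` then `W k` acts trivially over `B`. -/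
lemma W_id (k : PM Λ) (B : Set ℝ) (hB : MeasurableSet B)
    (h : ∀ᵐ x : ℝ, x ∈ B → ((k : ℝ ≃o ℝ) : ℝ → ℝ) =ᶠ[𝓝 x] id) (f : LL2 K) :
    Ei B hB (W hΛ ρ C hC hρ k f) = Ei B hB f := by
  apply Lp.ext
  filter_upwards [Ei_coe B hB (W hΛ ρ C hC hρ k f), Ei_coe B hB f, W_coe hΛ ρ C hC hρ k f, h]
    with x h1 h2 h3 h4
  rw [h1, h2]
  by_cases hx : x ∈ B
  · rw [Set.indicator_of_mem hx, Set.indicator_of_mem hx, h3]
    unfold wf
    have h5 : germ Λ (k : ℝ ≃o ℝ) x = 1 := by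
      apply germ_eq hΛ
      filter_upwards [h4 hx] with z hz
      rw [hz]
      rfl
    have h6 : deriv (k : ℝ ≃o ℝ) x = 1 := by
      rw [(h4 hx).deriv_eq]
      exact deriv_id x
    have h7 : (k : ℝ ≃o ℝ) x = x := (h4 hx).self_of_nhds
    rw [h5, h6, h7]
    simp
  · rw [Set.indicator_of_notMem hx, Set.indicator_of_notMem hx]

variable {T : LL2 K →L[ℂ] LL2 K} (hsa : ∀ f g, ⟪f, T g⟫_ℂ = ⟪T f, g⟫_ℂ)
  (G : Subgroup (PM Λ))
  (hT : ∀ k ∈ G, ∀ f g, ⟪W hΛ ρ C hC hρ k f, T (W hΛ ρ C hC hρ k g)⟫_ℂ = ⟪f, T g⟫_ℂ)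
include hsa hT

lemma iter_coe (h : PM Λ) (n : ℕ) (x : ℝ) : ((h ^ n : PM Λ) : ℝ ≃o ℝ) x = (h : ℝ ≃o ℝ)^[n] x := by
  induction n with
  | zero => rfl
  | succ n ih =>
    rw [Function.iterate_succ_apply', ← ih, pow_succ']
    rfl

lemma bump_zero (h : PM Λ) (hh : h ∈ G) {a b : ℝ} (hab : a < b)
    (hfix : ∀ x, x ∉ Set.Ioo a b → (h : ℝ ≃o ℝ) x = x)
    (hup : ∀ x ∈ Set.Ioo a b, x < (h : ℝ ≃o ℝ) x) (f g : LL2 K) :
    ⟪Ei (Set.Ioo a b) measurableSet_Ioo f,
      T (Ei (Set.Ioo a b)ᶜ measurableSet_Ioo.compl g)⟫_ℂ = 0 := by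
  set I := Set.Ioo a b with hI
  set ψ := T (Ei Iᶜ measurableSet_Ioo.compl g) with hψ
  have ha : (h : ℝ ≃o ℝ) a = a := hfix a (by simp [hI])
  have hb : (h : ℝ ≃o ℝ) b = b := hfix b (by simp [hI])
  -- iterates fix the complement
  have hfixn : ∀ n : ℕ, ∀ x, x ∉ I → (((h ^ n)⁻¹ : PM Λ) : ℝ ≃o ℝ) x = x := by
    intro n x hx
    have h1 : ((h ^ n : PM Λ) : ℝ ≃o ℝ) x = x := by
      rw [iter_coe hΛ ρ C hC hρ hsa G hT]
      exact Function.iterate_fixed (hfix x hx) n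
    have h2 : (((h ^ n)⁻¹ : PM Λ) : ℝ ≃o ℝ) (((h ^ n : PM Λ) : ℝ ≃o ℝ) x) = x :=
      OrderIso.symm_apply_apply _ x
    rwa [h1] at h2
  have hmem : ∀ n, (h ^ n)⁻¹ ∈ G := fun n => G.inv_mem (G.pow_mem hh n)
  -- `W (h^-n)` fixes functions supported off `I`
  have hWfix : ∀ n : ℕ, W hΛ ρ C hC hρ (h ^ n)⁻¹ (Ei Iᶜ measurableSet_Ioo.compl g) =
      Ei Iᶜ measurableSet_Ioo.compl g := by
    intro n
    have hpre : (((((h ^ n)⁻¹ : PM Λ) : ℝ ≃o ℝ) : ℝ → ℝ) ⁻¹' Iᶜ) = Iᶜ := by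
      ext x
      constructor
      · intro hx hxI
        apply hx
        constructor
        · rw [← hfixn n a (by simp [hI])]
          exact OrderIso.strictMono _ hxI.1
        · rw [← hfixn n b (by simp [hI])]
          exact OrderIso.strictMono _ hxI.2
      · intro hx
        rw [Set.mem_preimage, hfixn n x hx]
        exact hx
    have h1 := W_Ei hΛ ρ C hC hρ (h ^ n)⁻¹ Iᶜ measurableSet_Ioo.compl g
      (by rw [hpre]; exact measurableSet_Ioo.compl)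
    have h2 : ∀ (A : Set ℝ) (hA : MeasurableSet A), A = Iᶜ → ∀ F : LL2 K,
        Ei A hA F = Ei Iᶜ measurableSet_Ioo.compl F := by
      intro A hA hAI F
      subst hAI
      rfl
    rw [h2 _ _ hpre] at h1
    rw [h1]
    apply W_id
    have h3 : ∀ᵐ x : ℝ, x ∉ ({a, b} : Set ℝ) := by
      rw [ae_iff]
      simp only [not_not]
      exact (Set.toFinite ({a, b} : Set ℝ)).measure_zero volume
    filter_upwards [h3] with x hx hxI
    have h4 : (Set.Icc a b)ᶜ ∈ 𝓝 x := by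
      apply isClosed_Icc.isOpen_compl.mem_nhds
      intro hx'
      apply hxI
      simp only [Set.mem_insert_iff, Set.mem_singleton_iff, not_or] at hx
      exact ⟨lt_of_le_of_ne hx'.1 (Ne.symm hx.1), lt_of_le_of_ne hx'.2 hx.2⟩
    filter_upwards [h4] with z hz
    exact hfixn n z (fun hz' => hz ⟨hz'.1.le, hz'.2.le⟩)
  -- compact subintervals
  have hJ : ∀ u v : ℝ, a < u → v < b → u ≤ v → ∫ x in Set.Icc u v, ⟪f x, ψ x⟫_ℂ = 0 := by
    intro u v hau hvb huv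
    rw [← inner_Ei_left _ measurableSet_Icc]
    have hu : u ∈ Set.Ioo a b := ⟨hau, lt_of_le_of_lt huv hvb⟩
    have hv : v ∈ Set.Ioo a b := ⟨lt_of_lt_of_le hau huv, hvb⟩
    have hB : ∀ n : ℕ, (((((h ^ n)⁻¹ : PM Λ) : ℝ ≃o ℝ) : ℝ → ℝ) ⁻¹' Set.Icc u v) =
        Set.Icc ((h : ℝ ≃o ℝ)^[n] u) ((h : ℝ ≃o ℝ)^[n] v) := by
      intro n
      ext x
      have h5 : ∀ y z : ℝ, y ≤ (((h ^ n)⁻¹ : PM Λ) : ℝ ≃o ℝ) z ↔ ((h ^ n : PM Λ) : ℝ ≃o ℝ) y ≤ z :=
        fun y z => OrderIso.le_symm_apply _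
      have h6 : ∀ y z : ℝ, (((h ^ n)⁻¹ : PM Λ) : ℝ ≃o ℝ) z ≤ y ↔ z ≤ ((h ^ n : PM Λ) : ℝ ≃o ℝ) y :=
        fun y z => OrderIso.symm_apply_le _
      rw [Set.mem_preimage, Set.mem_Icc, Set.mem_Icc, h5, h6,
        iter_coe hΛ ρ C hC hρ hsa G hT, iter_coe hΛ ρ C hC hρ hsa G hT]
    have hBm : ∀ n : ℕ, MeasurableSet
        (((((h ^ n)⁻¹ : PM Λ) : ℝ ≃o ℝ) : ℝ → ℝ) ⁻¹' Set.Icc u v) := by
      intro n
      rw [hB]
      exact measurableSet_Icc
    have hvol : Tendsto (fun n => volume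
        (((((h ^ n)⁻¹ : PM Λ) : ℝ ≃o ℝ) : ℝ → ℝ) ⁻¹' Set.Icc u v)) atTop (𝓝 0) := by
      simp_rw [hB, Real.volume_Icc]
      have h7 := (tendsto_iter ha hb hup hv).sub (tendsto_iter ha hb hup hu)
      rw [sub_self] at h7
      have h8 := (ENNReal.continuous_ofReal.tendsto _).comp h7
      rw [ENNReal.ofReal_zero] at h8
      exact h8
    have h9 := tendsto_Ei _ hBm ψ hvol
    have h10 : ∀ n, ‖⟪Ei (Set.Icc u v) measurableSet_Icc f, ψ⟫_ℂ‖ ≤
        (C * ‖f‖) * ‖Ei _ (hBm n) ψ‖ := by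
      intro n
      rw [hψ, ← hT _ (hmem n), hWfix n, W_Ei hΛ ρ C hC hρ _ _ _ _ (hBm n), inner_Ei_comm]
      refine (norm_inner_le_norm _ _).trans ?_
      gcongr
      exact W_norm hΛ ρ C hC hρ _ f
    have h11 : Tendsto (fun n => (C * ‖f‖) * ‖Ei _ (hBm n) ψ‖) atTop (𝓝 0) := by
      have := h9.const_mul (C * ‖f‖)
      rwa [mul_zero] at this
    have h12 : ‖⟪Ei (Set.Icc u v) measurableSet_Icc f, ψ⟫_ℂ‖ ≤ 0 :=
      ge_of_tendsto' h11 h10
    exact norm_le_zero_iff.1 h12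
  -- exhaustion
  rw [inner_Ei_left]
  set J : ℕ → Set ℝ := fun n => Set.Icc (a + (b - a) / (n + 2)) (b - (b - a) / (n + 2)) with hJdef
  have hpos : 0 < b - a := by linarith
  have hn2 : ∀ n : ℕ, (0 : ℝ) < n + 2 := fun n => by positivity
  have hmono : Monotone J := by
    intro n m hnm x hx
    have h1 : (b - a) / ((m : ℝ) + 2) ≤ (b - a) / ((n : ℝ) + 2) := by
      apply div_le_div_of_nonneg_left hpos.le (hn2 n)
      have : (n : ℝ) ≤ m := by exact_mod_cast hnm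
      linarith
    exact ⟨by linarith [hx.1], by linarith [hx.2]⟩
  have hUn : (⋃ n, J n) = I := by
    ext x
    constructor
    · intro hx
      obtain ⟨n, hn⟩ := Set.mem_iUnion.1 hx
      have h1 : 0 < (b - a) / ((n : ℝ) + 2) := div_pos hpos (hn2 n)
      exact ⟨by linarith [hn.1], by linarith [hn.2]⟩
    · intro hx
      rw [Set.mem_iUnion]
      have hm : 0 < min (x - a) (b - x) := lt_min (by linarith [hx.1]) (by linarith [hx.2])
      obtain ⟨n, hn⟩ := exists_nat_gt ((b - a) / min (x - a) (b - x))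
      refine ⟨n, ?_⟩
      have h1 : (b - a) / ((n : ℝ) + 2) ≤ min (x - a) (b - x) := by
        rw [div_le_iff₀ (hn2 n)]
        rw [div_lt_iff₀ hm] at hn
        nlinarith
      exact ⟨by linarith [min_le_left (x - a) (b - x)], by linarith [min_le_right (x - a) (b - x)]⟩
  have hlim := tendsto_setIntegral_of_monotone (μ := volume) (f := fun x => ⟪f x, ψ x⟫_ℂ)
    (fun n => (measurableSet_Icc : MeasurableSet (J n))) hmono
    (L2.integrable_inner (𝕜 := ℂ) f ψ).integrableOn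
  rw [hUn] at hlim
  have hzero : ∀ n, ∫ x in J n, ⟪f x, ψ x⟫_ℂ = 0 := by
    intro n
    have h1 : 0 < (b - a) / ((n : ℝ) + 2) := div_pos hpos (hn2 n)
    have h2 : (b - a) / ((n : ℝ) + 2) ≤ (b - a) / 2 := by
      apply div_le_div_of_nonneg_left hpos.le (by norm_num)
      have : (0 : ℝ) ≤ n := Nat.cast_nonneg n
      linarith
    apply hJ
    · linarith
    · linarith
    · linarith
  exact (tendsto_nhds_unique hlim (tendsto_const_nhds.congr fun n => (hzero n).symm))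

/-- the interval of a bump is good. -/
theorem bump_good (h : PM Λ) (hh : h ∈ G) {a b : ℝ} (hab : a < b)
    (hfix : ∀ x, x ∉ Set.Ioo a b → (h : ℝ ≃o ℝ) x = x)
    (hup : ∀ x ∈ Set.Ioo a b, x < (h : ℝ ≃o ℝ) x) : Good T (Set.Ioo a b) := by
  have h1 := bump_zero hΛ ρ C hC hρ hsa G hT h hh hab hfix hup
  set I := Set.Ioo a b with hI
  have hm : MeasurableSet I := measurableSet_Ioo
  have h2 : ∀ f g : LL2 K, ⟪Ei Iᶜ hm.compl f, T (Ei I hm g)⟫_ℂ = 0 := by
    intro f g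
    rw [hsa, ← inner_conj_symm, h1, map_zero]
  intro f g
  rw [← inner_Ei_left I hm, ← inner_Ei_right I hm, ← hsa]
  have h3 : ∀ F : LL2 K, F = Ei I hm F + Ei Iᶜ hm.compl F := by
    intro F
    rw [Ei_compl I hm]
    abel
  calc ⟪Ei I hm f, T g⟫_ℂ = ⟪Ei I hm f, T (Ei I hm g + Ei Iᶜ hm.compl g)⟫_ℂ := by rw [← h3]
    _ = ⟪Ei I hm f, T (Ei I hm g)⟫_ℂ := by rw [map_add, inner_add_right, h1, add_zero]
    _ = ⟪Ei I hm f + Ei Iᶜ hm.compl f, T (Ei I hm g)⟫_ℂ := by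
        rw [inner_add_left, h2, add_zero]
    _ = ⟪f, T (Ei I hm g)⟫_ℂ := by rw [← h3]

end bump

end

end Pool.W735.Dx
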