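import Mathlib

/-!
Operators on `ℓ²(ι; E)` given by a partial injection of `ι` and coefficients.
-/

set_option autoImplicit false
set_option linter.unusedVariables false

open scoped ENNReal

namespace Pool.W735.Dx

noncomputable section

section pop

variable {ι : Type*} {E : Type*} [NormedAddCommGroup E] [NormedSpace ℂ E]

/-- the underlying function. -/
def popF (e : ι → Option ι) (A : ι → E →L[ℂ] E) (φ : ι → E) : ι → E :=
  fun b => (e b).elim 0 (fun a => A b (φ a))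

lemma popF_sum (e : ι → Option ι) (he : ∀ a b c, e a = some c → e b = some c → a = b)
    (A : ι → E →L[ℂ] E) (C : ℝ) (hC : 0 ≤ C) (hA : ∀ a v, ‖A a v‖ ≤ C * ‖v‖)
    (φ : lp (fun _ : ι => E) 2) (s : Finset ι) :
    ∑ b ∈ s, ‖popF e A φ b‖ ^ (2 : ℝ≥0∞).toReal ≤ (C * ‖φ‖) ^ (2 : ℝ≥0∞).toReal := by
  classical
  have h2 : (2 : ℝ≥0∞).toReal = 2 := by simp
  have h1 : ∀ b, ‖popF e A φ b‖ ^ (2 : ℝ≥0∞).toReal ≤
      C ^ 2 * ∑ a ∈ (e b).toFinset, ‖φ a‖ ^ (2 : ℝ≥0∞).toReal := by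
    intro b
    unfold popF
    rcases hb : e b with _ | a
    · simp
    · simp only [Option.elim_some, Option.toFinset_some, Finset.sum_singleton]
      rw [h2, Real.rpow_two, Real.rpow_two, ← mul_pow]
      exact pow_le_pow_left₀ (norm_nonneg _) (hA b _) 2
  have h3 : ∑ b ∈ s, ∑ a ∈ (e b).toFinset, ‖φ a‖ ^ (2 : ℝ≥0∞).toReal =
      ∑ a ∈ s.biUnion (fun b => (e b).toFinset), ‖φ a‖ ^ (2 : ℝ≥0∞).toReal := by
    rw [Finset.sum_biUnion]
    intro a _ b _ hab
    rw [Function.onFun, Finset.disjoint_left]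
    intro c hc hc'
    rw [Option.mem_toFinset, Option.mem_def] at hc hc'
    exact hab (he a b c hc hc')
  calc ∑ b ∈ s, ‖popF e A φ b‖ ^ (2 : ℝ≥0∞).toReal
      ≤ ∑ b ∈ s, C ^ 2 * ∑ a ∈ (e b).toFinset, ‖φ a‖ ^ (2 : ℝ≥0∞).toReal :=
        Finset.sum_le_sum fun b _ => h1 b
    _ = C ^ 2 * ∑ a ∈ s.biUnion (fun b => (e b).toFinset), ‖φ a‖ ^ (2 : ℝ≥0∞).toReal := by
        rw [← Finset.mul_sum, h3]
    _ ≤ C ^ 2 * ‖φ‖ ^ (2 : ℝ≥0∞).toReal := by
        apply mul_le_mul_of_nonneg_left _ (sq_nonneg C)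
        exact lp.sum_rpow_le_norm_rpow (by simp) φ _
    _ = (C * ‖φ‖) ^ (2 : ℝ≥0∞).toReal := by
        rw [h2, Real.rpow_two, Real.rpow_two, mul_pow]

/-- operators on `ℓ²(ι;E)` -/
theorem pop_exists (e : ι → Option ι) (he : ∀ a b c, e a = some c → e b = some c → a = b)
    (A : ι → E →L[ℂ] E) (C : ℝ) (hC : 0 ≤ C) (hA : ∀ a v, ‖A a v‖ ≤ C * ‖v‖) :
    ∃ V : lp (fun _ : ι => E) 2 →L[ℂ] lp (fun _ : ι => E) 2,
      (∀ φ, ‖V φ‖ ≤ C * ‖φ‖) ∧ ∀ φ b, V φ b = (e b).elim 0 (fun a => A b (φ a)) := by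
  have hm : ∀ φ : lp (fun _ : ι => E) 2, Memℓp (popF e A φ) 2 := fun φ =>
    memℓp_gen' (popF_sum e he A C hC hA φ)
  let L : lp (fun _ : ι => E) 2 →ₗ[ℂ] lp (fun _ : ι => E) 2 :=
    { toFun := fun φ => ⟨popF e A φ, hm φ⟩
      map_add' := by
        intro φ ψ
        apply lp.ext
        funext b
        show popF e A (φ + ψ : lp (fun _ : ι => E) 2) b = popF e A φ b + popF e A ψ b
        unfold popF
        rcases e b with _ | a <;> simp
      map_smul' := by
        intro c φ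
        apply lp.ext
        funext b
        show popF e A (c • φ : lp (fun _ : ι => E) 2) b = c • popF e A φ b
        unfold popF
        rcases e b with _ | a <;> simp }
  have hb : ∀ φ, ‖L φ‖ ≤ C * ‖φ‖ := fun φ =>
    lp.norm_le_of_forall_sum_le (by simp) (by positivity) (popF_sum e he A C hC hA φ)
  exact ⟨L.mkContinuous C hb, fun φ => hb φ, fun φ b => rfl⟩

end pop

/-- two continuous linear maps agreeing on the basis are equal. -/
lemma ext_single {ι : Type*} [DecidableEq ι] {E : Type*} [NormedAddCommGroup E] [NormedSpace ℂ E]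
    {F : Type*} [NormedAddCommGroup F] [NormedSpace ℂ F]
    (V W : lp (fun _ : ι => E) 2 →L[ℂ] F)
    (h : ∀ i (x : E), V (lp.single 2 i x) = W (lp.single 2 i x)) : V = W := by
  apply lp.ext_continuousLinearMap (by simp)
  intro i
  ext x
  exact h i x

end

end Pool.W735.Dx
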