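import Pool.Agent.W735.DxScal

/-!
The general criterion for non-unitarizability.
-/

set_option autoImplicit false
set_option linter.unusedVariables false
set_option linter.unusedSectionVars false

open scoped Topology InnerProductSpace MatrixGroups ENNReal
open MeasureTheory Filter

namespace Pool.W735.Dx

noncomputable section

/-- Every uniformly bounded representation of `G` is unitarizable. -/
def UG (G : Type) [Group G] : Prop :=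
  ∀ (H : Type) [NormedAddCommGroup H] [InnerProductSpace ℂ H] [CompleteSpace H]
    (π : G →* (H →L[ℂ] H)ˣ),
    (∃ C : ℝ, ∀ g : G, ‖((π g : (H →L[ℂ] H)ˣ) : H →L[ℂ] H)‖ ≤ C) →
    ∃ S : (H →L[ℂ] H)ˣ, ∀ g : G,
      star (((S : (H →L[ℂ] H)ˣ) : H →L[ℂ] H) * ((π g : (H →L[ℂ] H)ˣ) : H →L[ℂ] H)
          * ((S⁻¹ : (H →L[ℂ] H)ˣ) : H →L[ℂ] H)) *
        (((S : (H →L[ℂ] H)ˣ) : H →L[ℂ] H) * ((π g : (H →L[ℂ] H)ˣ) : H →L[ℂ] H)
          * ((S⁻¹ : (H →L[ℂ] H)ˣ) : H →L[ℂ] H)) = 1 ∧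
      (((S : (H →L[ℂ] H)ˣ) : H →L[ℂ] H) * ((π g : (H →L[ℂ] H)ˣ) : H →L[ℂ] H)
          * ((S⁻¹ : (H →L[ℂ] H)ˣ) : H →L[ℂ] H)) *
        star (((S : (H →L[ℂ] H)ˣ) : H →L[ℂ] H) * ((π g : (H →L[ℂ] H)ˣ) : H →L[ℂ] H)
          * ((S⁻¹ : (H →L[ℂ] H)ˣ) : H →L[ℂ] H)) = 1

/-- the shift on generators, killing the first one. -/
def qq : FreeGroup ℕ →* FreeGroup ℕ :=
  FreeGroup.lift (fun n => Nat.casesOn n 1 (fun m => FreeGroup.of m))

lemma qq_zero : qq (FreeGroup.of 0) = 1 := by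
  unfold qq
  rw [FreeGroup.lift_apply_of]
  rfl

lemma qq_succ (n : ℕ) : qq (FreeGroup.of (n + 1)) = FreeGroup.of n := by
  unfold qq
  rw [FreeGroup.lift_apply_of]

lemma norm_sum_δ (N : ℕ) (y : ℕ → IX) (hy : Function.Injective y) :
    ‖∑ n ∈ Finset.range N, δ (y n)‖ = Real.sqrt N := by
  have h1 := lp.norm_sum_single (E := fun _ : IX => ℂ) (p := 2) (by simp) (fun _ => (1 : ℂ))
    ((Finset.range N).map ⟨y, hy⟩)
  rw [Finset.sum_map] at h1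
  simp at h1
  have h2 : ‖∑ n ∈ Finset.range N, δ (y n)‖ ^ 2 = N := h1
  rw [← h2, Real.sqrt_sq (norm_nonneg _)]

/-- an invariant positive form from unitarizability. -/
lemma UG.exists_T {G : Type} [Group G] (hU : UG G) {H : Type} [NormedAddCommGroup H]
    [InnerProductSpace ℂ H] [CompleteSpace H] (π0 : G →* (H →L[ℂ] H)) (C : ℝ) (hC : 0 ≤ C)
    (hb : ∀ g x, ‖π0 g x‖ ≤ C * ‖x‖) :
    ∃ T : H →L[ℂ] H, (∀ f g, ⟪f, T g⟫_ℂ = ⟪T f, g⟫_ℂ) ∧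
      (∀ g x y, ⟪π0 g x, T (π0 g y)⟫_ℂ = ⟪x, T y⟫_ℂ) ∧ ∀ x, x ≠ 0 → ⟪x, T x⟫_ℂ ≠ 0 := by
  obtain ⟨S, hS⟩ := hU H π0.toHomUnits ⟨C, fun g =>
    ContinuousLinearMap.opNorm_le_bound _ hC (hb g)⟩
  have hTin : ∀ f g, ⟪f, (star (S : H →L[ℂ] H) * (S : H →L[ℂ] H)) g⟫_ℂ =
      ⟪(S : H →L[ℂ] H) f, (S : H →L[ℂ] H) g⟫_ℂ := by
    intro f g
    rw [mul_apply_eq_comp, ContinuousLinearMap.star_eq_adjoint,
      ContinuousLinearMap.adjoint_inner_right]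
  refine ⟨star (S : H →L[ℂ] H) * S, ?_, ?_, ?_⟩
  · intro f g
    rw [hTin, ← inner_conj_symm, ← hTin, inner_conj_symm]
  · intro g x y
    have h1 := (hS g).1
    have h2 : ((π0.toHomUnits g : (H →L[ℂ] H)ˣ) : H →L[ℂ] H) = π0 g := rfl
    rw [h2] at h1
    have h4 : star (π0 g) * (star (S : H →L[ℂ] H) * S) * π0 g = star (S : H →L[ℂ] H) * S := by
      have h5 : star (π0 g) * (star (S : H →L[ℂ] H) * S) * π0 g =
          star (S : H →L[ℂ] H) * (star ((S : H →L[ℂ] H) * π0 g * ((S⁻¹ : (H →L[ℂ] H)ˣ) : H →L[ℂ] H))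
          * ((S : H →L[ℂ] H) * π0 g * ((S⁻¹ : (H →L[ℂ] H)ˣ) : H →L[ℂ] H))) * S := by
        have e1 : star ((S⁻¹ : (H →L[ℂ] H)ˣ) : H →L[ℂ] H) =
            (((star S)⁻¹ : (H →L[ℂ] H)ˣ) : H →L[ℂ] H) := by
          rw [← Units.coe_star, star_inv]
        rw [star_mul, star_mul, e1, ← Units.coe_star]
        simp only [mul_assoc, Units.inv_mul, mul_one, Units.mul_inv_cancel_left]
      rw [h5, h1, mul_one]
    calc ⟪π0 g x, (star (S : H →L[ℂ] H) * S) (π0 g y)⟫_ℂ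
        = ⟪x, (star (π0 g) * (star (S : H →L[ℂ] H) * S) * π0 g) y⟫_ℂ := by
          rw [mul_apply_eq_comp (star (π0 g) * _), mul_apply_eq_comp (star (π0 g)),
            ContinuousLinearMap.star_eq_adjoint (π0 g), ContinuousLinearMap.adjoint_inner_right]
      _ = ⟪x, (star (S : H →L[ℂ] H) * S) y⟫_ℂ := by rw [h4]
  · intro x hx
    rw [hTin, inner_self_ne_zero]
    intro h0
    apply hx
    have h2 := congrArg (fun x => ((S⁻¹ : (H →L[ℂ] H)ˣ) : H →L[ℂ] H) x) h0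
    simp only [map_zero] at h2
    rw [← mul_apply_eq_comp, Units.inv_mul] at h2
    exact h2

section contra

variable {Λ : Subgroup (Equiv.Perm (OnePoint ℝ))} (hΛ : Λ ≤ (mobHom ℝ).range)
  {K : Type*} [NormedAddCommGroup K] [InnerProductSpace ℂ K] [CompleteSpace K]
  (ρ : Λ →* (K →L[ℂ] K))
  (C : ℝ) (hC : 0 ≤ C) (hρ : ∀ γ v, ‖ρ γ v‖ ≤ C * ‖v‖)
  {T : LL2 K →L[ℂ] LL2 K} (hsa : ∀ f g, ⟪f, T g⟫_ℂ = ⟪T f, g⟫_ℂ)
  (G : Subgroup (PM Λ))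
  (hT : ∀ k ∈ G, ∀ f g, ⟪W hΛ ρ C hC hρ k f, T (W hΛ ρ C hC hρ k g)⟫_ℂ = ⟪f, T g⟫_ℂ)
  (hT0 : ∀ x, x ≠ 0 → ⟪x, T x⟫_ℂ ≠ 0)
  (j : FreeGroup ℕ →* Λ) (hj : Function.Injective j)
  (E : K0 →L[ℂ] K) (hE : ∀ v, ‖E v‖ = ‖v‖) (hρE : ∀ x v, ρ (j x) (E v) = E (tau0 (qq x) v))
  (t : ℝ) (ht : |t| < 2)
  (hc : (j (FreeGroup.of 0) : Equiv.Perm (OnePoint ℝ)) = mobHom ℝ (mat t))
  (hden : ∀ x : ℝ, ∀ ε > 0, ∃ U : Set ℝ, IsOpen U ∧ BSet G U ∧ x ∈ U ∧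
      U ⊆ Set.Ioo (x - ε) (x + ε))
  (ks : ℕ → PM Λ) (hks : ∀ n, ks n ∈ G)
  (hcov : ∀ᵐ x : ℝ, ∃ n, IsGerm (((j (FreeGroup.of 0))⁻¹ : Λ) : Equiv.Perm (OnePoint ℝ))
      (ks n : ℝ ≃o ℝ) x)
  (hmove : ∀ n : ℕ, ∃ k : PM Λ, k ∈ G ∧ ∃ x : ℝ,
      IsGerm (((j (FreeGroup.of (n + 1)))⁻¹ : Λ) : Equiv.Perm (OnePoint ℝ)) (k : ℝ ≃o ℝ) x)

lemma phi_ne : phi t ht ≠ 0 := by
  intro h0
  have h1 := phi_coe t ht
  rw [h0] at h1
  have h2 : ∀ᵐ x : ℝ, False := by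
    filter_upwards [h1, Lp.coeFn_zero ℂ 2 (volume : Measure ℝ)] with x h4 h5
    rw [h5] at h4
    exact (phi0_pos t ht x).ne' (Complex.ofReal_eq_zero.1 h4.symm)
  rw [eventually_false_iff_eq_bot, ae_eq_bot] at h2
  exact (NeZero.ne (volume : Measure ℝ)) h2

lemma Ei_phi_ne (B : Set ℝ) (hB : IsOpen B) (hne : B.Nonempty) :
    Ei B hB.measurableSet (phi t ht) ≠ 0 := by
  intro h0
  have h1 := Ei_coe _ hB.measurableSet (phi t ht)
  rw [h0] at h1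
  have h2 : ∀ᵐ y : ℝ, y ∉ B := by
    filter_upwards [h1, Lp.coeFn_zero ℂ 2 (volume : Measure ℝ), phi_coe t ht] with y h4 h5 h6 h7
    rw [h5, Set.indicator_of_mem h7, h6] at h4
    exact (phi0_pos t ht y).ne' (Complex.ofReal_eq_zero.1 h4.symm)
  rw [ae_iff] at h2
  simp only [not_not] at h2
  have h4 := hB.measure_pos (volume : Measure ℝ) hne
  exact h4.ne' h2

/-- the scalar attached to a pair of vectors. -/
def QQ (T : LL2 K →L[ℂ] LL2 K) (w v : K) : ℂ :=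
  ⟪tens w (phi t ht), T (tens v (phi t ht))⟫_ℂ / ⟪phi t ht, phi t ht⟫_ℂ

include hj in
lemma j_ord : ∀ n : ℕ, 0 < n → (j (FreeGroup.of 0)) ^ n ≠ 1 := by
  intro n hn h0
  rw [← map_pow, ← map_one j] at h0
  have h1 := hj h0
  have h2 := congrArg (FreeGroup.lift (fun _ : ℕ => Multiplicative.ofAdd (1 : ℤ))) h1
  rw [map_pow, FreeGroup.lift_apply_of] at h2
  have h3 := congrArg Multiplicative.toAdd h2
  simp at h3
  omega

include hΛ hC hρ hsa hT hj hρE hc hks hcov hden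

lemma QQ_eq (w v : K0) (f g : LL2 ℂ) : ⟪tens (E w) g, T (tens (E v) f)⟫_ℂ =
      QQ t ht T (E w) (E v) * ⟪g, f⟫_ℂ := by
  have hall := all_good hΛ ρ C hC hρ hsa G hT hden
  have hfix : ∀ v : K0, ρ (j (FreeGroup.of 0)) (E v) = E v := by
    intro v
    rw [hρE, qq_zero, map_one]
    rfl
  obtain ⟨q, hq⟩ := coef_scalar hΛ ρ C hC hρ hsa G hT hall t ht (j (FreeGroup.of 0)) hc
    (j_ord j hj) ks hks hcov (E v) (E w) (hfix v) (hfix w)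
  have h1 : ∀ f g, ⟪tens (E w) g, T (tens (E v) f)⟫_ℂ = q * ⟪g, f⟫_ℂ := by
    intro f g
    rw [← coef_inner, hq, inner_smul_right]
  have h2 : QQ t ht T (E w) (E v) = q := by
    unfold QQ
    rw [h1, mul_div_cancel_right₀]
    rw [inner_self_ne_zero]
    exact phi_ne t ht
  rw [h2, h1]

include hmove ht in
lemma QQ_inv (n : ℕ) (w v : K0) : QQ t ht T (E (tau0 (FreeGroup.of n) w))
      (E (tau0 (FreeGroup.of n) v)) = QQ t ht T (E w) (E v) := by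
  have hall := all_good hΛ ρ C hC hρ hsa G hT hden
  have hmv : ∀ (n : ℕ) (v : K0), ρ (j (FreeGroup.of (n + 1))) (E v) =
      E (tau0 (FreeGroup.of n) v) := by
    intro n v
    rw [hρE, qq_succ]
  obtain ⟨k, hk, x, hx⟩ := hmove n
  have hBo := germSet_open hΛ ρ C hC hρ (j (FreeGroup.of (n + 1)))⁻¹ k
  have hB0 := Ei_phi_ne t ht _ hBo ⟨x, hx⟩
  have h5 := coef_move hΛ ρ C hC hρ hsa G hT hall k hk (j (FreeGroup.of (n + 1)))
    (E v) (E w) _ hBo.measurableSet (fun x hx => hx) (phi t ht) hB0 (QQ t ht T)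
    (QQ_eq hΛ ρ C hC hρ hsa G hT j hj E hρE t ht hc hden ks hks hcov w v)
    (by
      rw [hmv, hmv]
      exact QQ_eq hΛ ρ C hC hρ hsa G hT j hj E hρE t ht hc hden ks hks hcov _ _)
  rw [hmv, hmv] at h5
  exact h5

include hmove hE hT0 ht in
theorem contra : False := by
  set φ := phi t ht with hφ
  have hφ0 : ⟪φ, φ⟫_ℂ ≠ 0 := by
    rw [inner_self_ne_zero]
    exact phi_ne t ht
  set e1 := δ ((1 : FG), false) with he1
  set f1 := δ ((1 : FG), true) with hf1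
  set A : ℂ := ⟪tens (E e1) φ, T (tens (E e1) φ)⟫_ℂ with hA
  have hkey : ∀ n : ℕ, A = ⟪tens (E (δ ((FreeGroup.of n : FG)⁻¹, false))) φ,
      T (tens (E f1) φ)⟫_ℂ - ⟪tens (E e1) φ,
      T (tens (E (δ ((FreeGroup.of n : FG), true))) φ)⟫_ℂ := by
    intro n
    have h1 := QQ_inv hΛ ρ C hC hρ hsa G hT j hj E hρE t ht hc hden ks hks hcov hmove n
      (δ ((FreeGroup.of n : FG)⁻¹, false)) f1
    rw [tau0_false, mul_inv_cancel, hf1, tau0_gen, ← he1, ← hf1] at h1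
    unfold QQ at h1
    rw [div_left_inj' hφ0, map_add, tens_add, map_add, inner_add_right] at h1
    rw [← h1, hA]
    ring
  have hbound : ∀ w v : K0, ‖⟪tens (E w) φ, T (tens (E v) φ)⟫_ℂ‖ ≤
      (‖φ‖ * ‖w‖) * (‖T‖ * (‖φ‖ * ‖v‖)) := by
    intro w v
    refine (norm_inner_le_norm _ _).trans ?_
    have h1 := T.le_opNorm (tens (E v) φ)
    rw [tens_norm, hE] at h1
    rw [tens_norm, hE]
    gcongr
  have hne : ‖e1‖ = 1 := by
    rw [he1]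
    unfold δ
    rw [lp.norm_single (by norm_num)]
    simp
  have hnf : ‖f1‖ = 1 := by
    rw [hf1]
    unfold δ
    rw [lp.norm_single (by norm_num)]
    simp
  have hsum : ∀ N : ℕ, (N : ℝ) * ‖A‖ ≤ 2 * (‖φ‖ * (‖T‖ * ‖φ‖)) * Real.sqrt N := by
    intro N
    have h1 : (N : ℂ) * A = ⟪tens (E (∑ n ∈ Finset.range N,
        δ ((FreeGroup.of n : FG)⁻¹, false))) φ, T (tens (E f1) φ)⟫_ℂ -
        ⟪tens (E e1) φ, T (tens (E (∑ n ∈ Finset.range N,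
          δ ((FreeGroup.of n : FG), true))) φ)⟫_ℂ := by
      rw [map_sum, map_sum, tens_sum, tens_sum, map_sum, sum_inner, inner_sum,
        ← Finset.sum_sub_distrib]
      simp_rw [← hkey]
      simp
    have h2 := norm_sum_δ N (fun n => ((FreeGroup.of n : FG)⁻¹, false)) (by
      intro a b hab
      have := congrArg Prod.fst hab
      exact FreeGroup.of_injective (inv_injective this))
    have h4 := norm_sum_δ N (fun n => ((FreeGroup.of n : FG), true)) (by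
      intro a b hab
      have := congrArg Prod.fst hab
      exact FreeGroup.of_injective this)
    have h5 : (N : ℝ) * ‖A‖ = ‖(N : ℂ) * A‖ := by
      rw [norm_mul]
      simp
    rw [h5, h1]
    refine (norm_sub_le _ _).trans ?_
    have h6 := hbound (∑ n ∈ Finset.range N, δ ((FreeGroup.of n : FG)⁻¹, false)) f1
    have h7 := hbound e1 (∑ n ∈ Finset.range N, δ ((FreeGroup.of n : FG), true))
    rw [h2, hnf] at h6
    rw [h4, hne] at h7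
    linarith
  have hA0 : A ≠ 0 := by
    apply hT0
    intro h1
    have h2 := tens_norm (E e1) φ
    rw [h1, norm_zero, hE, hne, mul_one] at h2
    exact phi_ne t ht (norm_eq_zero.1 h2.symm)
  have hApos : 0 < ‖A‖ := norm_pos_iff.2 hA0
  set D := 2 * (‖φ‖ * (‖T‖ * ‖φ‖)) with hD
  have hD0 : 0 ≤ D := by positivity
  obtain ⟨N, hN⟩ := exists_nat_gt ((D / ‖A‖) ^ 2)
  have h1 := hsum N
  have hNpos : (0 : ℝ) < N := lt_of_le_of_lt (by positivity) hN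
  have h2 : D / ‖A‖ < Real.sqrt N := by
    rw [Real.lt_sqrt (by positivity)]
    exact hN
  rw [div_lt_iff₀ hApos] at h2
  have h4 : 0 < Real.sqrt N := Real.sqrt_pos.2 hNpos
  have h5 : Real.sqrt N * Real.sqrt N = N := Real.mul_self_sqrt hNpos.le
  have h6 : D * Real.sqrt N < (Real.sqrt N * ‖A‖) * Real.sqrt N := by
    exact mul_lt_mul_of_pos_right h2 h4
  nlinarith

end contra

/-- The criterion, abstract form. -/
theorem not_UG_abs {Λ : Subgroup (Equiv.Perm (OnePoint ℝ))} (hΛ : Λ ≤ (mobHom ℝ).range)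
    (G : Subgroup (PM Λ)) (j : FreeGroup ℕ →* Λ) (hj : Function.Injective j)
    (t : ℝ) (ht : |t| < 2)
    (hc : (j (FreeGroup.of 0) : Equiv.Perm (OnePoint ℝ)) = mobHom ℝ (mat t))
    (hden : ∀ x : ℝ, ∀ ε > 0, ∃ U : Set ℝ, IsOpen U ∧ BSet G U ∧ x ∈ U ∧
      U ⊆ Set.Ioo (x - ε) (x + ε))
    (ks : ℕ → PM Λ) (hks : ∀ n, ks n ∈ G)
    (hcov : ∀ᵐ x : ℝ, ∃ n, IsGerm (((j (FreeGroup.of 0))⁻¹ : Λ) : Equiv.Perm (OnePoint ℝ))
      (ks n : ℝ ≃o ℝ) x)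
    (hmove : ∀ n : ℕ, ∃ k : PM Λ, k ∈ G ∧ ∃ x : ℝ,
      IsGerm (((j (FreeGroup.of (n + 1)))⁻¹ : Λ) : Equiv.Perm (OnePoint ℝ)) (k : ℝ ≃o ℝ) x)
    {K : Type} [NormedAddCommGroup K] [InnerProductSpace ℂ K] [CompleteSpace K]
    (ρ : Λ →* (K →L[ℂ] K)) (C : ℝ) (hC : 0 ≤ C) (hρ : ∀ γ v, ‖ρ γ v‖ ≤ C * ‖v‖)
    (E : K0 →L[ℂ] K) (hE : ∀ v, ‖E v‖ = ‖v‖) (hρE : ∀ x v, ρ (j x) (E v) = E (tau0 (qq x) v)) :
    ¬ UG G := by
  intro hU
  obtain ⟨T, hsa, hT, hT0⟩ := hU.exists_T ((piRep hΛ ρ C hC hρ).comp G.subtype) C hC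
    (fun g x => W_norm hΛ _ C hC hρ _ x)
  refine contra hΛ ρ C hC hρ hsa G ?_ hT0 j hj E hE hρE t ht hc hden ks hks hcov hmove
  intro k hk f g
  have h1 := hT (⟨k, hk⟩⁻¹ : G) f g
  have h2 : ((piRep hΛ ρ C hC hρ).comp G.subtype) (⟨k, hk⟩⁻¹ : G) = W hΛ ρ C hC hρ k := by
    show W hΛ _ C hC hρ (k⁻¹)⁻¹ = _
    rw [inv_inv]
  rw [h2] at h1
  exact h1

end

end Pool.W735.Dx
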