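import Pool.Agent.W735.DxMain

set_option autoImplicit false
set_option linter.unusedVariables false
set_option linter.unusedSectionVars false

open scoped Topology InnerProductSpace MatrixGroups ENNReal
open MeasureTheory Filter

namespace Pool.W735.Dx

noncomputable section

lemma exists_rho {Λ : Type} [Group Λ] (j : FreeGroup ℕ →* Λ) (hj : Function.Injective j) :
    ∃ (K : Type) (_ : NormedAddCommGroup K) (_ : InnerProductSpace ℂ K) (_ : CompleteSpace K)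
      (ρ : Λ →* (K →L[ℂ] K)) (E : K0 →L[ℂ] K), (∀ γ v, ‖ρ γ v‖ ≤ 3 * ‖v‖) ∧
      (∀ v, ‖E v‖ = ‖v‖) ∧ ∀ x v, ρ (j x) (E v) = E (tau0 (qq x) v) := by
  have hτ : ∀ h v, ‖(tau0.comp qq) h v‖ ≤ 3 * ‖v‖ := fun h v => tau0_norm _ _
  have h3 : (0 : ℝ) ≤ 3 := by norm_num
  exact ⟨lp (fun _ : Λ ⧸ j.range => K0) 2, inferInstance, inferInstance, inferInstance,
    ind j (tau0.comp qq) 3 h3 hτ hj, emb j, ind_norm j (tau0.comp qq) 3 h3 hτ hj, emb_norm j,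
    fun x v => ind_emb j (tau0.comp qq) 3 h3 hτ hj x v⟩

/-- The criterion. -/
theorem not_UG {Λ : Subgroup (Equiv.Perm (OnePoint ℝ))} (hΛ : Λ ≤ (mobHom ℝ).range)
    (G : Subgroup (PM Λ)) (j : FreeGroup ℕ →* Λ) (hj : Function.Injective j)
    (t : ℝ) (ht : |t| < 2)
    (hc : (j (FreeGroup.of 0) : Equiv.Perm (OnePoint ℝ)) = mobHom ℝ (mat t))
    (hden : ∀ x : ℝ, ∀ ε > 0, ∃ U : Set ℝ, IsOpen U ∧ BSet G U ∧ x ∈ U ∧
      U ⊆ Set.Ioo (x - ε) (x + ε))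
    (ks : ℕ → PM Λ) (hks : ∀ n, ks n ∈ G)
    (hcov : ∀ᵐ x : ℝ, ∃ n, IsGerm (((j (FreeGroup.of 0))⁻¹ : Λ) : Equiv.Perm (OnePoint ℝ))
      (ks n : ℝ ≃o ℝ) x)
    (hmove : ∀ n : ℕ, ∃ k : PM Λ, k ∈ G ∧ ∃ x : ℝ,
      IsGerm (((j (FreeGroup.of (n + 1)))⁻¹ : Λ) : Equiv.Perm (OnePoint ℝ)) (k : ℝ ≃o ℝ) x) :
    ¬ UG G := by
  obtain ⟨K, i1, i2, i3, ρ, E, h1, h2, h3⟩ := exists_rho j hj
  exact not_UG_abs hΛ G j hj t ht hc hden ks hks hcov hmove ρ 3 (by norm_num) h1 E h2 h3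

end

end Pool.W735.Dx
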