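import Pool.Agent.W735.DxRep

/-!
Indicator operators and elementary tensors in `L²(ℝ; K)`.
-/

set_option autoImplicit false
set_option linter.unusedVariables false
set_option linter.unusedSectionVars false

open scoped Topology InnerProductSpace
open MeasureTheory Filter

namespace Pool.W735.Dx

noncomputable section

/-- abbreviation. -/
abbrev LL2 (K : Type*) [NormedAddCommGroup K] : Type _ := Lp K 2 (volume : Measure ℝ)

section ind

variable {K : Type*} [NormedAddCommGroup K] [NormedSpace ℂ K]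

lemma ind_memLp (B : Set ℝ) (hB : MeasurableSet B) (f : LL2 K) :
    MemLp (B.indicator (f : ℝ → K)) 2 volume := MemLp.indicator hB (Lp.memLp f)

/-- multiplication by an indicator function, linear map. -/
def EiL (B : Set ℝ) (hB : MeasurableSet B) : LL2 K →ₗ[ℂ] LL2 K where
  toFun := fun f => (ind_memLp B hB f).toLp (B.indicator (f : ℝ → K))
  map_add' := by
    intro f g
    rw [← MemLp.toLp_add]
    apply MemLp.toLp_congr
    filter_upwards [Lp.coeFn_add f g] with x hx
    rw [Pi.add_apply] at hx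
    by_cases h : x ∈ B
    · rw [Set.indicator_of_mem h, hx, Pi.add_apply, Set.indicator_of_mem h,
        Set.indicator_of_mem h]
    · simp [h]
  map_smul' := by
    intro c f
    rw [RingHom.id_apply, ← MemLp.toLp_const_smul]
    apply MemLp.toLp_congr
    filter_upwards [Lp.coeFn_smul c f] with x hx
    rw [Pi.smul_apply] at hx
    by_cases h : x ∈ B
    · rw [Set.indicator_of_mem h, hx, Pi.smul_apply, Set.indicator_of_mem h]
    · simp [h]

lemma EiL_apply (B : Set ℝ) (hB : MeasurableSet B) (f : LL2 K) :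
    EiL B hB f = (ind_memLp B hB f).toLp (B.indicator (f : ℝ → K)) := rfl

lemma EiL_coe (B : Set ℝ) (hB : MeasurableSet B) (f : LL2 K) :
    (EiL B hB f : ℝ → K) =ᵐ[volume] B.indicator f := by
  rw [EiL_apply]
  exact MemLp.coeFn_toLp (ind_memLp B hB f)

lemma EiL_norm (B : Set ℝ) (hB : MeasurableSet B) (f : LL2 K) :
    ‖EiL B hB f‖ ≤ 1 * ‖f‖ := by
  show ‖(ind_memLp B hB f).toLp‖ ≤ 1 * ‖f‖
  rw [Lp.norm_toLp, Lp.norm_def, one_mul]
  exact ENNReal.toReal_mono (Lp.eLpNorm_ne_top f) (eLpNorm_indicator_le _)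

/-- multiplication by an indicator function. -/
def Ei (B : Set ℝ) (hB : MeasurableSet B) : LL2 K →L[ℂ] LL2 K :=
  LinearMap.mkContinuous (EiL B hB) 1 (EiL_norm B hB)

lemma Ei_coe (B : Set ℝ) (hB : MeasurableSet B) (f : LL2 K) :
    (Ei B hB f : ℝ → K) =ᵐ[volume] B.indicator f := EiL_coe B hB f

lemma Ei_Ei (B B' : Set ℝ) (hB : MeasurableSet B) (hB' : MeasurableSet B') (f : LL2 K) :
    Ei B hB (Ei B' hB' f) = Ei (B ∩ B') (hB.inter hB') f := by
  apply Lp.ext
  filter_upwards [Ei_coe B hB (Ei B' hB' f), Ei_coe B' hB' f, Ei_coe _ (hB.inter hB') f]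
    with x h1 h2 h3
  rw [h1, h3, ← Set.indicator_indicator]
  by_cases h : x ∈ B
  · rw [Set.indicator_of_mem h, Set.indicator_of_mem h, h2]
  · rw [Set.indicator_of_notMem h, Set.indicator_of_notMem h]

lemma Ei_idem (B : Set ℝ) (hB : MeasurableSet B) (f : LL2 K) : Ei B hB (Ei B hB f) = Ei B hB f := by
  rw [Ei_Ei]
  congr 2
  exact Set.inter_self B

lemma Ei_compl (B : Set ℝ) (hB : MeasurableSet B) (f : LL2 K) :
    Ei Bᶜ hB.compl f = f - Ei B hB f := by
  apply Lp.ext
  filter_upwards [Ei_coe B hB f, Ei_coe Bᶜ hB.compl f, Lp.coeFn_sub f (Ei B hB f)]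
    with x h1 h2 h3
  rw [h2, h3, Pi.sub_apply, h1]
  by_cases h : x ∈ B <;> simp [h]

end ind

section inner

variable {K : Type*} [NormedAddCommGroup K] [InnerProductSpace ℂ K]

lemma inner_Ei_right (B : Set ℝ) (hB : MeasurableSet B) (f g : LL2 K) :
    ⟪f, Ei B hB g⟫_ℂ = ∫ x in B, ⟪f x, g x⟫_ℂ := by
  rw [L2.inner_def, ← integral_indicator hB]
  apply integral_congr_ae
  filter_upwards [Ei_coe B hB g] with x h1
  rw [h1]
  by_cases h : x ∈ B <;> simp [h]

lemma inner_Ei_left (B : Set ℝ) (hB : MeasurableSet B) (f g : LL2 K) :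
    ⟪Ei B hB f, g⟫_ℂ = ∫ x in B, ⟪f x, g x⟫_ℂ := by
  rw [L2.inner_def, ← integral_indicator hB]
  apply integral_congr_ae
  filter_upwards [Ei_coe B hB f] with x h1
  rw [h1]
  by_cases h : x ∈ B <;> simp [h]

lemma inner_Ei_comm (B : Set ℝ) (hB : MeasurableSet B) (f g : LL2 K) :
    ⟪Ei B hB f, g⟫_ℂ = ⟪f, Ei B hB g⟫_ℂ := by
  rw [inner_Ei_left, inner_Ei_right]

lemma norm_Ei_sq (B : Set ℝ) (hB : MeasurableSet B) (f : LL2 K) :
    ((‖Ei B hB f‖ ^ 2 : ℝ) : ℂ) = ∫ x in B, ⟪f x, f x⟫_ℂ := by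
  have h1 := inner_self_eq_norm_sq_to_K (𝕜 := ℂ) (Ei B hB f)
  rw [inner_Ei_comm, Ei_idem, inner_Ei_right] at h1
  rw [h1]
  push_cast
  rfl

lemma tendsto_Ei (B : ℕ → Set ℝ) (hB : ∀ n, MeasurableSet (B n)) (f : LL2 K)
    (h : Tendsto (fun n => volume (B n)) atTop (𝓝 0)) :
    Tendsto (fun n => ‖Ei (B n) (hB n) f‖) atTop (𝓝 0) := by
  have h1 := (L2.integrable_inner (𝕜 := ℂ) f f).tendsto_setIntegral_nhds_zero h
  have h2 : Tendsto (fun n => ((‖Ei (B n) (hB n) f‖ ^ 2 : ℝ) : ℂ)) atTop (𝓝 0) := by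
    simp_rw [norm_Ei_sq]
    exact h1
  have h3 : Tendsto (fun n => ‖Ei (B n) (hB n) f‖ ^ 2) atTop (𝓝 0) := by
    have h4 := (Complex.continuous_re.tendsto _).comp h2
    rw [Complex.zero_re] at h4
    exact h4.congr fun n => Complex.ofReal_re _
  have h4 := (Real.continuous_sqrt.tendsto _).comp h3
  simp only [Real.sqrt_zero] at h4
  refine h4.congr fun n => ?_
  simp

end inner

section tens

variable {K : Type*} [NormedAddCommGroup K] [InnerProductSpace ℂ K]

/-- elementary tensors. -/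
def tens (v : K) : LL2 ℂ →L[ℂ] LL2 K :=
  (ContinuousLinearMap.toSpanSingleton ℂ v).compLpL 2 volume

lemma tens_coe (v : K) (f : LL2 ℂ) : (tens v f : ℝ → K) =ᵐ[volume] fun x => f x • v := by
  have := (ContinuousLinearMap.toSpanSingleton ℂ v).coeFn_compLpL (p := 2) (μ := volume) f
  filter_upwards [this] with x hx
  show ((ContinuousLinearMap.toSpanSingleton ℂ v).compLpL 2 volume f) x = _
  rw [hx]
  simp

lemma tens_inner (v w : K) (f g : LL2 ℂ) : ⟪tens v f, tens w g⟫_ℂ = ⟪f, g⟫_ℂ * ⟪v, w⟫_ℂ := by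
  rw [L2.inner_def, L2.inner_def, ← integral_mul_const]
  apply integral_congr_ae
  filter_upwards [tens_coe v f, tens_coe w g] with x h1 h2
  rw [h1, h2, inner_smul_left, inner_smul_right]
  simp only [RCLike.inner_apply]
  ring

lemma tens_norm (v : K) (f : LL2 ℂ) : ‖tens v f‖ = ‖f‖ * ‖v‖ := by
  have h1 := tens_inner v v f f
  rw [inner_self_eq_norm_sq_to_K, inner_self_eq_norm_sq_to_K, inner_self_eq_norm_sq_to_K] at h1
  have h2 : ‖tens v f‖ ^ 2 = (‖f‖ * ‖v‖) ^ 2 := by
    rw [mul_pow]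
    exact_mod_cast h1
  exact (pow_left_inj₀ (norm_nonneg _) (by positivity) two_ne_zero).1 h2

lemma tens_add (v w : K) (f : LL2 ℂ) : tens (v + w) f = tens v f + tens w f := by
  apply Lp.ext
  filter_upwards [tens_coe (v + w) f, tens_coe v f, tens_coe w f,
    Lp.coeFn_add (tens v f) (tens w f)] with x h1 h2 h3 h4
  rw [h1, h4, Pi.add_apply, h2, h3, smul_add]

lemma tens_zero (f : LL2 ℂ) : tens (0 : K) f = 0 := by
  have := tens_norm (0 : K) f
  rw [norm_zero, mul_zero] at this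
  exact norm_eq_zero.1 this

lemma tens_sum {ι : Type*} (s : Finset ι) (v : ι → K) (f : LL2 ℂ) :
    tens (∑ i ∈ s, v i) f = ∑ i ∈ s, tens (v i) f := by
  classical
  induction s using Finset.induction_on with
  | empty => simp [tens_zero]
  | insert a s ha ih => rw [Finset.sum_insert ha, Finset.sum_insert ha, tens_add, ih]

lemma Ei_tens (B : Set ℝ) (hB : MeasurableSet B) (v : K) (f : LL2 ℂ) :
    Ei B hB (tens v f) = tens v (Ei B hB f) := by
  apply Lp.ext
  filter_upwards [Ei_coe B hB (tens v f), tens_coe v (Ei B hB f), Ei_coe B hB f, tens_coe v f]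
    with x h1 h2 h3 h4
  rw [h1, h2, h3]
  by_cases h : x ∈ B
  · rw [Set.indicator_of_mem h, Set.indicator_of_mem h, h4]
  · rw [Set.indicator_of_notMem h, Set.indicator_of_notMem h, zero_smul]

end tens

end

end Pool.W735.Dx
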