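import Pool.Agent.W735.DxInd

/-!
Piecewise Möbius homeomorphisms of the line.
-/

set_option autoImplicit false
set_option linter.unusedVariables false

open scoped Topology MatrixGroups
open MeasureTheory Filter OnePoint

namespace Pool.W735.Dx

noncomputable section

/-- the Möbius action of `SL₂(L)` on `L ∪ {∞}`. -/
def mobHom (L : Type*) [Field L] [DecidableEq L] :
    Matrix.SpecialLinearGroup (Fin 2) L →* Equiv.Perm (OnePoint L) :=
  (MulAction.toPermHom (GL (Fin 2) L) (OnePoint L)).comp Matrix.SpecialLinearGroup.toGL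

section field

variable {L : Type*} [Field L] [DecidableEq L]

lemma mobHom_coe (M : Matrix.SpecialLinearGroup (Fin 2) L) (x : L) :
    mobHom L M (x : OnePoint L) = if M 1 0 * x + M 1 1 = 0 then ∞ else
      (((M 0 0 * x + M 0 1) / (M 1 0 * x + M 1 1) : L) : OnePoint L) := by
  show (Matrix.SpecialLinearGroup.toGL M) • (x : OnePoint L) = _
  rw [OnePoint.smul_some_eq_ite]
  rfl

lemma mobHom_infty (M : Matrix.SpecialLinearGroup (Fin 2) L) :
    mobHom L M ∞ = if M 1 0 = 0 then ∞ else ((M 0 0 / M 1 0 : L) : OnePoint L) := by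
  show (Matrix.SpecialLinearGroup.toGL M) • (∞ : OnePoint L) = _
  rw [OnePoint.smul_infty_eq_ite]
  rfl

omit [DecidableEq L] in
lemma det_eq (M : Matrix.SpecialLinearGroup (Fin 2) L) : M 0 0 * M 1 1 - M 0 1 * M 1 0 = 1 := by
  have := M.2
  rw [Matrix.det_fin_two] at this
  exact this

/-- a Möbius transformation fixing infinitely many points is trivial. -/
lemma mobHom_eq_one (M : Matrix.SpecialLinearGroup (Fin 2) L)
    (h : {z : L | mobHom L M (z : OnePoint L) = z}.Infinite) : mobHom L M = 1 := by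
  have h1 : ∀ z ∈ {z : L | mobHom L M (z : OnePoint L) = z},
      M 1 0 * z ^ 2 + (M 1 1 - M 0 0) * z - M 0 1 = 0 := by
    intro z hz
    rw [Set.mem_ofPred_eq, mobHom_coe] at hz
    split_ifs at hz with h2
    · exact absurd hz (OnePoint.infty_ne_coe _)
    rw [OnePoint.coe_eq_coe, div_eq_iff h2] at hz
    linear_combination -hz
  have hp : (Polynomial.C (M 1 0) * Polynomial.X ^ 2 + Polynomial.C (M 1 1 - M 0 0) * Polynomial.X
      - Polynomial.C (M 0 1) : Polynomial L) = 0 := by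
    apply Polynomial.eq_zero_of_infinite_isRoot
    apply h.mono
    intro z hz
    show Polynomial.IsRoot _ z
    rw [Polynomial.IsRoot]
    simp only [Polynomial.eval_sub, Polynomial.eval_add, Polynomial.eval_mul, Polynomial.eval_C,
      Polynomial.eval_pow, Polynomial.eval_X]
    exact h1 z hz
  have hc : M 1 0 = 0 := by
    have := congrArg (fun p => Polynomial.coeff p 2) hp
    simpa [Polynomial.coeff_X, Polynomial.coeff_C] using this
  have hb : M 0 1 = 0 := by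
    have := congrArg (fun p => Polynomial.coeff p 0) hp
    simpa [Polynomial.coeff_X, Polynomial.coeff_C] using this
  have ha : M 1 1 = M 0 0 := by
    have := congrArg (fun p => Polynomial.coeff p 1) hp
    simp [Polynomial.coeff_C, Polynomial.coeff_X_pow] at this
    exact sub_eq_zero.1 this
  have hdet := det_eq M
  rw [hc, hb, ha] at hdet
  have h0 : M 0 0 ≠ 0 := by
    intro h0
    rw [h0] at hdet
    simp at hdet
  ext z
  cases z using OnePoint.rec with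
  | infty => rw [mobHom_infty, if_pos hc]; rfl
  | coe z =>
    rw [mobHom_coe, hc, hb, ha, zero_mul, zero_add, if_neg h0, add_zero, mul_div_cancel_left₀ _ h0]
    rfl

end field

/-- `γ` is the germ of `h` at `x`. -/
def IsGerm (γ : Equiv.Perm (OnePoint ℝ)) (h : ℝ → ℝ) (x : ℝ) : Prop :=
  ∀ᶠ z : ℝ in 𝓝 x, γ (z : OnePoint ℝ) = ((h z : ℝ) : OnePoint ℝ)

lemma IsGerm.congr {γ : Equiv.Perm (OnePoint ℝ)} {h h' : ℝ → ℝ} {x : ℝ} (hg : IsGerm γ h x)
    (hh : h =ᶠ[𝓝 x] h') : IsGerm γ h' x := by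
  filter_upwards [hg, hh] with z h1 h2
  rw [h1, h2]

lemma IsGerm.eventually {γ : Equiv.Perm (OnePoint ℝ)} {h : ℝ → ℝ} {x : ℝ} (hg : IsGerm γ h x) :
    ∀ᶠ z in 𝓝 x, IsGerm γ h z := eventually_eventually_nhds.2 hg

lemma IsGerm.unique {γ γ' : Equiv.Perm (OnePoint ℝ)} {h : ℝ → ℝ} {x : ℝ}
    (hγ : γ ∈ (mobHom ℝ).range) (hγ' : γ' ∈ (mobHom ℝ).range)
    (h1 : IsGerm γ h x) (h2 : IsGerm γ' h x) : γ = γ' := by
  obtain ⟨M, rfl⟩ := hγ
  obtain ⟨M', rfl⟩ := hγ'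
  have h3 : mobHom ℝ (M'⁻¹ * M) = 1 := by
    apply mobHom_eq_one
    apply infinite_of_mem_nhds x
    filter_upwards [h1, h2] with z hz1 hz2
    show mobHom ℝ (M'⁻¹ * M) (z : OnePoint ℝ) = z
    rw [map_mul, Equiv.Perm.mul_apply, hz1, ← hz2, map_inv]
    exact Equiv.symm_apply_apply _ _
  rw [map_mul, map_inv, inv_mul_eq_one] at h3
  exact h3.symm

lemma IsGerm.mul {γ γ' : Equiv.Perm (OnePoint ℝ)} {h h' : ℝ → ℝ} {x : ℝ}
    (hc : ContinuousAt h' x) (h1 : IsGerm γ h (h' x)) (h2 : IsGerm γ' h' x) :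
    IsGerm (γ * γ') (fun z => h (h' z)) x := by
  filter_upwards [h2, hc.eventually h1] with z hz1 hz2
  rw [Equiv.Perm.mul_apply, hz1, hz2]

lemma IsGerm.inv {γ : Equiv.Perm (OnePoint ℝ)} {h : ℝ ≃o ℝ} {x : ℝ} (h1 : IsGerm γ h x) :
    IsGerm γ⁻¹ (h⁻¹ : ℝ ≃o ℝ) (h x) := by
  have hc : ContinuousAt (h⁻¹ : ℝ ≃o ℝ) (h x) := (OrderIso.continuous (h⁻¹ : ℝ ≃o ℝ)).continuousAt
  have h3 : (h⁻¹ : ℝ ≃o ℝ) (h x) = x := h.symm_apply_apply x
  rw [ContinuousAt, h3] at hc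
  filter_upwards [hc.eventually h1] with z hz
  have h4 : h ((h⁻¹ : ℝ ≃o ℝ) z) = z := h.apply_symm_apply z
  rw [h4] at hz
  rw [Equiv.Perm.inv_eq_iff_eq, hz]

lemma IsGerm.hasDerivAt {M : Matrix.SpecialLinearGroup (Fin 2) ℝ} {h : ℝ → ℝ} {x : ℝ}
    (hg : IsGerm (mobHom ℝ M) h x) :
    M 1 0 * x + M 1 1 ≠ 0 ∧ HasDerivAt h (1 / (M 1 0 * x + M 1 1) ^ 2) x := by
  have h0 := hg.self_of_nhds
  rw [mobHom_coe] at h0
  split_ifs at h0 with h1
  · exact absurd h0 (OnePoint.infty_ne_coe _)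
  refine ⟨h1, ?_⟩
  have h2 : HasDerivAt (fun z => (M 0 0 * z + M 0 1) / (M 1 0 * z + M 1 1))
      ((M 0 0 * (M 1 0 * x + M 1 1) - (M 0 0 * x + M 0 1) * M 1 0) / (M 1 0 * x + M 1 1) ^ 2) x := by
    have e1 : HasDerivAt (fun z => M 0 0 * z + M 0 1) (M 0 0) x := by
      simpa using ((hasDerivAt_id x).const_mul (M 0 0)).add_const (M 0 1)
    have e2 : HasDerivAt (fun z => M 1 0 * z + M 1 1) (M 1 0) x := by
      simpa using ((hasDerivAt_id x).const_mul (M 1 0)).add_const (M 1 1)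
    exact e1.div e2 h1
  have h3 : M 0 0 * (M 1 0 * x + M 1 1) - (M 0 0 * x + M 0 1) * M 1 0 = 1 := by
    have := det_eq M
    linear_combination this
  rw [h3] at h2
  apply h2.congr_of_eventuallyEq
  filter_upwards [hg] with z hz
  rw [mobHom_coe] at hz
  split_ifs at hz with h4
  · exact absurd hz (OnePoint.infty_ne_coe _)
  exact (OnePoint.coe_eq_coe.1 hz).symm

lemma IsGerm.deriv_pos {γ : Equiv.Perm (OnePoint ℝ)} (hγ : γ ∈ (mobHom ℝ).range) {h : ℝ → ℝ}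
    {x : ℝ} (hg : IsGerm γ h x) : 0 < deriv h x ∧ DifferentiableAt ℝ h x := by
  obtain ⟨M, rfl⟩ := hγ
  obtain ⟨h1, h2⟩ := hg.hasDerivAt
  rw [h2.deriv]
  exact ⟨by positivity, h2.differentiableAt⟩

/-- piecewise `Λ` order automorphisms of `ℝ`. -/
def PM (Λ : Subgroup (Equiv.Perm (OnePoint ℝ))) : Subgroup (ℝ ≃o ℝ) where
  carrier := {h | ∃ S : Set ℝ, S.Finite ∧ ∀ x ∉ S, ∃ γ ∈ Λ, IsGerm γ h x}
  mul_mem' := by
    rintro h h' ⟨S, hS, hS'⟩ ⟨T, hT, hT'⟩
    refine ⟨T ∪ h' ⁻¹' S, hT.union (hS.preimage h'.injective.injOn), ?_⟩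
    intro x hx
    rw [Set.mem_union, not_or] at hx
    obtain ⟨γ', h1, h2⟩ := hT' x hx.1
    obtain ⟨γ, h3, h4⟩ := hS' (h' x) hx.2
    exact ⟨γ * γ', Λ.mul_mem h3 h1, IsGerm.mul (h := h) (h' := h') (OrderIso.continuous h').continuousAt h4 h2⟩
  one_mem' := ⟨∅, Set.finite_empty, fun x _ => ⟨1, Λ.one_mem, Eventually.of_forall fun z => rfl⟩⟩
  inv_mem' := by
    rintro h ⟨S, hS, hS'⟩
    refine ⟨h '' S, hS.image h, ?_⟩
    intro y hy
    obtain ⟨x, rfl⟩ := h.surjective y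
    have hx : x ∉ S := fun hx => hy ⟨x, hx, rfl⟩
    obtain ⟨γ, h1, h2⟩ := hS' x hx
    exact ⟨γ⁻¹, Λ.inv_mem h1, h2.inv⟩

section germ

variable (Λ : Subgroup (Equiv.Perm (OnePoint ℝ)))

open Classical in
/-- the germ. -/
def germ (h : ℝ → ℝ) (x : ℝ) : Λ :=
  if H : ∃ γ : Λ, IsGerm (γ : Equiv.Perm (OnePoint ℝ)) h x then H.choose else 1

variable {Λ}

lemma germ_eq (hΛ : Λ ≤ (mobHom ℝ).range) {γ : Λ} {h : ℝ → ℝ} {x : ℝ}
    (hg : IsGerm (γ : Equiv.Perm (OnePoint ℝ)) h x) : germ Λ h x = γ := by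
  have H : ∃ γ : Λ, IsGerm (γ : Equiv.Perm (OnePoint ℝ)) h x := ⟨γ, hg⟩
  unfold germ
  rw [dif_pos H]
  apply Subtype.ext
  exact H.choose_spec.unique (hΛ (Subtype.mem _)) (hΛ γ.2) hg

end germ

end

end Pool.W735.Dx
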