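import Pool.Agent.W735.DxPM

/-!
The representation of the group of piecewise `Λ` automorphisms of the line on `L²(ℝ; K)` attached to a
uniformly bounded representation of `Λ` on `K`.
-/

set_option autoImplicit false
set_option linter.unusedVariables false
set_option linter.unusedSectionVars false

open scoped Topology MatrixGroups
open MeasureTheory Filter

namespace Pool.W735.Dx

noncomputable section

variable {Λ : Subgroup (Equiv.Perm (OnePoint ℝ))} (hΛ : Λ ≤ (mobHom ℝ).range)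

/-- the exceptional set. -/
def exc (k : PM Λ) : Set ℝ := k.2.choose

lemma exc_finite (k : PM Λ) : (exc k).Finite := k.2.choose_spec.1

lemma exc_germ (k : PM Λ) {x : ℝ} (hx : x ∉ exc k) :
    ∃ γ : Λ, IsGerm (γ : Equiv.Perm (OnePoint ℝ)) (k : ℝ ≃o ℝ) x := by
  obtain ⟨γ, h1, h2⟩ := k.2.choose_spec.2 x hx
  exact ⟨⟨γ, h1⟩, h2⟩

lemma exc_ae (k : PM Λ) : ∀ᵐ x : ℝ, x ∉ exc k := by
  rw [ae_iff]
  simp only [not_not]
  exact (exc_finite k).measure_zero volume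

include hΛ

lemma deriv_pos (k : PM Λ) {x : ℝ} (hx : x ∉ exc k) :
    0 < deriv (k : ℝ ≃o ℝ) x ∧ DifferentiableAt ℝ (k : ℝ ≃o ℝ) x := by
  obtain ⟨γ, h1⟩ := exc_germ k hx
  exact h1.deriv_pos (hΛ γ.2)

/-- change of variables. -/
lemma lint_comp (k : PM Λ) (F : ℝ → ENNReal) :
    ∫⁻ x : ℝ, ENNReal.ofReal (deriv (k : ℝ ≃o ℝ) x) * F ((k : ℝ ≃o ℝ) x) = ∫⁻ x : ℝ, F x := by
  have hm : MeasurableSet (exc k)ᶜ := (exc_finite k).measurableSet.compl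
  have h1 := lintegral_image_eq_lintegral_abs_deriv_mul (s := (exc k)ᶜ) (f := (k : ℝ ≃o ℝ))
    (f' := deriv (k : ℝ ≃o ℝ)) hm
    (fun x hx => (deriv_pos hΛ k hx).2.hasDerivAt.hasDerivWithinAt)
    (k : ℝ ≃o ℝ).injective.injOn F
  have h2 : (((k : ℝ ≃o ℝ) '' (exc k)ᶜ : Set ℝ)) =ᵐ[volume] Set.univ := by
    rw [ae_eq_univ, Set.image_compl_eq (k : ℝ ≃o ℝ).bijective, compl_compl]
    exact ((exc_finite k).image _).measure_zero volume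
  have h3 : (((exc k)ᶜ : Set ℝ)) =ᵐ[volume] Set.univ := by
    rw [ae_eq_univ, compl_compl]
    exact (exc_finite k).measure_zero volume
  rw [Measure.restrict_congr_set h2, Measure.restrict_congr_set h3, Measure.restrict_univ] at h1
  rw [h1]
  apply lintegral_congr_ae
  filter_upwards [exc_ae k] with x hx
  rw [abs_of_pos (deriv_pos hΛ k hx).1]

lemma qmp (k : PM Λ) : Measure.QuasiMeasurePreserving ((k : ℝ ≃o ℝ) : ℝ → ℝ) volume volume := by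
  have hmeas : Measurable ((k : ℝ ≃o ℝ) : ℝ → ℝ) := (OrderIso.continuous _).measurable
  refine ⟨hmeas, Measure.AbsolutelyContinuous.mk ?_⟩
  intro N hN hN0
  rw [Measure.map_apply hmeas hN]
  have h1 := lint_comp hΛ k (N.indicator 1)
  rw [lintegral_indicator_one hN, hN0] at h1
  rw [lintegral_eq_zero_iff] at h1
  · rw [← compl_mem_ae_iff]
    filter_upwards [h1, exc_ae k] with x hx hx' hx''
    have h2 := (deriv_pos hΛ k hx').1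
    rw [Set.mem_preimage] at hx''
    simp only [Set.indicator_of_mem hx'', Pi.one_apply, mul_one, Pi.zero_apply,
      ENNReal.ofReal_eq_zero] at hx
    linarith
  · apply Measurable.mul
    · exact ENNReal.measurable_ofReal.comp (measurable_deriv _)
    · exact (measurable_one.indicator hN).comp hmeas

omit hΛ

variable {K : Type*} [NormedAddCommGroup K] [NormedSpace ℂ K] (ρ : Λ →* (K →L[ℂ] K))

/-- the function version of the operator. -/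
def wf (k : PM Λ) (f : ℝ → K) (x : ℝ) : K :=
  ((Real.sqrt (deriv (k : ℝ ≃o ℝ) x) : ℝ) : ℂ) • ρ (germ Λ (k : ℝ ≃o ℝ) x)⁻¹ (f ((k : ℝ ≃o ℝ) x))

include hΛ

lemma cont_germ (k : PM Λ) :
    ContinuousOn (fun x => ρ (germ Λ (k : ℝ ≃o ℝ) x)⁻¹) (exc k)ᶜ := by
  intro x hx
  obtain ⟨γ, hγ⟩ := exc_germ k hx
  apply ContinuousAt.continuousWithinAt
  have h1 : (fun x => ρ (germ Λ (k : ℝ ≃o ℝ) x)⁻¹) =ᶠ[𝓝 x] fun _ => ρ γ⁻¹ := by
    filter_upwards [hγ.eventually] with z hz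
    rw [germ_eq hΛ hz]
  exact continuousAt_const.congr h1.symm

lemma aesm_germ (k : PM Λ) :
    AEStronglyMeasurable (fun x => ρ (germ Λ (k : ℝ ≃o ℝ) x)⁻¹) volume := by
  have hm : MeasurableSet (exc k)ᶜ := (exc_finite k).measurableSet.compl
  have h1 := (cont_germ hΛ ρ k).aestronglyMeasurable hm (μ := volume)
  have h3 : (((exc k)ᶜ : Set ℝ)) =ᵐ[volume] Set.univ := by
    rw [ae_eq_univ, compl_compl]
    exact (exc_finite k).measure_zero volume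
  rwa [Measure.restrict_congr_set h3, Measure.restrict_univ] at h1

lemma wf_aesm (k : PM Λ) {f : ℝ → K} (hf : AEStronglyMeasurable f volume) :
    AEStronglyMeasurable (wf ρ k f) volume := by
  unfold wf
  apply AEStronglyMeasurable.smul
  · have : Measurable fun x => ((Real.sqrt (deriv (k : ℝ ≃o ℝ) x) : ℝ) : ℂ) :=
      Complex.measurable_ofReal.comp (Real.continuous_sqrt.measurable.comp (measurable_deriv _))
    exact this.aestronglyMeasurable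
  · have h1 := hf.comp_quasiMeasurePreserving (qmp hΛ k)
    exact (ContinuousLinearMap.id ℂ (K →L[ℂ] K)).aestronglyMeasurable_comp₂ (aesm_germ hΛ ρ k) h1

lemma wf_congr (k : PM Λ) {f g : ℝ → K} (hf : f =ᵐ[volume] g) : wf ρ k f =ᵐ[volume] wf ρ k g := by
  filter_upwards [(qmp hΛ k).ae hf] with x hx
  unfold wf
  rw [hx]

lemma wf_lint (k : PM Λ) (C : ℝ) (hC : 0 ≤ C) (hρ : ∀ γ v, ‖ρ γ v‖ ≤ C * ‖v‖) (f : ℝ → K) :
    ∫⁻ x, ‖wf ρ k f x‖ₑ ^ (2 : ℝ) ≤ ENNReal.ofReal C ^ (2 : ℝ) * ∫⁻ x, ‖f x‖ₑ ^ (2 : ℝ) := by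
  rw [← lint_comp hΛ k (fun x => ‖f x‖ₑ ^ (2 : ℝ)), ← lintegral_const_mul']
  · apply lintegral_mono_ae
    filter_upwards [exc_ae k] with x hx
    unfold wf
    rw [enorm_smul, ENNReal.mul_rpow_of_nonneg _ _ (by norm_num : (0 : ℝ) ≤ 2)]
    have h1 : ‖((Real.sqrt (deriv (k : ℝ ≃o ℝ) x) : ℝ) : ℂ)‖ₑ ^ (2 : ℝ) =
        ENNReal.ofReal (deriv (k : ℝ ≃o ℝ) x) := by
      rw [← ofReal_norm, ENNReal.ofReal_rpow_of_nonneg (norm_nonneg _) (by norm_num)]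
      congr 1
      rw [Complex.norm_real, Real.norm_eq_abs, abs_of_nonneg (Real.sqrt_nonneg _), Real.rpow_two,
        Real.sq_sqrt (deriv_pos hΛ k hx).1.le]
    rw [h1]
    have h2 : ‖ρ (germ Λ (k : ℝ ≃o ℝ) x)⁻¹ (f ((k : ℝ ≃o ℝ) x))‖ₑ ≤
        ENNReal.ofReal C * ‖f ((k : ℝ ≃o ℝ) x)‖ₑ := by
      rw [← ofReal_norm, ← ofReal_norm, ← ENNReal.ofReal_mul hC]
      exact ENNReal.ofReal_le_ofReal (hρ _ _)
    calc ENNReal.ofReal (deriv (k : ℝ ≃o ℝ) x) *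
          ‖ρ (germ Λ (k : ℝ ≃o ℝ) x)⁻¹ (f ((k : ℝ ≃o ℝ) x))‖ₑ ^ (2 : ℝ)
        ≤ ENNReal.ofReal (deriv (k : ℝ ≃o ℝ) x) *
          (ENNReal.ofReal C * ‖f ((k : ℝ ≃o ℝ) x)‖ₑ) ^ (2 : ℝ) := by gcongr
      _ = _ := by
        rw [ENNReal.mul_rpow_of_nonneg _ _ (by norm_num : (0 : ℝ) ≤ 2)]
        ring
  · simp

lemma wf_eLpNorm (k : PM Λ) (C : ℝ) (hC : 0 ≤ C) (hρ : ∀ γ v, ‖ρ γ v‖ ≤ C * ‖v‖) (f : ℝ → K) :
    eLpNorm (wf ρ k f) 2 volume ≤ ENNReal.ofReal C * eLpNorm f 2 volume := by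
  rw [eLpNorm_eq_lintegral_rpow_enorm_toReal two_ne_zero ENNReal.ofNat_ne_top,
    eLpNorm_eq_lintegral_rpow_enorm_toReal two_ne_zero ENNReal.ofNat_ne_top]
  have h2 : (2 : ENNReal).toReal = 2 := by simp
  rw [h2]
  have h3 := wf_lint hΛ ρ k C hC hρ f
  calc (∫⁻ x, ‖wf ρ k f x‖ₑ ^ (2 : ℝ)) ^ (1 / (2 : ℝ))
      ≤ (ENNReal.ofReal C ^ (2 : ℝ) * ∫⁻ x, ‖f x‖ₑ ^ (2 : ℝ)) ^ (1 / (2 : ℝ)) := by gcongr
    _ = _ := by
      rw [ENNReal.mul_rpow_of_nonneg _ _ (by norm_num : (0 : ℝ) ≤ 1 / 2), ← ENNReal.rpow_mul]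
      norm_num

lemma wf_memLp (C : ℝ) (hC : 0 ≤ C) (hρ : ∀ γ v, ‖ρ γ v‖ ≤ C * ‖v‖) (k : PM Λ)
    (f : Lp K 2 (volume : Measure ℝ)) : MemLp (wf ρ k f) 2 volume :=
    ⟨wf_aesm hΛ ρ k (Lp.aestronglyMeasurable f), lt_of_le_of_lt (wf_eLpNorm hΛ ρ k C hC hρ f)
      (ENNReal.mul_lt_top ENNReal.ofReal_lt_top (Lp.eLpNorm_lt_top f))⟩

/-- the linear map attached to `k`. -/
def Wl (C : ℝ) (hC : 0 ≤ C) (hρ : ∀ γ v, ‖ρ γ v‖ ≤ C * ‖v‖) (k : PM Λ) :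
    Lp K 2 (volume : Measure ℝ) →ₗ[ℂ] Lp K 2 (volume : Measure ℝ) where
  toFun := fun f => (wf_memLp hΛ ρ C hC hρ k f).toLp
  map_add' := by
    intro f g
    rw [← MemLp.toLp_add]
    apply MemLp.toLp_congr
    refine (wf_congr hΛ ρ k (Lp.coeFn_add f g)).trans (Eventually.of_forall fun x => ?_)
    simp [wf]
  map_smul' := by
    intro c f
    rw [RingHom.id_apply, ← MemLp.toLp_const_smul]
    apply MemLp.toLp_congr
    refine (wf_congr hΛ ρ k (Lp.coeFn_smul c f)).trans (Eventually.of_forall fun x => ?_)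
    simp only [wf, Pi.smul_apply, map_smul]
    rw [smul_comm]

variable (C : ℝ) (hC : 0 ≤ C) (hρ : ∀ γ v, ‖ρ γ v‖ ≤ C * ‖v‖)
include hC hρ

lemma Wl_norm (k : PM Λ) (f : Lp K 2 (volume : Measure ℝ)) :
    ‖Wl hΛ ρ C hC hρ k f‖ ≤ C * ‖f‖ := by
  show ‖(wf_memLp hΛ ρ C hC hρ k f).toLp‖ ≤ C * ‖f‖
  rw [Lp.norm_toLp, Lp.norm_def]
  have h1 : C * (eLpNorm f 2 volume).toReal = (ENNReal.ofReal C * eLpNorm f 2 volume).toReal := by
    rw [ENNReal.toReal_mul, ENNReal.toReal_ofReal hC]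
  rw [h1]
  exact ENNReal.toReal_mono (ENNReal.mul_ne_top ENNReal.ofReal_ne_top (Lp.eLpNorm_ne_top f))
        (wf_eLpNorm hΛ ρ k C hC hρ f)

/-- the operator attached to `k`. -/
def W (k : PM Λ) : Lp K 2 (volume : Measure ℝ) →L[ℂ] Lp K 2 (volume : Measure ℝ) :=
  LinearMap.mkContinuous (Wl hΛ ρ C hC hρ k) C (Wl_norm hΛ ρ C hC hρ k)

lemma W_coe (k : PM Λ) (f : Lp K 2 (volume : Measure ℝ)) :
    (W hΛ ρ C hC hρ k f : ℝ → K) =ᵐ[volume] wf ρ k f :=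
  MemLp.coeFn_toLp (wf_memLp hΛ ρ C hC hρ k f)

lemma W_norm (k : PM Λ) (f : Lp K 2 (volume : Measure ℝ)) :
    ‖W hΛ ρ C hC hρ k f‖ ≤ C * ‖f‖ := Wl_norm hΛ ρ C hC hρ k f

lemma W_one : W hΛ ρ C hC hρ 1 = 1 := by
  ext1 f
  apply Lp.ext
  refine (W_coe hΛ ρ C hC hρ 1 f).trans (Eventually.of_forall fun x => ?_)
  unfold wf
  have h1 : (((1 : PM Λ) : ℝ ≃o ℝ) : ℝ → ℝ) = id := rfl
  have h2 : germ Λ (((1 : PM Λ) : ℝ ≃o ℝ) : ℝ → ℝ) x = 1 :=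
    germ_eq hΛ (Eventually.of_forall fun z => rfl)
  rw [h2, h1]
  simp

lemma W_mul (k k' : PM Λ) : W hΛ ρ C hC hρ (k * k') = W hΛ ρ C hC hρ k' * W hΛ ρ C hC hρ k := by
  ext1 f
  apply Lp.ext
  have h1 := W_coe hΛ ρ C hC hρ (k * k') f
  have h2 := W_coe hΛ ρ C hC hρ k' (W hΛ ρ C hC hρ k f)
  have h3 := wf_congr hΛ ρ k' (W_coe hΛ ρ C hC hρ k f)
  refine h1.trans (EventuallyEq.symm ?_)
  refine (h2.trans h3).trans ?_
  filter_upwards [exc_ae k', (qmp hΛ k').ae (exc_ae k)] with x hx1 hx2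
  obtain ⟨γ', hγ'⟩ := exc_germ k' hx1
  obtain ⟨γ, hγ⟩ := exc_germ k hx2
  have h4 : IsGerm ((γ * γ' : Λ) : Equiv.Perm (OnePoint ℝ)) ((k * k' : PM Λ) : ℝ ≃o ℝ) x :=
    IsGerm.mul (h := (k : ℝ ≃o ℝ)) (h' := (k' : ℝ ≃o ℝ)) (OrderIso.continuous _).continuousAt hγ hγ'
  have h5 : deriv (((k * k' : PM Λ) : ℝ ≃o ℝ) : ℝ → ℝ) x =
      deriv (k' : ℝ ≃o ℝ) x * deriv (k : ℝ ≃o ℝ) ((k' : ℝ ≃o ℝ) x) := by
    have h6 := (deriv_pos hΛ k' hx1).2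
    have h7 := (deriv_pos hΛ k hx2).2
    have h8 := deriv_comp (h₂ := (k : ℝ ≃o ℝ)) (h := (k' : ℝ ≃o ℝ)) x h7 h6
    rw [mul_comm] at h8
    exact h8
  unfold wf
  rw [germ_eq hΛ h4, germ_eq hΛ hγ, germ_eq hΛ hγ', h5, Real.sqrt_mul (deriv_pos hΛ k' hx1).1.le,
    mul_inv_rev, map_mul, map_smul, Complex.ofReal_mul, mul_smul]
  rfl

/-- the representation. -/
def piRep : PM Λ →* (Lp K 2 (volume : Measure ℝ) →L[ℂ] Lp K 2 (volume : Measure ℝ)) where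
  toFun k := W hΛ ρ C hC hρ k⁻¹
  map_one' := by rw [inv_one, W_one]
  map_mul' k k' := by rw [mul_inv_rev, W_mul]

end

end Pool.W735.Dx
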