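import Pool.Agent.W735.DxCore

/-!
The coefficients are scalar operators.
-/

set_option autoImplicit false
set_option linter.unusedVariables false
set_option linter.unusedSectionVars false

open scoped Topology InnerProductSpace MatrixGroups
open MeasureTheory Filter

namespace Pool.W735.Dx

noncomputable section

section phi

variable (t : ℝ) (ht : |t| < 2)

/-- the elliptic matrix. -/
def mat : SL(2, ℝ) := ⟨!![t, -1; 1, 0], by simp [Matrix.det_fin_two]⟩

lemma mat_00 : (mat t) 0 0 = t := rfl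
lemma mat_01 : (mat t) 0 1 = -1 := rfl
lemma mat_10 : (mat t) 1 0 = 1 := rfl
lemma mat_11 : (mat t) 1 1 = 0 := rfl

lemma quad_lower (x : ℝ) : (1 - |t| / 2) * (1 + x ^ 2) ≤ x ^ 2 - t * x + 1 := by
  have h1 : t * x ≤ |t| * |x| := by
    rw [← abs_mul]
    exact le_abs_self _
  have h2 : 2 * |x| ≤ 1 + x ^ 2 := by
    have := sq_nonneg (|x| - 1)
    have h3 := sq_abs x
    nlinarith
  have h3 := abs_nonneg t
  nlinarith

/-- the square root of the density of the invariant measure. -/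
def phi0 (x : ℝ) : ℝ := (Real.sqrt (x ^ 2 - t * x + 1))⁻¹

include ht

lemma quad_pos (x : ℝ) : 0 < x ^ 2 - t * x + 1 := by
  have h1 := quad_lower t x
  have h2 : 0 < (1 - |t| / 2) * (1 + x ^ 2) := mul_pos (by linarith) (by positivity)
  linarith

lemma phi0_pos (x : ℝ) : 0 < phi0 t x := by
  unfold phi0
  have := quad_pos t ht x
  positivity

lemma phi0_cont : Continuous (phi0 t) := by
  unfold phi0
  apply Continuous.inv₀
  · fun_prop
  · intro x
    have := quad_pos t ht x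
    positivity

lemma phi_memLp : MemLp (fun x => ((phi0 t x : ℝ) : ℂ)) 2 volume := by
  have hc : Continuous fun x => ((phi0 t x : ℝ) : ℂ) :=
    Complex.continuous_ofReal.comp (phi0_cont t ht)
  rw [memLp_two_iff_integrable_sq_norm hc.aestronglyMeasurable]
  have h1 : Integrable (fun x : ℝ => (1 - |t| / 2)⁻¹ * (1 + x ^ 2)⁻¹) :=
    integrable_inv_one_add_sq.const_mul _
  apply h1.mono'
  · exact (hc.norm.pow 2).aestronglyMeasurable
  · refine Eventually.of_forall fun x => ?_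
    have h2 := quad_pos t ht x
    rw [Complex.norm_real, Real.norm_eq_abs, Real.norm_eq_abs, abs_of_nonneg (by positivity),
      sq_abs]
    unfold phi0
    rw [inv_pow, Real.sq_sqrt h2.le, ← mul_inv]
    apply inv_anti₀
    · exact mul_pos (by linarith) (by positivity)
    · exact quad_lower t x

/-- the invariant vector. -/
def phi : LL2 ℂ := (phi_memLp t ht).toLp

lemma phi_coe : (phi t ht : ℝ → ℂ) =ᵐ[volume] fun x => ((phi0 t x : ℝ) : ℂ) :=
  MemLp.coeFn_toLp (phi_memLp t ht)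

lemma phi0_inv {x : ℝ} (hx : x ≠ t) :
    Real.sqrt (1 / (t - x) ^ 2) * phi0 t (1 / (t - x)) = phi0 t x := by
  have h0 : t - x ≠ 0 := sub_ne_zero.2 hx.symm
  have h1 := quad_pos t ht x
  have h2 := quad_pos t ht (1 / (t - x))
  unfold phi0
  have h3 : (1 / (t - x)) ^ 2 - t * (1 / (t - x)) + 1 = (x ^ 2 - t * x + 1) / (t - x) ^ 2 := by
    field_simp
    ring
  rw [h3, Real.sqrt_div h1.le, Real.sqrt_div zero_le_one, Real.sqrt_one]
  have h4 : 0 < Real.sqrt ((t - x) ^ 2) := by positivity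
  have h5 : 0 < Real.sqrt (x ^ 2 - t * x + 1) := Real.sqrt_pos.2 h1
  field_simp

omit ht in
lemma germ_cinv {k : ℝ → ℝ} {x : ℝ} (h : IsGerm (mobHom ℝ (mat t))⁻¹ k x) :
    ∀ᶠ z in 𝓝 x, z ≠ t ∧ k z = 1 / (t - z) := by
  filter_upwards [h] with z hz
  rw [Equiv.Perm.inv_eq_iff_eq, mobHom_coe, mat_00, mat_01, mat_10, mat_11] at hz
  split_ifs at hz with h1
  · exact absurd hz.symm (OnePoint.infty_ne_coe _)
  · rw [OnePoint.coe_eq_coe] at hz
    have h2 : k z ≠ 0 := by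
      intro h3
      rw [h3] at h1
      simp at h1
    have h3 : t - z = 1 / k z := by
      rw [eq_div_iff h1] at hz
      rw [eq_div_iff h2]
      linear_combination -hz
    constructor
    · intro h4
      have h5 := one_div_ne_zero h2
      rw [← h3, h4, sub_self] at h5
      exact h5 rfl
    · rw [h3, one_div_one_div]

omit ht in
lemma germ_deriv {k : ℝ → ℝ} {x : ℝ} (h : IsGerm (mobHom ℝ (mat t))⁻¹ k x) :
    deriv k x = 1 / (t - x) ^ 2 := by
  have h1 := germ_cinv t h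
  have h2 : k =ᶠ[𝓝 x] fun z => 1 / (t - z) := by
    filter_upwards [h1] with z hz
    exact hz.2
  have h0 : t - x ≠ 0 := sub_ne_zero.2 (h1.self_of_nhds.1).symm
  rw [h2.deriv_eq]
  have h3 : HasDerivAt (fun z : ℝ => t - z) (-1) x := by
    simpa using (hasDerivAt_id x).const_sub t
  have h4 := (hasDerivAt_const x (1 : ℝ)).div h3 h0
  have h5 : deriv (fun z => 1 / (t - z)) x = (0 * (t - x) - 1 * -1) / (t - x) ^ 2 := h4.deriv
  rw [h5]
  ring

end phi

section order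

lemma mat_pow (α : ℝ) (n : ℕ) : ∀ i j, Real.sin α * ((mat (2 * Real.cos α) ^ n : SL(2, ℝ)) i j) =
    !![Real.sin ((n + 1) * α), -Real.sin (n * α); Real.sin (n * α), -Real.sin ((n - 1) * α)] i j := by
  induction n with
  | zero =>
    intro i j
    fin_cases i <;> fin_cases j <;> simp
  | succ n ih =>
    intro i j
    rw [pow_succ]
    have h1 : ∀ i j, ((mat (2 * Real.cos α) ^ n * mat (2 * Real.cos α) : SL(2, ℝ)) i j) =
      ((mat (2 * Real.cos α) ^ n : SL(2, ℝ)) i 0) * (mat (2 * Real.cos α)) 0 j +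
      ((mat (2 * Real.cos α) ^ n : SL(2, ℝ)) i 1) * (mat (2 * Real.cos α)) 1 j := by
      intro i j
      rw [Matrix.SpecialLinearGroup.coe_mul, Matrix.mul_apply, Fin.sum_univ_two]
    rw [h1, mul_add, ← mul_assoc, ← mul_assoc, ih, ih]
    have e1 : Real.sin (((n : ℝ) + 1 + 1) * α) =
        2 * Real.cos α * Real.sin ((n + 1) * α) - Real.sin (n * α) := by
      have e2 : ((n : ℝ) + 1 + 1) * α = (n + 1) * α + α := by ring
      have e3 : (n : ℝ) * α = (n + 1) * α - α := by ring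
      rw [e2, e3, Real.sin_add, Real.sin_sub]
      ring
    have e4 : Real.sin (((n : ℝ) + 1) * α) =
        2 * Real.cos α * Real.sin (n * α) - Real.sin ((n - 1) * α) := by
      have e2 : ((n : ℝ) + 1) * α = n * α + α := by ring
      have e3 : ((n : ℝ) - 1) * α = n * α - α := by ring
      rw [e2, e3, Real.sin_add, Real.sin_sub]
      ring
    fin_cases i <;> fin_cases j
    · simp [mat_00, mat_01, mat_10, mat_11]
      rw [e1]
      ring
    · simp [mat_00, mat_01, mat_10, mat_11]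
    · simp [mat_00, mat_01, mat_10, mat_11]
      rw [e4]
      ring
    · simp [mat_00, mat_01, mat_10, mat_11]

lemma mat_irr (α : ℝ) (hα : Real.sin α ≠ 0)
    (h : ∀ n : ℕ, 0 < n → (mobHom ℝ (mat (2 * Real.cos α))) ^ n ≠ 1) :
    ∀ n : ℕ, 0 < n → ∀ m : ℤ, n * α ≠ m * Real.pi := by
  intro n hn m hnm
  apply h n hn
  rw [← map_pow]
  have hs : Real.sin (n * α) = 0 := by rw [hnm, Real.sin_int_mul_pi]
  have hs1 : Real.sin ((n + 1) * α) = Real.cos (n * α) * Real.sin α := by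
    have : ((n : ℝ) + 1) * α = n * α + α := by ring
    rw [this, Real.sin_add, hs]
    ring
  have hs2 : Real.sin ((n - 1) * α) = -(Real.cos (n * α) * Real.sin α) := by
    have : ((n : ℝ) - 1) * α = n * α - α := by ring
    rw [this, Real.sin_sub, hs]
    ring
  have h00 := mat_pow α n 0 0
  have h01 := mat_pow α n 0 1
  have h10 := mat_pow α n 1 0
  have h11 := mat_pow α n 1 1
  simp only [Matrix.of_apply, Matrix.cons_val', Matrix.cons_val_zero, Matrix.cons_val_one,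
    Matrix.empty_val', Matrix.cons_val_fin_one] at h00 h01 h10 h11
  rw [hs, neg_zero, mul_eq_zero, or_iff_right hα] at h01
  rw [hs, mul_eq_zero, or_iff_right hα] at h10
  rw [hs1, mul_comm, mul_left_inj' hα] at h00
  rw [hs2, neg_neg, mul_comm, mul_left_inj' hα] at h11
  have hdet := det_eq (mat (2 * Real.cos α) ^ n)
  rw [h01, h00, h11, h10] at hdet
  have hne : Real.cos (n * α) ≠ 0 := by
    intro h0
    rw [h0] at hdet
    simp at hdet
  apply mobHom_eq_one
  have : {z : ℝ | mobHom ℝ (mat (2 * Real.cos α) ^ n) (z : OnePoint ℝ) = z} = Set.univ := by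
    ext z
    simp only [Set.mem_ofPred_eq, Set.mem_univ, iff_true]
    rw [mobHom_coe, h00, h01, h10, h11, zero_mul, zero_add, if_neg hne, add_zero,
      mul_div_cancel_left₀ _ hne]
  rw [this]
  exact Set.infinite_univ

end order

section scalar

variable {Λ : Subgroup (Equiv.Perm (OnePoint ℝ))} (hΛ : Λ ≤ (mobHom ℝ).range)
  {K : Type*} [NormedAddCommGroup K] [InnerProductSpace ℂ K] [CompleteSpace K]
  (ρ : Λ →* (K →L[ℂ] K))
  (C : ℝ) (hC : 0 ≤ C) (hρ : ∀ γ v, ‖ρ γ v‖ ≤ C * ‖v‖)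
  {T : LL2 K →L[ℂ] LL2 K} (hsa : ∀ f g, ⟪f, T g⟫_ℂ = ⟪T f, g⟫_ℂ)
  (G : Subgroup (PM Λ))
  (hT : ∀ k ∈ G, ∀ f g, ⟪W hΛ ρ C hC hρ k f, T (W hΛ ρ C hC hρ k g)⟫_ℂ = ⟪f, T g⟫_ℂ)
  (hall : ∀ (B : Set ℝ) (hB : MeasurableSet B), Good T B)
include hΛ hC hρ hsa hT hall

theorem coef_scalar (t : ℝ) (ht : |t| < 2) (c : Λ) (hc : (c : Equiv.Perm (OnePoint ℝ)) =
    mobHom ℝ (mat t)) (hord : ∀ n : ℕ, 0 < n → c ^ n ≠ 1)
    (ks : ℕ → PM Λ) (hks : ∀ n, ks n ∈ G)
    (hcov : ∀ᵐ x : ℝ, ∃ n, IsGerm ((c⁻¹ : Λ) : Equiv.Perm (OnePoint ℝ)) (ks n : ℝ ≃o ℝ) x)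
    (v w : K) (hv : ρ c v = v) (hw : ρ c w = w) :
    ∃ q : ℂ, ∀ f : LL2 ℂ, coef T w v f = q • f := by
  set φ := phi t ht with hφdef
  set ψ := coef T w v φ with hψ
  have hcinv : ((c⁻¹ : Λ) : Equiv.Perm (OnePoint ℝ)) = (mobHom ℝ (mat t))⁻¹ := by
    rw [← hc]
    rfl
  set B : ℕ → Set ℝ := fun n =>
    {x : ℝ | IsGerm ((c⁻¹ : Λ) : Equiv.Perm (OnePoint ℝ)) (ks n : ℝ ≃o ℝ) x} with hB
  have hBo : ∀ n, IsOpen (B n) := fun n => germSet_open hΛ ρ C hC hρ c⁻¹ (ks n)
  have hgerm : ∀ n, ∀ x ∈ B n, IsGerm (mobHom ℝ (mat t))⁻¹ (ks n : ℝ ≃o ℝ) x := by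
    intro n x hx
    rw [← hcinv]
    exact hx
  have hW : ∀ n, Ei (B n) (hBo n).measurableSet (W0 hΛ (ks n) φ) =
      Ei (B n) (hBo n).measurableSet φ := by
    intro n
    apply Lp.ext
    filter_upwards [Ei_coe (B n) (hBo n).measurableSet (W0 hΛ (ks n) φ),
      Ei_coe (B n) (hBo n).measurableSet φ, W0_coe hΛ (ks n) φ, phi_coe t ht,
      (qmp hΛ (ks n)).ae (phi_coe t ht)] with x h1 h2 h3 h4 h5
    rw [h1, h2]
    by_cases hx : x ∈ B n
    · rw [Set.indicator_of_mem hx, Set.indicator_of_mem hx, h3, hφdef, h4, h5,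
        germ_deriv t (hgerm n x hx)]
      obtain ⟨h6, h7⟩ := (germ_cinv t (hgerm n x hx)).self_of_nhds
      rw [h7, ← Complex.ofReal_mul, phi0_inv t ht h6]
    · rw [Set.indicator_of_notMem hx, Set.indicator_of_notMem hx]
  have htr : ∀ n, Ei (B n) (hBo n).measurableSet ψ =
      Ei (B n) (hBo n).measurableSet (W0 hΛ (ks n) ψ) := fun n =>
    coef_transport hΛ ρ C hC hρ hsa G hT hall (ks n) (hks n) c v w hv hw (B n)
      (hBo n).measurableSet (fun x hx => hx) φ (hW n)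
  have hpt : ∀ᵐ x : ℝ, ∀ n, x ∈ B n → ψ x =
      ((Real.sqrt (deriv (ks n : ℝ ≃o ℝ) x) : ℝ) : ℂ) * ψ ((ks n : ℝ ≃o ℝ) x) := by
    rw [ae_all_iff]
    intro n
    have h0 : (Ei (B n) (hBo n).measurableSet ψ : ℝ → ℂ) =ᵐ[volume]
      Ei (B n) (hBo n).measurableSet (W0 hΛ (ks n) ψ) := by rw [htr n]
    filter_upwards [Ei_coe (B n) (hBo n).measurableSet (W0 hΛ (ks n) ψ),
      Ei_coe (B n) (hBo n).measurableSet ψ, W0_coe hΛ (ks n) ψ, h0] with x h1 h2 h3 h4 hx
    rw [h1, h2, Set.indicator_of_mem hx, Set.indicator_of_mem hx, h3] at h4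
    exact h4
  -- the ratio
  set F : ℝ → ℂ := fun x => ψ x / ((phi0 t x : ℝ) : ℂ) with hF
  have hFm : AEStronglyMeasurable F volume := by
    rw [hF]
    apply AEStronglyMeasurable.div₀ (Lp.aestronglyMeasurable ψ)
    exact (Complex.continuous_ofReal.comp (phi0_cont t ht)).aestronglyMeasurable
  have hFinv : ∀ᵐ x : ℝ, F (1 / (t - x)) = F x := by
    filter_upwards [hpt, hcov] with x h1 h2
    obtain ⟨n, hn⟩ := h2
    have h3 := h1 n hn
    obtain ⟨h6, h7⟩ := (germ_cinv t (hgerm n x hn)).self_of_nhds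
    have h8 := germ_deriv t (hgerm n x hn)
    rw [h8, h7] at h3
    rw [hF]
    simp only
    rw [h3, ← phi0_inv t ht h6, Complex.ofReal_mul]
    have h9 : ((Real.sqrt (1 / (t - x) ^ 2) : ℝ) : ℂ) ≠ 0 := by
      rw [Complex.ofReal_ne_zero]
      have : t - x ≠ 0 := sub_ne_zero.2 h6.symm
      positivity
    rw [mul_div_mul_left _ _ h9]
  -- ergodicity
  set α := Real.arccos (t / 2) with hα
  have habs := abs_lt.1 ht
  have hcos : Real.cos α = t / 2 := Real.cos_arccos (by linarith [habs.1]) (by linarith [habs.2])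
  have h2cos : 2 * Real.cos α = t := by rw [hcos]; ring
  have hsin : Real.sin α ≠ 0 := by
    rw [hα, Real.sin_arccos]
    have : 0 < 1 - (t / 2) ^ 2 := by nlinarith [habs.1, habs.2]
    positivity
  have hirr := mat_irr α hsin (by
    intro n hn h0
    rw [h2cos, ← hc] at h0
    apply hord n hn
    apply Subtype.ext
    exact h0)
  obtain ⟨q, hq⟩ := ell_ergodic α hsin hirr F hFm (by rw [h2cos]; exact hFinv)
  refine ⟨q, ?_⟩
  have hψq : ψ = q • φ := by
    apply Lp.ext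
    filter_upwards [hq, Lp.coeFn_smul q φ, phi_coe t ht] with x h1 h2 h3
    rw [h2, Pi.smul_apply, smul_eq_mul]
    rw [hφdef, h3]
    rw [hF] at h1
    simp only at h1
    have h4 : ((phi0 t x : ℝ) : ℂ) ≠ 0 := by
      rw [Complex.ofReal_ne_zero]
      exact (phi0_pos t ht x).ne'
    rw [div_eq_iff h4] at h1
    exact h1
  -- density
  set D : LL2 ℂ →L[ℂ] LL2 ℂ := coef T w v - q • ContinuousLinearMap.id ℂ (LL2 ℂ) with hD
  have hDB : ∀ (A : Set ℝ) (hA : MeasurableSet A), D (Ei A hA φ) = 0 := by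
    intro A hA
    show coef T w v (Ei A hA φ) - q • (Ei A hA φ) = 0
    rw [coef_Ei hsa hall, ← hψ, hψq, map_smul, sub_self]
  have hker : (LinearMap.ker (D : LL2 ℂ →ₗ[ℂ] LL2 ℂ)) = ⊤ := by
    have hcl : IsClosed ((LinearMap.ker (D : LL2 ℂ →ₗ[ℂ] LL2 ℂ)) : Set (LL2 ℂ)) :=
      D.isClosed_ker
    have : CompleteSpace (LinearMap.ker (D : LL2 ℂ →ₗ[ℂ] LL2 ℂ)) := hcl.completeSpace_coe
    rw [← Submodule.orthogonal_eq_bot_iff]
    rw [Submodule.eq_bot_iff]
    intro g hg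
    have h1 : ∀ (A : Set ℝ), MeasurableSet A → volume A < ⊤ →
        ∫ x in A, ⟪φ x, g x⟫_ℂ = 0 := by
      intro A hA _
      rw [← inner_Ei_left A hA]
      exact (Submodule.mem_orthogonal _ _).1 hg _ (LinearMap.mem_ker.2 (hDB A hA))
    have h2 := (L2.integrable_inner (𝕜 := ℂ) φ g).ae_eq_zero_of_forall_setIntegral_eq_zero h1
    apply Lp.ext
    filter_upwards [h2, phi_coe t ht, Lp.coeFn_zero ℂ 2 (volume : Measure ℝ)] with x h3 h4 h5
    rw [h5]
    have h6 : ((phi0 t x : ℝ) : ℂ) ≠ 0 := by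
      rw [Complex.ofReal_ne_zero]
      exact (phi0_pos t ht x).ne'
    rw [hφdef, h4] at h3
    simp only [RCLike.inner_apply, Pi.zero_apply] at h3 ⊢
    rcases mul_eq_zero.1 h3 with h7 | h7
    · exact h7
    · exact absurd ((map_eq_zero _).1 h7) h6
  intro f
  have : f ∈ LinearMap.ker (D : LL2 ℂ →ₗ[ℂ] LL2 ℂ) := by rw [hker]; trivial
  have h1 : coef T w v f - q • f = 0 := LinearMap.mem_ker.1 this
  exact sub_eq_zero.1 h1

end scalar

end

end Pool.W735.Dx
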