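import Pool.Agent.W735.DxMain2

/-!
Unitarizability passes to subgroups.
-/

set_option autoImplicit false
set_option linter.unusedVariables false
set_option linter.unusedSectionVars false

open scoped Topology InnerProductSpace ENNReal

namespace Pool.W735.Dx

noncomputable section

section unit

variable {H : Type*} [NormedAddCommGroup H] [InnerProductSpace ℂ H] [CompleteSpace H]

/-- an invertible positive intertwiner gives a unitarizing operator. -/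
theorem unit_of_A {G : Type*} [Group G] (π : G →* (H →L[ℂ] H)ˣ) (A : H →L[ℂ] H)
    (hpos : A.IsPositive) {c : ℝ} (hc : 0 < c) (hlow : ∀ x, c * ‖x‖ ^ 2 ≤ (⟪A x, x⟫_ℂ).re)
    (hinv : ∀ g, star ((π g : (H →L[ℂ] H)ˣ) : H →L[ℂ] H) * A * ((π g : (H →L[ℂ] H)ˣ) : H →L[ℂ] H) = A) :
    ∃ S : (H →L[ℂ] H)ˣ, ∀ g : G,
            star (((S : (H →L[ℂ] H)ˣ) : H →L[ℂ] H) * ((π g : (H →L[ℂ] H)ˣ) : H →L[ℂ] H)
                * ((S⁻¹ : (H →L[ℂ] H)ˣ) : H →L[ℂ] H)) *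
              (((S : (H →L[ℂ] H)ˣ) : H →L[ℂ] H) * ((π g : (H →L[ℂ] H)ˣ) : H →L[ℂ] H)
                * ((S⁻¹ : (H →L[ℂ] H)ˣ) : H →L[ℂ] H)) = 1 ∧
            (((S : (H →L[ℂ] H)ˣ) : H →L[ℂ] H) * ((π g : (H →L[ℂ] H)ˣ) : H →L[ℂ] H)
                * ((S⁻¹ : (H →L[ℂ] H)ˣ) : H →L[ℂ] H)) *
              star (((S : (H →L[ℂ] H)ˣ) : H →L[ℂ] H) * ((π g : (H →L[ℂ] H)ˣ) : H →L[ℂ] H)
                * ((S⁻¹ : (H →L[ℂ] H)ˣ) : H →L[ℂ] H)) = 1 := by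
  have h0 : 0 ≤ A := (ContinuousLinearMap.nonneg_iff_isPositive A).2 hpos
  have hcle : algebraMap ℝ (H →L[ℂ] H) c ≤ A := by
    rw [ContinuousLinearMap.le_def, ContinuousLinearMap.isPositive_iff_complex]
    have hA := (ContinuousLinearMap.isPositive_iff_complex A).1 hpos
    intro x
    have h1 : ⟪(A - algebraMap ℝ (H →L[ℂ] H) c) x, x⟫_ℂ = ⟪A x, x⟫_ℂ - ((c * ‖x‖ ^ 2 : ℝ) : ℂ) := by
      rw [sub_apply, inner_sub_left]
      congr 1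
      rw [Algebra.algebraMap_eq_smul_one, smul_apply,
        one_apply_eq_self, ← Complex.coe_smul, inner_smul_left,
        inner_self_eq_norm_sq_to_K]
      simp
    rw [h1]
    constructor
    · rw [map_sub]
      have h2 := (hA x).1
      have h3 : RCLike.re ((c * ‖x‖ ^ 2 : ℝ) : ℂ) = c * ‖x‖ ^ 2 := by
        exact Complex.ofReal_re _
      rw [h3, Complex.ofReal_sub, h2]
    · rw [map_sub, sub_nonneg]
      exact hlow x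
  have hu : IsUnit A := by
    refine CStarAlgebra.isUnit_of_le (algebraMap ℝ (H →L[ℂ] H) c) hcle ?_
    exact isStrictlyPositive_algebraMap hc
  have hsu : IsUnit (CFC.sqrt A) := (CFC.isUnit_sqrt_iff A h0).2 hu
  obtain ⟨S, hS⟩ := hsu
  have hSs : star (S : H →L[ℂ] H) = (S : H →L[ℂ] H) := by
    rw [hS]
    exact (IsSelfAdjoint.of_nonneg (CFC.sqrt_nonneg A)).star_eq
  have hSS : (S : H →L[ℂ] H) * (S : H →L[ℂ] H) = A := by
    rw [hS]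
    exact CFC.sqrt_mul_sqrt_self A h0
  have hSi : star ((S⁻¹ : (H →L[ℂ] H)ˣ) : H →L[ℂ] H) = ((S⁻¹ : (H →L[ℂ] H)ˣ) : H →L[ℂ] H) := by
    have h1 : star S = S := Units.ext hSs
    rw [← Units.coe_star, star_inv, h1]
  refine ⟨S, fun g => ?_⟩
  have h1 : star (((S : (H →L[ℂ] H)ˣ) : H →L[ℂ] H) * ((π g : (H →L[ℂ] H)ˣ) : H →L[ℂ] H)
                * ((S⁻¹ : (H →L[ℂ] H)ˣ) : H →L[ℂ] H)) *
              (((S : (H →L[ℂ] H)ˣ) : H →L[ℂ] H) * ((π g : (H →L[ℂ] H)ˣ) : H →L[ℂ] H)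
                * ((S⁻¹ : (H →L[ℂ] H)ˣ) : H →L[ℂ] H)) = 1 := by
    rw [star_mul, star_mul, hSi, hSs]
    calc ((S⁻¹ : (H →L[ℂ] H)ˣ) : H →L[ℂ] H) * (star ((π g : (H →L[ℂ] H)ˣ) : H →L[ℂ] H) * (S : H →L[ℂ] H))
          * ((S : H →L[ℂ] H) * ((π g : (H →L[ℂ] H)ˣ) : H →L[ℂ] H) * ((S⁻¹ : (H →L[ℂ] H)ˣ) : H →L[ℂ] H))
        = ((S⁻¹ : (H →L[ℂ] H)ˣ) : H →L[ℂ] H) * (star ((π g : (H →L[ℂ] H)ˣ) : H →L[ℂ] H) *
          ((S : H →L[ℂ] H) * (S : H →L[ℂ] H)) * ((π g : (H →L[ℂ] H)ˣ) : H →L[ℂ] H))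
          * ((S⁻¹ : (H →L[ℂ] H)ˣ) : H →L[ℂ] H) := by simp only [mul_assoc]
      _ = ((S⁻¹ : (H →L[ℂ] H)ˣ) : H →L[ℂ] H) * ((S : H →L[ℂ] H) * (S : H →L[ℂ] H)) *
          ((S⁻¹ : (H →L[ℂ] H)ˣ) : H →L[ℂ] H) := by rw [hSS, hinv]
      _ = 1 := by
        rw [← mul_assoc, Units.inv_mul, one_mul, Units.mul_inv]
  refine ⟨h1, ?_⟩
  have h2 : ((S : (H →L[ℂ] H)ˣ) : H →L[ℂ] H) * ((π g : (H →L[ℂ] H)ˣ) : H →L[ℂ] H)
                * ((S⁻¹ : (H →L[ℂ] H)ˣ) : H →L[ℂ] H) = ((S * π g * S⁻¹ : (H →L[ℂ] H)ˣ) : H →L[ℂ] H) := by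
    simp
  rw [h2] at h1 ⊢
  have h3 : star (((S * π g * S⁻¹ : (H →L[ℂ] H)ˣ) : H →L[ℂ] H)) =
      (((S * π g * S⁻¹ : (H →L[ℂ] H)ˣ)⁻¹ : (H →L[ℂ] H)ˣ) : H →L[ℂ] H) :=
    Units.eq_inv_of_mul_eq_one_right h1
  rw [h3]
  exact Units.mul_inv _


end unit

/-- an invariant positive form from unitarizability, with a lower bound. -/
lemma UG.exists_T' {G : Type} [Group G] (hU : UG G) {H : Type} [NormedAddCommGroup H]
    [InnerProductSpace ℂ H] [CompleteSpace H] (π0 : G →* (H →L[ℂ] H)) (C : ℝ) (hC : 0 ≤ C)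
    (hb : ∀ g x, ‖π0 g x‖ ≤ C * ‖x‖) :
    ∃ (S : (H →L[ℂ] H)ˣ), ∀ g x y, ⟪(S : H →L[ℂ] H) (π0 g x), (S : H →L[ℂ] H) (π0 g y)⟫_ℂ =
      ⟪(S : H →L[ℂ] H) x, (S : H →L[ℂ] H) y⟫_ℂ := by
  obtain ⟨S, hS⟩ := hU H π0.toHomUnits ⟨C, fun g =>
    ContinuousLinearMap.opNorm_le_bound _ hC (hb g)⟩
  refine ⟨S, fun g x y => ?_⟩
  have h1 := (hS g).1
  have h2 : ((π0.toHomUnits g : (H →L[ℂ] H)ˣ) : H →L[ℂ] H) = π0 g := rfl
  rw [h2] at h1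
  have h3 : ∀ z, ((S : H →L[ℂ] H) * π0 g * ((S⁻¹ : (H →L[ℂ] H)ˣ) : H →L[ℂ] H)) ((S : H →L[ℂ] H) z) =
      (S : H →L[ℂ] H) (π0 g z) := by
    intro z
    have h4 : (S : H →L[ℂ] H) * π0 g * ((S⁻¹ : (H →L[ℂ] H)ˣ) : H →L[ℂ] H) * (S : H →L[ℂ] H) =
      (S : H →L[ℂ] H) * π0 g := by
      rw [mul_assoc, Units.inv_mul, mul_one]
    have h5 := congrArg (fun L : H →L[ℂ] H => L z) h4
    exact h5
  set U := ((S : H →L[ℂ] H) * π0 g * ((S⁻¹ : (H →L[ℂ] H)ˣ) : H →L[ℂ] H)) with hU'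
  rw [← h3, ← h3, ← ContinuousLinearMap.adjoint_inner_right]
  have h6 : (ContinuousLinearMap.adjoint U) (U ((S : H →L[ℂ] H) y)) = (S : H →L[ℂ] H) y := by
    have h7 := congrArg (fun L : H →L[ℂ] H => L ((S : H →L[ℂ] H) y)) h1
    rw [ContinuousLinearMap.star_eq_adjoint] at h7
    exact h7
  rw [h6]

/-- Unitarizability passes to subgroups. -/
theorem UG.of_injective {G H : Type} [Group G] [Group H] (j : H →* G)
    (hj : Function.Injective j) (hG : UG G) : UG H := by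
  intro E _ _ _ π hπ
  obtain ⟨C, hC⟩ := hπ
  set τ : H →* (E →L[ℂ] E) := (Units.coeHom (E →L[ℂ] E)).comp π with hτdef
  have hC' : 0 ≤ max C 0 := le_max_right _ _
  have hτ : ∀ h v, ‖τ h v‖ ≤ max C 0 * ‖v‖ := by
    intro h v
    refine ((τ h).le_opNorm v).trans ?_
    gcongr
    exact (hC h).trans (le_max_left _ _)
  obtain ⟨S, hS⟩ := hG.exists_T' (H := lp (fun _ : G ⧸ j.range => E) 2) (ind j τ (max C 0) hC' hτ hj)
    (max C 0) hC' (ind_norm j τ (max C 0) hC' hτ hj)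
  set R : E →L[ℂ] lp (fun _ : G ⧸ j.range => E) 2 := (S : lp (fun _ : G ⧸ j.range => E) 2 →L[ℂ]
    lp (fun _ : G ⧸ j.range => E) 2) ∘L emb j with hR
  have hRinv : ∀ h x y, ⟪R (τ h x), R (τ h y)⟫_ℂ = ⟪R x, R y⟫_ℂ := by
    intro h x y
    have h1 := hS (j h) (emb j x) (emb j y)
    rw [ind_emb, ind_emb] at h1
    exact h1
  set A : E →L[ℂ] E := ContinuousLinearMap.adjoint R ∘L R with hA
  have hAin : ∀ x y, ⟪A x, y⟫_ℂ = ⟪R x, R y⟫_ℂ := by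
    intro x y
    rw [hA, ContinuousLinearMap.comp_apply, ContinuousLinearMap.adjoint_inner_left]
  have hpos : A.IsPositive := by
    rw [ContinuousLinearMap.isPositive_iff_complex]
    intro x
    rw [hAin, inner_self_eq_norm_sq_to_K]
    constructor
    · norm_cast
    · norm_cast
      positivity
  have hSi : 0 < ‖((S⁻¹ : (lp (fun _ : G ⧸ j.range => E) 2 →L[ℂ]
      lp (fun _ : G ⧸ j.range => E) 2)ˣ) : lp (fun _ : G ⧸ j.range => E) 2 →L[ℂ]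
      lp (fun _ : G ⧸ j.range => E) 2)‖ + 1 := by positivity
  set D := ‖((S⁻¹ : (lp (fun _ : G ⧸ j.range => E) 2 →L[ℂ]
      lp (fun _ : G ⧸ j.range => E) 2)ˣ) : lp (fun _ : G ⧸ j.range => E) 2 →L[ℂ]
      lp (fun _ : G ⧸ j.range => E) 2)‖ + 1 with hD
  have hlow : ∀ x, (D ^ 2)⁻¹ * ‖x‖ ^ 2 ≤ (⟪A x, x⟫_ℂ).re := by
    intro x
    have h1 : ‖x‖ ≤ D * ‖R x‖ := by
      have h2 : emb j x = ((S⁻¹ : (lp (fun _ : G ⧸ j.range => E) 2 →L[ℂ]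
        lp (fun _ : G ⧸ j.range => E) 2)ˣ) : lp (fun _ : G ⧸ j.range => E) 2 →L[ℂ]
        lp (fun _ : G ⧸ j.range => E) 2) (R x) := by
        have h3 := congrArg (fun L : lp (fun _ : G ⧸ j.range => E) 2 →L[ℂ]
          lp (fun _ : G ⧸ j.range => E) 2 => L (emb j x)) S.inv_mul
        exact h3.symm
      rw [← emb_norm j x, h2]
      refine (ContinuousLinearMap.le_opNorm _ _).trans ?_
      gcongr
      rw [hD]
      linarith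
    rw [hAin, inner_self_eq_norm_sq_to_K]
    have h4 : ((((‖R x‖ : ℝ) : ℂ)) ^ 2).re = ‖R x‖ ^ 2 := by
      rw [← Complex.ofReal_pow, Complex.ofReal_re]
    have h5 : (RCLike.ofReal ‖R x‖ : ℂ) = ((‖R x‖ : ℝ) : ℂ) := rfl
    rw [h5, h4, inv_mul_le_iff₀ (by positivity), ← mul_pow]
    gcongr
  have hinv : ∀ g, star ((π g : (E →L[ℂ] E)ˣ) : E →L[ℂ] E) * A * ((π g : (E →L[ℂ] E)ˣ) : E →L[ℂ] E) = A := by
    intro g
    ext x
    apply ext_inner_right ℂ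
    intro y
    have h1 : (star ((π g : (E →L[ℂ] E)ˣ) : E →L[ℂ] E) * A * ((π g : (E →L[ℂ] E)ˣ) : E →L[ℂ] E)) x =
      ContinuousLinearMap.adjoint (τ g) (A (τ g x)) := rfl
    rw [h1, ContinuousLinearMap.adjoint_inner_left, hAin, hAin]
    exact hRinv g x y
  exact unit_of_A π A hpos (inv_pos.2 (by positivity)) hlow hinv

end

end Pool.W735.Dx
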